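import Pool.Agent.HL2.Bielliptic

/-!
# The bielliptic pencil: the components with two nodes
-/

open CategoryTheory MonoidalCategory CartesianMonoidalCategory

namespace Pool.Agent.HL2

universe u v w

/-- The pairs of markings over `P`. -/
abbrev In (P : Fin 5 ⊕ Fin 10 → Prop) : Type := {i : Fin 10 // P (Sum.inr i)}

/-- The other pairs of markings. -/
abbrev Out (P : Fin 5 ⊕ Fin 10 → Prop) : Type := {i : Fin 10 // ¬ P (Sum.inr i)}

open Classical in
/-- The markings on the two sides. -/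
noncomputable def fB (P : Fin 5 ⊕ Fin 10 → Prop) :
    (In P ⊕ In P) ⊕ (Out P ⊕ Out P) ≃ Fin 10 ⊕ Fin 10 :=
  (Equiv.sumSumSumComm _ _ _ _).trans
    (Equiv.sumCongr (Equiv.sumCompl (fun i => P (Sum.inr i)))
      (Equiv.sumCompl (fun i => P (Sum.inr i))))

/-- The pairs of markings over `P`, as points. -/
def xB (P : Fin 5 ⊕ Fin 10 → Prop) : In P ⊕ In P → {n // P n} × V4 :=
  Sum.elim (fun i => (⟨Sum.inr i.1, i.2⟩, 0)) (fun i => (⟨Sum.inr i.1, i.2⟩, vb))

/-- The other pairs of markings, as points. -/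
def yB (P : Fin 5 ⊕ Fin 10 → Prop) : Out P ⊕ Out P → {n // ¬ P n} × V4 :=
  Sum.elim (fun i => (⟨Sum.inr i.1, i.2⟩, 0)) (fun i => (⟨Sum.inr i.1, i.2⟩, vb))

/-- The numerical data of the two sides of a decomposition. -/
theorem sides (P : Fin 5 ⊕ Fin 10 → Prop) (b : Fin 5 → Bool)
    (hb : ∀ i, P (Sum.inl i) ↔ b i = true) (γ : V4) :
    (∑ᶠ p : {n // P n}, mB p.1 = ∑ k, red 0 wB b k) ∧
    (br (nd γ (fun p : {n // P n} => mB p.1)) =
      (Finset.univ.filter (fun k => red γ wB b k ≠ 0)).card) ∧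
    (Full (nd γ (fun p : {n // P n} => mB p.1)) ↔ Full (red γ wB b)) ∧
    (Cyc γ (nd γ (fun p : {n // P n} => mB p.1)) ↔ Cyc γ (red γ wB b)) ∧
    (br (nd γ (fun p : {n // ¬ P n} => mB p.1)) =
      (Finset.univ.filter (fun k => red γ wB (fun i => !(b i)) k ≠ 0)).card) ∧
    (Full (nd γ (fun p : {n // ¬ P n} => mB p.1)) ↔ Full (red γ wB (fun i => !(b i)))) ∧
    (∀ t, t ≠ 0 → ((∀ n, nd γ (fun p : {n // ¬ P n} => mB p.1) n ≠ t) ↔
      ∀ k, red γ wB (fun i => !(b i)) k ≠ t)) := by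
  have hb' : ∀ i, ¬ P (Sum.inl i) ↔ (!(b i)) = true := by
    intro i
    rw [hb]
    simp
  obtain ⟨a1, a2, a3, a4, a5⟩ := ext_piece wB P b hb γ
  obtain ⟨b1, b2, b3, b4, b5⟩ := ext_piece wB (fun n => ¬ P n) (fun i => !(b i)) hb' γ
  refine ⟨?_, ?_, a2, a3 γ, ?_, b2, b4⟩
  · unfold mB
    rw [sum_piece wB P b hb, finsum_eq_sum_of_fintype]
  · rw [← br_eq]; exact a1
  · rw [← br_eq]; exact b1

theorem zero_unbr {γ : V4} (hγ : γ ≠ 0) {P : Fin 5 ⊕ Fin 10 → Prop}
    (n : Option {n // P n}) (hn : nd γ (fun p : {n // P n} => mB p.1) n = 0) :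
    ∃ s : In P, n = some ⟨Sum.inr s.1, s.2⟩ := by
  rcases n with _ | ⟨i | s, hi⟩
  · exact absurd hn hγ
  · have h4 : ∀ j, wB j ≠ 0 := by decide
    exact (h4 i hn).elim
  · exact ⟨⟨s, hi⟩, rfl⟩

namespace Theory

variable {C : Type u} [Category.{v} C] [CartesianMonoidalCategory C]
  {A : C → CommAlgCat.{w} ℚ} {T : Theory A}

open Classical in
/-- The formula of `pair` for the bielliptic pencil. -/
theorem bi_pair {Q : T.Klein} (K : Q.Facts) {P : Fin 5 ⊕ Fin 10 → Prop}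
    (ε : Fin 5 ⊕ Fin 10 → V4) (hTwo : Two P) (b : Fin 5 → Bool)
    (hb : ∀ i, P (Sum.inl i) ↔ b i = true) {γ δ : V4} {p q : ℕ} (h : p + q = 1)
    (hs : ∑ k, red 0 wB b k = γ) (hδ : ¬ Sub γ δ) (hγ : γ ≠ 0)
    (f1 : Full (red γ wB b))
    (b1 : (Finset.univ.filter (fun k => red γ wB b k ≠ 0)).card = p + 3)
    (f2 : Full (red γ wB (fun i => !(b i))))
    (b2 : (Finset.univ.filter (fun k => red γ wB (fun i => !(b i)) k ≠ 0)).card = q + 3)
    {R₁ R₂ : Type} (e₁ : Option (Option (In P ⊕ In P)) ≃ R₁)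
    (e₂ : Option (Option (Out P ⊕ Out P)) ≃ R₂) :
    Q.gl (Equiv.sumCompl P) mB ε γ ≫ Q.cur mB 2 markB =
      (Q.cur (nd γ (fun i : {n // P n} => mB i.1)) p
        (fun r => sd2 0 δ (fun i : {n // P n} => ε i.1) (xB P) (e₁.symm r)) ⊗ₘ
       Q.cur (nd γ (fun i : {n // ¬ P n} => mB i.1)) q
        (fun r => sd2 0 δ (fun i : {n // ¬ P n} => ε i.1) (yB P) (e₂.symm r))) ≫
      T.glue h e₁ e₂ (Equiv.refl _) ≫ T.self rfl (joint (fB P)) := by
  obtain ⟨s0, s1, s2, -, s4, s5, -⟩ := sides P b hb γ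
  exact K.pair (Equiv.sumCompl P) mB ε γ δ h rfl markB (fB P) e₁ e₂ (xB P) (yB P) good_B
    ⟨hTwo.1, hTwo.2, s0.trans hs⟩ hγ hδ ⟨s2.2 f1, s1.trans b1⟩ ⟨s5.2 f2, s4.trans b2⟩
    (by rintro (i | i) <;> rfl) (by rintro (i | i) <;> rfl)

theorem rat_side (F : T.Facts) {D : C} {X : Type} [Finite X] (hX : Nonempty X)
    (c : D ⟶ T.M 0 (Option (Option (X ⊕ X)))) :
    Stable 0 (Option (Option (X ⊕ X))) ∧ T.Nice (.M 0 (Option (Option (X ⊕ X)))) c := by
  have hst : Stable 0 (Option (Option (X ⊕ X))) := by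
    refine ⟨inferInstance, ?_⟩
    have := Nat.card_pos (α := X)
    rw [card_option'', card_option'', Nat.card_sum]
    omega
  exact ⟨hst, nice_small (X := .M 0 (Option (Option (X ⊕ X)))) F ⟨hst, Or.inl rfl⟩ c⟩

open Classical in
/-- The torsion component. -/
theorem bi_tor (F : T.Facts) {Q : T.Klein} (K : Q.Facts) {P : Fin 5 ⊕ Fin 10 → Prop}
    (ε : Fin 5 ⊕ Fin 10 → V4) (hTwo : Two P) (h0 : P (Sum.inl 0)) (h1 : ¬ P (Sum.inl 1))
    (h2 : ¬ P (Sum.inl 2)) (h3 : P (Sum.inl 3)) (h4 : ¬ P (Sum.inl 4)) :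
    T.Nice (.M 2 (Fin 10 ⊕ Fin 10)) (Q.gl (Equiv.sumCompl P) mB ε vc ≫ Q.cur mB 2 markB) := by
  have hb : ∀ i, P (Sum.inl i) ↔ (![true, false, false, true, false] : Fin 5 → Bool) i = true := by
    intro i; fin_cases i <;> simp [h0, h1, h2, h3, h4]
  obtain ⟨s0, s1, s2, -, s4, s5, s6⟩ := sides P _ hb vc
  rw [bi_pair K ε hTwo _ hb (γ := vc) (δ := vb) (p := 0) (q := 1) rfl (by decide) (by decide)
    (by decide) (by decide) (by decide) (by decide) (by decide)
    (Equiv.refl (Option (Option (In P ⊕ In P)))) (dbl (Out P))]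
  have hst : Stable 1 (Option (Out P) ⊕ Option (Out P)) := by
    refine ⟨inferInstance, ?_⟩
    rw [Nat.card_sum, card_option'']; omega
  let zz : Option (Out P) → Option {n // ¬ P n} × V4 := fun o =>
    Option.elim o (none, vb) (fun o => (some ⟨Sum.inr o.1, o.2⟩, ε (Sum.inr o.1)))
  have hfun : (fun r => sd2 0 vb (fun i : {n // ¬ P n} => ε i.1) (yB P)
      ((dbl (Out P)).symm r)) = both zz vb := by
    unfold both
    funext r
    obtain ⟨x, rfl⟩ := (dbl (Out P)).surjective r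
    rw [Equiv.symm_apply_apply]
    rcases x with _ | _ | s | s
    · change ((none : Option {n // ¬ P n}), (0 : V4)) = (none, vb + vb)
      rw [V4.add_self]
    · rfl
    · change ((some ⟨Sum.inr s.1, s.2⟩ : Option {n // ¬ P n}), 0 + ε (Sum.inr s.1)) =
        (some ⟨Sum.inr s.1, s.2⟩, ε (Sum.inr s.1))
      rw [zero_add]
    · change ((some ⟨Sum.inr s.1, s.2⟩ : Option {n // ¬ P n}), vb + ε (Sum.inr s.1)) =
        (some ⟨Sum.inr s.1, s.2⟩, ε (Sum.inr s.1) + vb)
      rw [add_comm]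
  have hadm : Adm (nd vc (fun p : {n // ¬ P n} => mB p.1)) :=
    adm_right (e := Equiv.sumCompl P) good_B.adm ⟨hTwo.1, hTwo.2, s0.trans (by decide)⟩
  obtain ⟨r, hr, hr'⟩ := K.tor_cover (nd vc (fun p : {n // ¬ P n} => mB p.1)) vb zz none
    ⟨hadm, ⟨s5.2 (by decide), s4.trans (by decide)⟩, by decide,
      (s6 vb (by decide)).2 (by decide)⟩
    ⟨by
      rintro (_ | s) (_ | s') h
      · rfl
      · cases h
      · cases h
      · have : s.1 = s'.1 := by simpa [zz] using h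
        rw [show s = s' from Subtype.ext this],
    by change vc ≠ 0; decide,
    fun n => ⟨fun hn => by
      obtain ⟨s, rfl⟩ := zero_unbr (P := fun n => ¬ P n) (by decide : vc ≠ 0) n hn
      exact ⟨some s, (Option.some_ne_none _), rfl⟩, by
      rintro ⟨_ | s, h, rfl⟩
      · exact absurd rfl h
      · rfl⟩⟩
  have hn : T.Nice (.M 1 (Option (Out P) ⊕ Option (Out P)))
      (Q.cur (nd vc (fun p : {n // ¬ P n} => mB p.1)) 1
        (fun r => sd2 0 vb (fun i : {n // ¬ P n} => ε i.1) (yB P) ((dbl (Out P)).symm r))) := by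
    rw [hfun, hr']
    exact nice_cover r hr (tor_nice F K _ _ inferInstance inferInstance rfl)
  by_cases hI : Nonempty (In P)
  · obtain ⟨hst1, hn1⟩ := rat_side F hI (Q.cur (nd vc (fun i : {n // P n} => mB i.1)) 0
        (fun r => sd2 0 vb (fun i : {n // P n} => ε i.1) (xB P)
          ((Equiv.refl (Option (Option (In P ⊕ In P)))).symm r)))
    exact pair_nice _ _ _ _ _ _ _ hst1 hst hn1 hn
  · have : IsEmpty (In P ⊕ In P) := by
      rw [not_nonempty_iff] at hI
      infer_instance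
    exact pair_left K _ _ _ _ _ _ _ this hst hn

open Classical in
/-- The Hurwitz component. -/
theorem bi_hur (F : T.Facts) {Q : T.Klein} (K : Q.Facts) {P : Fin 5 ⊕ Fin 10 → Prop}
    (ε : Fin 5 ⊕ Fin 10 → V4) (hTwo : Two P) (h0 : P (Sum.inl 0)) (h1 : ¬ P (Sum.inl 1))
    (h2 : P (Sum.inl 2)) (h3 : P (Sum.inl 3)) (h4 : ¬ P (Sum.inl 4)) :
    T.Nice (.M 2 (Fin 10 ⊕ Fin 10)) (Q.gl (Equiv.sumCompl P) mB ε vb ≫ Q.cur mB 2 markB) := by
  have hb : ∀ i, P (Sum.inl i) ↔ (![true, false, true, true, false] : Fin 5 → Bool) i = true := by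
    intro i; fin_cases i <;> simp [h0, h1, h2, h3, h4]
  obtain ⟨s0, s1, s2, -, s4, s5, s6⟩ := sides P _ hb vb
  rw [bi_pair K ε hTwo _ hb (γ := vb) (δ := va) (p := 1) (q := 0) rfl (by decide) (by decide)
    (by decide) (by decide) (by decide) (by decide) (by decide)
    (Equiv.refl (Option (Option (In P ⊕ In P)))) (Equiv.refl (Option (Option (Out P ⊕ Out P))))]
  have hst : Stable 1 (Option (Option (In P ⊕ In P))) := by
    refine ⟨inferInstance, ?_⟩
    rw [card_option'', card_option'']; omega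
  have hadm : Adm (nd vb (fun p : {n // P n} => mB p.1)) :=
    adm_left (e := Equiv.sumCompl P) good_B.adm ⟨hTwo.1, hTwo.2, s0.trans (by decide)⟩
  obtain ⟨r, hr, hr'⟩ := K.hur_cover (nd vb (fun p : {n // P n} => mB p.1)) va none 0
    (fun i : In P => ((some ⟨Sum.inr i.1, i.2⟩ : Option {n // P n}), ε (Sum.inr i.1)))
    hadm ⟨s2.2 (by decide), s1.trans (by decide)⟩ (by change vb ≠ 0; decide)
    (by change ¬ Sub vb va; decide)
    ⟨by
      intro s s' h
      have : s.1 = s'.1 := by simpa using h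
      exact Subtype.ext this,
    fun n => ⟨fun hn => by
      obtain ⟨s, rfl⟩ := zero_unbr (by decide : vb ≠ 0) n hn
      exact ⟨s, rfl⟩, by rintro ⟨s, rfl⟩; rfl⟩⟩
  have hfun : (fun r => sd2 0 va (fun i : {n // P n} => ε i.1) (xB P)
      ((Equiv.refl (Option (Option (In P ⊕ In P)))).symm r)) =
      (fun i => Option.elim i ((none : Option {n // P n}), (0 : V4)) (fun i => Option.elim i
        (none, 0 + va) (both
          (fun i : In P => ((some ⟨Sum.inr i.1, i.2⟩ : Option {n // P n}), ε (Sum.inr i.1)))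
          (nd vb (fun p : {n // P n} => mB p.1) none)))) := by
    funext x
    rcases x with _ | _ | s | s
    · rfl
    · change ((none : Option {n // P n}), va) = (none, 0 + va)
      rw [zero_add]
    · change ((some ⟨Sum.inr s.1, s.2⟩ : Option {n // P n}), 0 + ε (Sum.inr s.1)) =
        (some ⟨Sum.inr s.1, s.2⟩, ε (Sum.inr s.1))
      rw [zero_add]
    · change ((some ⟨Sum.inr s.1, s.2⟩ : Option {n // P n}), vb + ε (Sum.inr s.1)) =
        (some ⟨Sum.inr s.1, s.2⟩, ε (Sum.inr s.1) + vb)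
      rw [add_comm]
  have hn : T.Nice (.M 1 (Option (Option (In P ⊕ In P))))
      (Q.cur (nd vb (fun p : {n // P n} => mB p.1)) 1
        (fun r => sd2 0 va (fun i : {n // P n} => ε i.1) (xB P)
          ((Equiv.refl (Option (Option (In P ⊕ In P)))).symm r))) := by
    rw [hfun, hr']
    exact nice_cover r hr (F.hurwitz _ inferInstance)
  by_cases hI : Nonempty (Out P)
  · obtain ⟨hst1, hn1⟩ := rat_side F hI (Q.cur (nd vb (fun i : {n // ¬ P n} => mB i.1)) 0
        (fun r => sd2 0 va (fun i : {n // ¬ P n} => ε i.1) (yB P)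
          ((Equiv.refl (Option (Option (Out P ⊕ Out P)))).symm r)))
    exact pair_nice _ _ _ _ _ _ _ hst hst1 hn hn1
  · have : IsEmpty (Out P ⊕ Out P) := by
      rw [not_nonempty_iff] at hI
      infer_instance
    exact pair_right K _ _ _ _ _ _ _ this hst hn

end Theory

end Pool.Agent.HL2
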