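import Pool.Agent.HL2.BiPole

/-!
# The bielliptic pencil: the components with two tails, and the conclusion
-/

open CategoryTheory MonoidalCategory CartesianMonoidalCategory

namespace Pool.Agent.HL2

universe u v w

/-- The pairs to be exchanged. -/
def sg (ε : Fin 5 ⊕ Fin 10 → V4) (i : Fin 10) : Bool := !(decide (lf (ε (Sum.inr i))))

/-- The first marking of a pair. -/
def uu (ε : Fin 5 ⊕ Fin 10 → V4) (i : Fin 10) : V4 := if sg ε i then vb else 0

theorem markB_inl (ε : Fin 5 ⊕ Fin 10 → V4) (i : Fin 10) :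
    markB (flip (sg ε) (Sum.inl i)) = (Sum.inr i, uu ε i) := by
  cases h : sg ε i <;> simp [flip, uu, h, markB]

theorem markB_inr (ε : Fin 5 ⊕ Fin 10 → V4) (i : Fin 10) :
    markB (flip (sg ε) (Sum.inr i)) = (Sum.inr i, uu ε i + vb) := by
  cases h : sg ε i
  · simp [flip, uu, h, markB]
  · simp only [flip, uu, h, markB, Equiv.coe_fn_mk, if_true, Sum.elim_inl, V4.add_self]

theorem uu_lf (ε : Fin 5 ⊕ Fin 10 → V4) (i : Fin 10) :
    uu ε i + ε (Sum.inr i) + 0 = 0 ∨ uu ε i + ε (Sum.inr i) + 0 = va := by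
  unfold uu sg
  generalize ε (Sum.inr i) = v
  revert v
  decide

theorem uu_not (ε : Fin 5 ⊕ Fin 10 → V4) (i : Fin 10) :
    ¬ (uu ε i + vb + ε (Sum.inr i) + 0 = 0 ∨ uu ε i + vb + ε (Sum.inr i) + 0 = va) := by
  unfold uu sg
  generalize ε (Sum.inr i) = v
  revert v
  decide

/-- Rearrangement. -/
def rearr (I O : Type) : I ⊕ (I ⊕ (O ⊕ O)) ≃ (I ⊕ O) ⊕ (I ⊕ O) where
  toFun
    | Sum.inl i => Sum.inl (Sum.inl i)
    | Sum.inr (Sum.inl i) => Sum.inr (Sum.inl i)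
    | Sum.inr (Sum.inr (Sum.inl o)) => Sum.inl (Sum.inr o)
    | Sum.inr (Sum.inr (Sum.inr o)) => Sum.inr (Sum.inr o)
  invFun
    | Sum.inl (Sum.inl i) => Sum.inl i
    | Sum.inr (Sum.inl i) => Sum.inr (Sum.inl i)
    | Sum.inl (Sum.inr o) => Sum.inr (Sum.inr (Sum.inl o))
    | Sum.inr (Sum.inr o) => Sum.inr (Sum.inr (Sum.inr o))
  left_inv := by rintro (_ | _ | _ | _) <;> rfl
  right_inv := by rintro ((_ | _) | (_ | _)) <;> rfl

/-- The markings of the three curves. -/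
def fZ (ε : Fin 5 ⊕ Fin 10 → V4) {I O : Type} (k : I ⊕ O ≃ Fin 10) :
    I ⊕ (I ⊕ (O ⊕ O)) ≃ Fin 10 ⊕ Fin 10 :=
  ((rearr I O).trans (Equiv.sumCongr k k)).trans (flip (sg ε))

section Points

variable (ε : Fin 5 ⊕ Fin 10 → V4) {P : Fin 5 ⊕ Fin 10 → Prop} {I O : Type} (k : I ⊕ O ≃ Fin 10)
  (hP : ∀ i, P (Sum.inr (k (Sum.inl i)))) (hO : ∀ o, ¬ P (Sum.inr (k (Sum.inr o))))

/-- The markings on the first copy, as points. -/
def xZ (i : I) : {n // P n} × V4 := (⟨Sum.inr (k (Sum.inl i)), hP i⟩, uu ε (k (Sum.inl i)))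

/-- The markings on the second copy, as points. -/
def yZ (i : I) : {n // P n} × V4 := (⟨Sum.inr (k (Sum.inl i)), hP i⟩, uu ε (k (Sum.inl i)) + vb)

/-- The markings on the third curve, as points. -/
def zZ : O ⊕ O → {n // ¬ P n} × V4 :=
  Sum.elim (fun o => (⟨Sum.inr (k (Sum.inr o)), hO o⟩, uu ε (k (Sum.inr o))))
    (fun o => (⟨Sum.inr (k (Sum.inr o)), hO o⟩, uu ε (k (Sum.inr o)) + vb))

end Points

namespace Theory

variable {C : Type u} [Category.{v} C] [CartesianMonoidalCategory C]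
  {A : C → CommAlgCat.{w} ℚ} {T : Theory A}

theorem hb_zero {P : Fin 5 ⊕ Fin 10 → Prop} (h0 : P (Sum.inl 0)) (h1 : P (Sum.inl 1))
    (h2 : P (Sum.inl 2)) (h3 : ¬ P (Sum.inl 3)) (h4 : ¬ P (Sum.inl 4)) (i : Fin 5) :
    P (Sum.inl i) ↔ (![true, true, true, false, false] : Fin 5 → Bool) i = true := by
  fin_cases i <;> simp [h0, h1, h2, h3, h4]

/-- The curve on the two tails. -/
def tail (Q : T.Klein) (ε : Fin 5 ⊕ Fin 10 → V4) {P : Fin 5 ⊕ Fin 10 → Prop} {I O : Type}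
    (k : I ⊕ O ≃ Fin 10) (hP : ∀ i, P (Sum.inr (k (Sum.inl i)))) :
    Q.H (Option {n // P n}) (nd va (fun i : {n // P n} => mB i.1)) ⟶ T.M 1 (Option I) :=
  Q.cur (nd va (fun i : {n // P n} => mB i.1)) 1
    (sd (fun i : {n // P n} => ε i.1 + 0) (xZ ε k hP))

open Classical in
/-- The formula of `tails` for the bielliptic pencil. -/
theorem bi_tails {Q : T.Klein} (K : Q.Facts) {P : Fin 5 ⊕ Fin 10 → Prop}
    (ε : Fin 5 ⊕ Fin 10 → V4) (hTwo : Two P) (h0 : P (Sum.inl 0)) (h1 : P (Sum.inl 1))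
    (h2 : P (Sum.inl 2)) (h3 : ¬ P (Sum.inl 3)) (h4 : ¬ P (Sum.inl 4)) {I O : Type}
    (k : I ⊕ O ≃ Fin 10) (hP : ∀ i, P (Sum.inr (k (Sum.inl i))))
    (hO : ∀ o, ¬ P (Sum.inr (k (Sum.inr o)))) :
    Q.gl (Equiv.sumCompl P) mB ε va ≫ Q.cur mB 2 markB =
      (lift (tail Q ε k hP) (tail Q ε k hP) ⊗ₘ
        Q.cur (nd va (fun i : {n // ¬ P n} => mB i.1)) 0
          (fun r => sd2 (0 + vb) 0 (fun i : {n // ¬ P n} => ε i.1) (zZ ε k hO)
            ((Equiv.refl _).symm r))) ≫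
      (α_ _ _ _).hom ≫ (_ ◁ T.glue rfl (Equiv.refl (Option I)) (Equiv.refl _)
        (Equiv.refl (I ⊕ Option (O ⊕ O)))) ≫
      T.glue (by rfl) (Equiv.refl (Option I)) (mid I (O ⊕ O)) (fZ ε k) := by
  obtain ⟨s0, s1, s2, s3, s4, s5, -⟩ := sides P _ (hb_zero h0 h1 h2 h3 h4) va
  have ht := K.tails (Equiv.sumCompl P) mB ε va vb 0 (p := 1) (q := 0) (g := 2) (by rfl) markB
    (fZ ε k) (Equiv.refl (Option I)) (Equiv.refl (Option I))
    (Equiv.refl (Option (Option (O ⊕ O)))) (xZ ε k hP) (yZ ε k hP) (zZ ε k hO) good_B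
    ⟨hTwo.1, hTwo.2, s0.trans (by decide)⟩ (by decide) ⟨s3.2 (by decide),
    s1.trans (by decide)⟩ ⟨s5.2 (by decide), s4.trans (by decide)⟩
    (fun i => ⟨markB_inl ε _, uu_lf ε _⟩) (fun i => ⟨markB_inr ε _, uu_not ε _⟩)
    (by rintro (o | o)
        · exact markB_inl ε _
        · exact markB_inr ε _)
  have hfun : (fun r : Option I => sd (fun i : {n // P n} => ε i.1 + 0 + vb) (yZ ε k hP)
      ((Equiv.refl (Option I)).symm r)) =
      sd (fun i : {n // P n} => ε i.1 + 0) (xZ ε k hP) := by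
    have h5 : ∀ u v : V4, u + vb + (v + 0 + vb) = u + (v + 0) := by decide
    funext r
    rcases r with _ | i
    · rfl
    · simp only [sd, xZ, yZ, Equiv.refl_symm, Equiv.refl_apply, h5]
  change _ = (lift (tail Q ε k hP) (Q.cur (nd va (fun i : {n // P n} => mB i.1)) 1
    (fun r : Option I => sd (fun i : {n // P n} => ε i.1 + 0 + vb) (yZ ε k hP)
      ((Equiv.refl (Option I)).symm r))) ⊗ₘ _) ≫ _ at ht
  rw [hfun] at ht
  exact ht

open Classical in
/-- A component with two tails and a third curve with markings. -/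
theorem bi_more (F : T.Facts) {Q : T.Klein} (K : Q.Facts) {P : Fin 5 ⊕ Fin 10 → Prop}
    (ε : Fin 5 ⊕ Fin 10 → V4) (hTwo : Two P) (h0 : P (Sum.inl 0)) (h1 : P (Sum.inl 1))
    (h2 : P (Sum.inl 2)) (h3 : ¬ P (Sum.inl 3)) (h4 : ¬ P (Sum.inl 4)) (hO : Nonempty (Out P)) :
    T.Nice (.M 2 (Fin 10 ⊕ Fin 10)) (Q.gl (Equiv.sumCompl P) mB ε va ≫ Q.cur mB 2 markB) := by
  rw [bi_tails K ε hTwo h0 h1 h2 h3 h4 (Equiv.sumCompl (fun i => P (Sum.inr i)))
    (fun i => i.2) (fun o => o.2)]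
  have hc : Nat.card (In P) + Nat.card (Out P) = 10 := by
    rw [← Nat.card_sum, Nat.card_congr (Equiv.sumCompl (fun i => P (Sum.inr i)))]
    simp
  have hpos := Nat.card_pos (α := Out P)
  have hsm : (Sp.M 1 (Option (In P))).Small := by
    refine ⟨⟨inferInstance, ?_⟩, Or.inr ⟨rfl, ?_⟩⟩
    · rw [card_option'']; omega
    · rw [card_option'']; omega
  obtain ⟨hst, hn⟩ := rat_side F hO (Q.cur (nd va (fun i : {n // ¬ P n} => mB i.1)) 0
    (fun r => sd2 (0 + vb) 0 (fun i : {n // ¬ P n} => ε i.1)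
      (zZ ε (Equiv.sumCompl (fun i => P (Sum.inr i))) (fun o => o.2))
      ((Equiv.refl (Option (Option (Out P ⊕ Out P)))).symm r)))
  exact tails_nice F _ _ _ _ _ _ _ _ hsm hsm hst hn

theorem xi_eq : T.xi = T.glue (g := 2) rfl (Equiv.refl (Option (Fin 10)))
    (Equiv.refl (Option (Fin 10))) (Equiv.refl (Fin 10 ⊕ Fin 10)) ≫ T.selfs 9 2 12 rfl := rfl

open Classical in
/-- The main component. -/
theorem bi_main {Q : T.Klein} (K : Q.Facts) {P : Fin 5 ⊕ Fin 10 → Prop}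
    (ε : Fin 5 ⊕ Fin 10 → V4) (hTwo : Two P) (h0 : P (Sum.inl 0)) (h1 : P (Sum.inl 1))
    (h2 : P (Sum.inl 2)) (h3 : ¬ P (Sum.inl 3)) (h4 : ¬ P (Sum.inl 4))
    (hP : ∀ i : Fin 10, P (Sum.inr i)) :
    ∃ r, T.Covers r ∧ Q.gl (Equiv.sumCompl P) mB ε va ≫ Q.cur mB 2 markB ≫ T.selfs 9 2 12 rfl =
      r ≫ lift (𝟙 (T.M 1 (Option (Fin 10)))) (𝟙 _) ≫ T.xi := by
  obtain ⟨s0, s1, s2, s3, s4, s5, -⟩ := sides P _ (hb_zero h0 h1 h2 h3 h4) va
  have ht := bi_tails K ε hTwo h0 h1 h2 h3 h4 (Equiv.sumEmpty (Fin 10) (Fin 0))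
    hP (fun o => o.elim0)
  have htw := tails_twins K (I := Fin 10) (L := Fin 0 ⊕ Fin 0) (by rfl : 1 + (1 + 0) = 2)
    (by rfl : 1 + 1 = 2) (fZ ε (Equiv.sumEmpty (Fin 10) (Fin 0)))
    (Equiv.refl (Option (Option (Fin 0 ⊕ Fin 0)))) (flip (sg ε)) (fun i => rfl) (fun i => rfl)
    (tail Q ε (Equiv.sumEmpty (Fin 10) (Fin 0)) hP)
    (Q.cur (nd va (fun i : {n // ¬ P n} => mB i.1)) 0
      (fun r => sd2 (0 + vb) 0 (fun i : {n // ¬ P n} => ε i.1)
        (zZ ε (Equiv.sumEmpty (Fin 10) (Fin 0)) (fun o => o.elim0))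
          ((Equiv.refl (Option (Option (Fin 0 ⊕ Fin 0)))).symm r)))
  have hadm : Adm (nd va (fun p : {n // P n} => mB p.1)) :=
    adm_left (e := Equiv.sumCompl P) good_B.adm ⟨hTwo.1, hTwo.2, s0.trans (by decide)⟩
  have hadm' : Adm (nd va (fun p : {n // ¬ P n} => mB p.1)) :=
    adm_right (e := Equiv.sumCompl P) good_B.adm ⟨hTwo.1, hTwo.2, s0.trans (by decide)⟩
  have hcard : Nat.card {n // ¬ P n} = 2 := by
    refine card_two ⟨Sum.inl 3, h3⟩ ⟨Sum.inl 4, h4⟩ (fun h => ?_) ?_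
    · have := Sum.inl_injective (congrArg Subtype.val h)
      exact absurd this (by decide)
    · rintro ⟨i | s, hi⟩
      · fin_cases i
        · exact absurd h0 hi
        · exact absurd h1 hi
        · exact absurd h2 hi
        · exact Or.inl rfl
        · exact Or.inr rfl
      · exact absurd (hP s) hi
  have hcov : T.Covers (tail Q ε (Equiv.sumEmpty (Fin 10) (Fin 0)) hP) := by
    refine K.ell_cover _ va _ none hadm ⟨s3.2 (by decide), s1.trans (by decide)⟩ ⟨?_, ?_, ?_⟩ ?_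
    · rintro (_ | s) (_ | s') h
      · rfl
      · cases h
      · cases h
      · have : s = s' := by simpa [sd, xZ] using h
        rw [this]
    · change va ≠ 0
      decide
    · intro n
      constructor
      · intro hn
        obtain ⟨s, rfl⟩ := zero_unbr (by decide : va ≠ 0) n hn
        exact ⟨some s.1, (Option.some_ne_none _), rfl⟩
      · rintro ⟨_ | s, h, rfl⟩
        · exact absurd rfl h
        · rfl
    · rintro (_ | s)
      · exact Or.inl rfl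
      · have := uu_lf ε s
        rwa [add_assoc] at this
  refine ⟨fst _ _ ≫ tail Q ε (Equiv.sumEmpty (Fin 10) (Fin 0)) hP, covers_comp ?_ hcov, ?_⟩
  · refine ⟨_, ?_, push_fst_one _ _⟩
    exact K.deg_pos _ hadm' (by rw [card_option'', hcard])
  · rw [← Category.assoc, ht, xi_eq]
    refine (congrArg (· ≫ T.selfs 9 2 12 rfl) htw).trans ?_
    simp only [Category.assoc]
    rw [ren_selfs K]
    rfl

open Classical in
/-- The bielliptic pencil: the push-forward of the diagonal under `xi` is tautological. -/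
theorem bi_nice (F : T.Facts) {Q : T.Klein} (K : Q.Facts) :
    T.Nice (.M 12 (Fin 0)) (lift (𝟙 (T.M 1 (Option (Fin 10)))) (𝟙 _) ≫ T.xi) := by
  refine pencil F Q mB (Q.crossB mB tB) (X := .M 12 (Fin 0))
    (Q.cur mB 2 markB ≫ T.selfs 9 2 12 rfl) q₀ q₁ _ _
    (K.crossB mB tB q₀ good_B.adm good_B.full tB_inj)
    (K.crossB mB tB q₁ good_B.adm good_B.full tB_inj) _ ?_ ?_ ?_
  · rintro P ε hTwo ⟨hB, hB'⟩
    have h0 : P (Sum.inl 0) := hB 0
    have h1 : P (Sum.inl 1) := hB 1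
    have h3 : ¬ P (Sum.inl 3) := hB' 0
    have h4 : ¬ P (Sum.inl 4) := hB' 1
    by_cases h2 : P (Sum.inl 2)
    · have hs : ∑ᶠ p : {n // P n}, mB p.1 = va :=
        (sides P _ (hb_zero h0 h1 h2 h3 h4) va).1.trans (by decide)
      by_cases hP : ∀ i : Fin 10, P (Sum.inr i)
      · exact Or.inl (bd_elim Q mB P ε hs (fun {D} f => ∃ r : D ⟶ T.M 1 (Option (Fin 10)),
          T.Covers r ∧ f ≫ Q.cur mB 2 markB ≫ T.selfs 9 2 12 rfl =
          r ≫ lift (𝟙 (T.M 1 (Option (Fin 10)))) (𝟙 _) ≫ T.xi)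
          (bi_main K ε hTwo h0 h1 h2 h3 h4 hP))
      · right
        push Not at hP
        obtain ⟨i, hi⟩ := hP
        refine bd_elim Q mB P ε hs (fun f => T.Nice (.M 12 (Fin 0))
          (f ≫ Q.cur mB 2 markB ≫ T.selfs 9 2 12 rfl)) ?_
        have := nice_selfs _ (bi_more F K ε hTwo h0 h1 h2 h3 h4 ⟨⟨i, hi⟩⟩)
        rwa [Category.assoc] at this
    · right
      have hb : ∀ i, P (Sum.inl i) ↔
          (![true, true, false, false, false] : Fin 5 → Bool) i = true := by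
        intro i; fin_cases i <;> simp [h0, h1, h2, h3, h4]
      obtain ⟨s0, s1, -, -, s4, -, -⟩ := sides P _ hb 0
      have hs : ∑ᶠ p : {n // P n}, mB p.1 = 0 := s0.trans (by decide)
      have := nice_selfs _ (rat_nice F K good_B ε hTwo hs (s1.trans_le (by decide))
        (s4.trans_le (by decide)))
      refine bd_elim Q mB P ε hs (fun f => T.Nice (.M 12 (Fin 0))
        (f ≫ Q.cur mB 2 markB ≫ T.selfs 9 2 12 rfl)) ?_
      rwa [Category.assoc] at this
  · let P : Fin 5 ⊕ Fin 10 → Prop := fun n => n ≠ Sum.inl 3 ∧ n ≠ Sum.inl 4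
    have h0 : P (Sum.inl 0) := by constructor <;> decide
    have h1 : P (Sum.inl 1) := by constructor <;> decide
    have h2 : P (Sum.inl 2) := by constructor <;> decide
    have h3 : ¬ P (Sum.inl 3) := fun h => h.1 rfl
    have h4 : ¬ P (Sum.inl 4) := fun h => h.2 rfl
    have hP : ∀ i : Fin 10, P (Sum.inr i) := fun i => ⟨Sum.inr_ne_inl, Sum.inr_ne_inl⟩
    have hTwo : Two P := by
      constructor
      · refine card_ge_two ⟨Sum.inl 0, h0⟩ ⟨Sum.inl 1, h1⟩ (fun h => ?_)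
        have := Sum.inl_injective (congrArg Subtype.val h)
        exact absurd this (by decide)
      · refine card_ge_two ⟨Sum.inl 3, h3⟩ ⟨Sum.inl 4, h4⟩ (fun h => ?_)
        have := Sum.inl_injective (congrArg Subtype.val h)
        exact absurd this (by decide)
    have hs : ∑ᶠ p : {n // P n}, mB p.1 = va :=
      (sides P _ (hb_zero h0 h1 h2 h3 h4) va).1.trans (by decide)
    refine ⟨P, fun _ => 0, hTwo, ⟨?_, ?_⟩, ?_⟩
    · intro j
      fin_cases j
      · exact h0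
      · exact h1
    · intro j
      fin_cases j
      · exact h3
      · exact h4
    · exact bd_elim Q mB P _ hs (fun {D} f => ∃ r : D ⟶ T.M 1 (Option (Fin 10)),
        T.Covers r ∧ f ≫ Q.cur mB 2 markB ≫ T.selfs 9 2 12 rfl =
        r ≫ lift (𝟙 (T.M 1 (Option (Fin 10)))) (𝟙 _) ≫ T.xi)
        (bi_main K _ hTwo h0 h1 h2 h3 h4 hP)
  · rintro P ε hTwo ⟨hB, hB'⟩
    have h0 : P (Sum.inl 0) := hB 0
    have h3 : P (Sum.inl 3) := hB 1
    have h1 : ¬ P (Sum.inl 1) := hB' 0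
    have h4 : ¬ P (Sum.inl 4) := hB' 1
    by_cases h2 : P (Sum.inl 2)
    · have hb : ∀ i, P (Sum.inl i) ↔
          (![true, false, true, true, false] : Fin 5 → Bool) i = true := by
        intro i; fin_cases i <;> simp [h0, h1, h2, h3, h4]
      have hs : ∑ᶠ p : {n // P n}, mB p.1 = vb := (sides P _ hb 0).1.trans (by decide)
      have := nice_selfs _ (bi_hur F K ε hTwo h0 h1 h2 h3 h4)
      refine bd_elim Q mB P ε hs (fun f => T.Nice (.M 12 (Fin 0))
        (f ≫ Q.cur mB 2 markB ≫ T.selfs 9 2 12 rfl)) ?_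
      rwa [Category.assoc] at this
    · have hb : ∀ i, P (Sum.inl i) ↔
          (![true, false, false, true, false] : Fin 5 → Bool) i = true := by
        intro i; fin_cases i <;> simp [h0, h1, h2, h3, h4]
      have hs : ∑ᶠ p : {n // P n}, mB p.1 = vc := (sides P _ hb 0).1.trans (by decide)
      have := nice_selfs _ (bi_tor F K ε hTwo h0 h1 h2 h3 h4)
      refine bd_elim Q mB P ε hs (fun f => T.Nice (.M 12 (Fin 0))
        (f ≫ Q.cur mB 2 markB ≫ T.selfs 9 2 12 rfl)) ?_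
      rwa [Category.assoc] at this

end Theory

end Pool.Agent.HL2
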