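import Pool.Agent.HL2.TorsionMain
import Pool.Agent.HL2.Prim

/-!
# The bielliptic pencil: preparations
-/

open CategoryTheory MonoidalCategory CartesianMonoidalCategory

namespace Pool.Agent.HL2

universe u v w

/-- Exchange the two markings of the pairs selected by `σ`. -/
def flip {n : ℕ} (σ : Fin n → Bool) : Fin n ⊕ Fin n ≃ Fin n ⊕ Fin n where
  toFun
    | Sum.inl i => if σ i then Sum.inr i else Sum.inl i
    | Sum.inr i => if σ i then Sum.inl i else Sum.inr i
  invFun
    | Sum.inl i => if σ i then Sum.inr i else Sum.inl i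
    | Sum.inr i => if σ i then Sum.inl i else Sum.inr i
  left_inv := by
    rintro (i | i) <;> cases h : σ i <;> simp [h]
  right_inv := by
    rintro (i | i) <;> cases h : σ i <;> simp [h]

/-- The nonzero monodromies for the bielliptic pencil. -/
def wB : Fin 5 → V4 := ![va, va, va, vb, vc]

/-- The monodromies for the bielliptic pencil. -/
def mB : Fin 5 ⊕ Fin 10 → V4 := Sum.elim wB (fun _ => 0)

/-- The markings for the bielliptic pencil. -/
def markB : Fin 10 ⊕ Fin 10 → (Fin 5 ⊕ Fin 10) × V4 :=
  Sum.elim (fun i => (Sum.inr i, 0)) (fun i => (Sum.inr i, vb))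

theorem good_B : Good mB 2 markB where
  adm := by
    refine ⟨inferInstance, ?_, ?_⟩
    · rw [Nat.card_sum]; simp
    · unfold mB
      rw [(ext_whole wB).sum, finsum_eq_sum_of_fintype]
      decide
  full := by
    unfold mB
    rw [(ext_whole wB).full]
    decide
  genus := by
    unfold mB
    rw [(ext_whole wB).br, br_eq]
    decide
  distinct := by
    have h1 : ((0 : V4) = vb ∨ (0 : V4) = vb + 0) → False := by decide
    have h2 : (vb = 0 ∨ vb = (0 : V4) + 0) → False := by decide
    rintro (s | s) (s' | s') h h'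
    · have : s = s' := Sum.inr_injective h
      rw [this]
    · exact (h1 h').elim
    · exact (h2 h').elim
    · have : s = s' := Sum.inr_injective h
      rw [this]
  stable := ⟨inferInstance, by omega⟩

/-- The four branch points of the bielliptic pencil. -/
def tB : Fin 4 → Fin 5 ⊕ Fin 10 := ![Sum.inl 0, Sum.inl 1, Sum.inl 3, Sum.inl 4]

theorem tB_inj : Function.Injective tB := by decide

namespace Theory

variable {C : Type u} [Category.{v} C] [CartesianMonoidalCategory C]
  {A : C → CommAlgCat.{w} ℚ} {T : Theory A}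

/-- Gluing all pairs does not depend on the order in the pairs. -/
theorem ren_selfs {Q : T.Klein} (K : Q.Facts) : ∀ (n g G : ℕ) (h : g + (n + 1) = G)
    (σ : Fin (n + 1) → Bool), Q.ren rfl (flip σ) ≫ T.selfs n g G h = T.selfs n g G h
  | 0, g, G, h, σ => by
    have h1 := K.ren_self h lastEquiv h lastEquiv rfl rfl (flip σ) (Equiv.refl (Fin 0))
      (fun s => s.elim0)
    rw [K.ren_refl, Category.comp_id] at h1
    exact h1
  | n + 1, g, G, h, σ => by
    have ih := ren_selfs K n (g + 1) G (by omega) (fun i => σ i.succ)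
    have hA := K.ren_self rfl (pairEquiv (n + 1)) rfl
      ((pairEquiv (n + 1)).trans (flip σ).symm) rfl rfl (flip σ) (Equiv.refl _)
      (fun s => by simp) (g₁ := g) (g := g + 1)
    have hB := K.ren_self rfl (pairEquiv (n + 1)) rfl
      ((pairEquiv (n + 1)).trans (flip σ).symm) rfl rfl (Equiv.refl _) (flip (fun i => σ i.succ))
      (g₁ := g) (g := g + 1) (by
        rintro (i | i) <;> cases hi : σ i.succ <;> simp [flip, hi, pairEquiv])
    rw [K.ren_refl, Category.comp_id] at hA
    rw [K.ren_refl, Category.id_comp] at hB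
    change Q.ren rfl (flip σ) ≫ T.self rfl (pairEquiv (n + 1)) ≫ T.selfs n (g + 1) G _ =
      T.self rfl (pairEquiv (n + 1)) ≫ T.selfs n (g + 1) G _
    rw [← Category.assoc, hA, ← hB, Category.assoc, ih]

theorem nice_selfs {D : C} (f : D ⟶ T.M 2 (Fin 10 ⊕ Fin 10))
    (hf : T.Nice (.M 2 (Fin 10 ⊕ Fin 10)) f) :
    T.Nice (.M 12 (Fin 0)) (f ≫ T.selfs 9 2 12 rfl) := by
  unfold Nice
  rw [T.push_comp]
  exact tau_push_selfs 9 2 12 rfl _ le_rfl hf

end Theory

end Pool.Agent.HL2
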