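import Mathlib

/-!
# Chow rings and moduli spaces of stable curves: the data

`Theory A` records the formal properties of the Chow rings with rational coefficients of the
objects of a category `C` with finite products (think of the smooth proper Deligne-Mumford stacks
over a field of characteristic zero): graded rings `A X`, pull-backs, push-forwards, degrees; and
the moduli spaces of stable curves with their gluing maps, forgetful maps and cotangent classes.
-/

open CategoryTheory MonoidalCategory CartesianMonoidalCategory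

namespace Pool.Agent.HL2

universe u v w

/-- The pair `(g, S)` is stable: `S` is a finite set and `2g - 2 + |S| > 0`. -/
def Stable (g : ℕ) (S : Type) : Prop := Finite S ∧ 2 < 2 * g + Nat.card S

/-- Multiplication in a commutative algebra. -/
def mu {R : CommAlgCat.{w} ℚ} (a b : R) : R := a * b

/-- Addition in a commutative algebra. -/
def ad {R : CommAlgCat.{w} ℚ} (a b : R) : R := a + b

/-- Multiplication by a rational number. -/
def sc {R : CommAlgCat.{w} ℚ} (r : ℚ) (a : R) : R := r • a

/-- The zero element. -/
def ze {R : CommAlgCat.{w} ℚ} : R := 0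

/-- The unit element. -/
def on {R : CommAlgCat.{w} ℚ} : R := 1

/-- Linear combinations. -/
def comb {R : CommAlgCat.{w} ℚ} {n : ℕ} (x : Fin n → ℚ) (b : Fin n → R) : R := ∑ i, x i • b i

/-- The linear span of a set `s`. -/
inductive Lin {R : CommAlgCat.{w} ℚ} (s : R → Prop) : R → Prop
  | mem {a : R} : s a → Lin s a
  | zero : Lin s 0
  | add {a b : R} : Lin s a → Lin s b → Lin s (a + b)
  | smul (r : ℚ) {a : R} : Lin s a → Lin s (r • a)

/-- `b` is a basis of the subspace `s`. -/
def IsBasis {R : CommAlgCat.{w} ℚ} (s : R → Prop) {n : ℕ} (b : Fin n → R) : Prop :=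
  (∀ i, s (b i)) ∧ ∀ a, s a → ∃! x : Fin n → ℚ, a = comb x b

/-- The formal properties of Chow rings (rational coefficients) of smooth proper
Deligne-Mumford stacks of pure dimension, and the moduli spaces of stable curves with their
tautological morphisms. Markings are indexed by types. -/
structure Theory {C : Type u} [Category.{v} C] [CartesianMonoidalCategory C]
    (A : C → CommAlgCat.{w} ℚ) where
  /-- `gr X k` is the group of classes of codimension `k`. -/
  gr : ∀ X, ℕ → Submodule ℚ (A X)
  [graded : ∀ X, GradedAlgebra (gr X)]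
  /-- The dimension. -/
  dim : C → ℕ
  /-- Pull-back along a morphism. -/
  pull : ∀ {X Y : C}, (X ⟶ Y) → (A Y →ₐ[ℚ] A X)
  /-- Proper push-forward along a morphism. -/
  push : ∀ {X Y : C}, (X ⟶ Y) → (A X →ₗ[ℚ] A Y)
  /-- The degree of a class. -/
  deg : ∀ X : C, A X →ₗ[ℚ] ℚ
  dim_tensor : ∀ X Y : C, dim (X ⊗ Y) = dim X + dim Y
  pull_id : ∀ (X : C) (a : A X), pull (𝟙 X) a = a
  pull_comp : ∀ {X Y Z : C} (f : X ⟶ Y) (g : Y ⟶ Z) (a : A Z),
    pull (f ≫ g) a = pull f (pull g a)
  push_id : ∀ (X : C) (a : A X), push (𝟙 X) a = a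
  push_comp : ∀ {X Y Z : C} (f : X ⟶ Y) (g : Y ⟶ Z) (a : A X),
    push (f ≫ g) a = push g (push f a)
  pull_gr : ∀ {X Y : C} (f : X ⟶ Y) (k : ℕ) (a : A Y), a ∈ gr Y k → pull f a ∈ gr X k
  push_gr : ∀ {X Y : C} (f : X ⟶ Y) (i j : ℕ) (a : A X), a ∈ gr X i →
    i + dim Y = j + dim X → push f a ∈ gr Y j
  push_gr_low : ∀ {X Y : C} (f : X ⟶ Y) (i : ℕ) (a : A X), a ∈ gr X i →
    i + dim Y < dim X → push f a = 0
  /-- The projection formula. -/
  proj_formula : ∀ {X Y : C} (f : X ⟶ Y) (a : A X) (b : A Y),
    push f (pull f b * a) = b * push f a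
  /-- An isomorphism has degree one. -/
  push_iso : ∀ {X Y : C} (e : X ≅ Y), push e.hom (1 : A X) = 1
  /-- Push-forward is compatible with exterior products. -/
  push_tensor : ∀ {X Y X' Y' : C} (f : X ⟶ X') (g : Y ⟶ Y') (a : A X) (b : A Y),
    push (f ⊗ₘ g) (pull (fst X Y) a * pull (snd X Y) b)
      = pull (fst X' Y') (push f a) * pull (snd X' Y') (push g b)
  /-- Push-forward of an exterior product to the first factor. -/
  push_fst : ∀ {X Y : C} (a : A X) (b : A Y),
    push (fst X Y) (pull (fst X Y) a * pull (snd X Y) b) = deg Y b • a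
  /-- Base change for a projection from a product. -/
  fst_base_change : ∀ {D X : C} (Y : C) (b : D ⟶ X) (u : A (X ⊗ Y)),
    pull b (push (fst X Y) u) = push (fst D Y) (pull (b ▷ Y) u)
  /-- Base change for the diagonal: the diagonal of `X` pulls back to the graph of `b`. -/
  diag_base_change : ∀ {D X : C} (b : D ⟶ X),
    pull (b ▷ X) (push (lift (𝟙 X) (𝟙 X)) 1) = push (lift (𝟙 D) b) 1
  deg_push : ∀ {X Y : C} (f : X ⟶ Y) (a : A X), deg Y (push f a) = deg X a
  /-- `M g S` is the moduli space of stable curves of genus `g` with markings in bijection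
  with `S`. -/
  M : ℕ → Type → C
  /-- The gluing map of two curves at one marking each (the markings `e₁ none` and `e₂ none`);
  the remaining markings are renamed by `e`. -/
  glue : ∀ {g₁ g₂ g : ℕ} {I J R₁ R₂ S : Type}, g₁ + g₂ = g → (Option I ≃ R₁) → (Option J ≃ R₂) →
    (I ⊕ J ≃ S) → (M g₁ R₁ ⊗ M g₂ R₂ ⟶ M g S)
  /-- The gluing map of a curve to itself at the markings `e none` and `e (some none)`. -/
  self : ∀ {g g' : ℕ} {S T : Type}, g + 1 = g' → (Option (Option S) ≃ T) → (M g T ⟶ M g' S)
  /-- The map forgetting the marking `e none`. -/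
  forget : ∀ (g : ℕ) {S T : Type}, (Option S ≃ T) → (M g T ⟶ M g S)
  /-- The cotangent line classes. -/
  psi : ∀ (g : ℕ) (S : Type), S → A (M g S)
  /-- `Tor S`: elliptic curves `E` with a point `t` of order two, points `p s` of `E` for
  `s : S`, and their translates `p s + t` (a smooth proper model of this moduli problem). -/
  Tor : Type → C
  /-- The map `(E, t, p) ↦ (E; p s, p s + t)` to the moduli space with markings `S ⊕ S`. -/
  tor : ∀ S : Type, Tor S ⟶ M 1 (S ⊕ S)
  /-- `Hur S`: admissible double covers of trees of projective lines by curves of genus one, with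
  two markings at ramification points and a pair of conjugate markings for each `s : S`. -/
  Hur : Type → C
  /-- The map to the moduli space remembering the cover curve with its `2 + 2|S|` markings. -/
  hur : ∀ S : Type, Hur S ⟶ M 1 (Option (Option (S ⊕ S)))

attribute [instance] Theory.graded

namespace Theory

variable {C : Type u} [Category.{v} C] [CartesianMonoidalCategory C]
  {A : C → CommAlgCat.{w} ℚ} (T : Theory A)

/-- Pull-back. -/
def pl {X Y : C} (f : X ⟶ Y) (a : A Y) : A X := T.pull f a

/-- Push-forward. -/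
def ps {X Y : C} (f : X ⟶ Y) (a : A X) : A Y := T.push f a

/-- The degree. -/
def dg {X : C} (a : A X) : ℚ := T.deg X a

/-- Homogeneous classes of codimension `k`. -/
def IsGr {X : C} (k : ℕ) (a : A X) : Prop := a ∈ T.gr X k

/-- The exterior product of two classes. -/
def ext {X Y : C} (a : A X) (b : A Y) : A (X ⊗ Y) :=
  T.pull (fst X Y) a * T.pull (snd X Y) b

/-- The class of the diagonal of `X`. -/
def diag (X : C) : A (X ⊗ X) := T.push (lift (𝟙 X) (𝟙 X)) 1

end Theory

end Pool.Agent.HL2
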