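import Pool.Agent.HL2.Chow

/-!
# Formal consequences of the laws of a Chow theory
-/

open CategoryTheory MonoidalCategory CartesianMonoidalCategory

namespace Pool.Agent.HL2

universe u v w

namespace Theory

variable {C : Type u} [Category.{v} C] [CartesianMonoidalCategory C]
  {A : C → CommAlgCat.{w} ℚ} (T : Theory A)

/-- The exterior product as a bilinear map. -/
def extL (X Y : C) : A X →ₗ[ℚ] A Y →ₗ[ℚ] A (X ⊗ Y) :=
  (LinearMap.mul ℚ (A (X ⊗ Y))).compl₁₂ (T.pull (fst X Y)).toLinearMap
    (T.pull (snd X Y)).toLinearMap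

variable {T}

theorem extL_apply {X Y : C} (a : A X) (b : A Y) : T.extL X Y a b = T.ext a b := rfl

theorem ext_add_left {X Y : C} (a a' : A X) (b : A Y) :
    T.ext (a + a') b = T.ext a b + T.ext a' b := by
  simp [ext, add_mul]

theorem ext_add_right {X Y : C} (a : A X) (b b' : A Y) :
    T.ext a (b + b') = T.ext a b + T.ext a b' := by
  simp [ext, mul_add]

theorem ext_smul_left {X Y : C} (r : ℚ) (a : A X) (b : A Y) :
    T.ext (r • a) b = r • T.ext a b := by
  simp [ext]

theorem ext_smul_right {X Y : C} (r : ℚ) (a : A X) (b : A Y) :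
    T.ext a (r • b) = r • T.ext a b := by
  simp [ext]

theorem ext_zero_left {X Y : C} (b : A Y) : T.ext (0 : A X) b = 0 := by
  simp [ext]

theorem ext_zero_right {X Y : C} (a : A X) : T.ext a (0 : A Y) = 0 := by
  simp [ext]

theorem ext_one_one (X Y : C) : T.ext (1 : A X) (1 : A Y) = 1 := by
  simp [ext]

theorem ext_mul_ext {X Y : C} (a a' : A X) (b b' : A Y) :
    T.ext a b * T.ext a' b' = T.ext (a * a') (b * b') := by
  simp only [ext, map_mul]; ring

theorem ext_sum_right {X Y : C} {ι : Type*} (s : Finset ι) (a : A X) (b : ι → A Y) :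
    T.ext a (∑ i ∈ s, b i) = ∑ i ∈ s, T.ext a (b i) := by
  simp [ext, Finset.mul_sum]

theorem pull_tensor {X Y X' Y' : C} (f : X ⟶ X') (g : Y ⟶ Y') (a : A X') (b : A Y') :
    T.pull (f ⊗ₘ g) (T.ext a b) = T.ext (T.pull f a) (T.pull g b) := by
  simp only [ext, map_mul, ← T.pull_comp, tensorHom_fst, tensorHom_snd]

theorem push_tensor' {X Y X' Y' : C} (f : X ⟶ X') (g : Y ⟶ Y') (a : A X) (b : A Y) :
    T.push (f ⊗ₘ g) (T.ext a b) = T.ext (T.push f a) (T.push g b) :=
  T.push_tensor f g a b

theorem pull_whiskerRight {X X' : C} (f : X ⟶ X') (Y : C) (a : A X') (b : A Y) :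
    T.pull (f ▷ Y) (T.ext a b) = T.ext (T.pull f a) b := by
  simp only [ext, map_mul, ← T.pull_comp, whiskerRight_fst, whiskerRight_snd]

theorem pull_whiskerLeft {Y Y' : C} (X : C) (g : Y ⟶ Y') (a : A X) (b : A Y') :
    T.pull (X ◁ g) (T.ext a b) = T.ext a (T.pull g b) := by
  simp only [ext, map_mul, ← T.pull_comp, whiskerLeft_fst, whiskerLeft_snd]

theorem push_whiskerRight {X X' : C} (f : X ⟶ X') (Y : C) (a : A X) (b : A Y) :
    T.push (f ▷ Y) (T.ext a b) = T.ext (T.push f a) b := by
  have h := push_tensor' (T := T) f (𝟙 Y) a b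
  rwa [tensorHom_id, T.push_id] at h

theorem push_whiskerLeft {Y Y' : C} (X : C) (g : Y ⟶ Y') (a : A X) (b : A Y) :
    T.push (X ◁ g) (T.ext a b) = T.ext a (T.push g b) := by
  have h := push_tensor' (T := T) (𝟙 X) g a b
  rwa [id_tensorHom, T.push_id] at h

/-- Push-forward along an isomorphism is pull-back along its inverse. -/
theorem push_iso_hom {X Y : C} (e : X ≅ Y) (a : A X) : T.push e.hom a = T.pull e.inv a := by
  have h : T.pull e.hom (T.pull e.inv a) = a := by
    rw [← T.pull_comp, e.hom_inv_id, T.pull_id]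
  have h2 := T.proj_formula e.hom 1 (T.pull e.inv a)
  rw [h, mul_one, T.push_iso, mul_one] at h2
  exact h2

/-- The exchange of the two factors. -/
def swap (X Y : C) : X ⊗ Y ≅ Y ⊗ X where
  hom := lift (snd X Y) (fst X Y)
  inv := lift (snd Y X) (fst Y X)
  hom_inv_id := by ext <;> simp
  inv_hom_id := by ext <;> simp

theorem pull_swap {X Y : C} (a : A Y) (b : A X) :
    T.pull (swap X Y).hom (T.ext a b) = T.ext b a := by
  simp only [ext, map_mul, ← T.pull_comp, swap, lift_fst, lift_snd]
  ring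

theorem push_swap {X Y : C} (a : A X) (b : A Y) :
    T.push (swap X Y).hom (T.ext a b) = T.ext b a := by
  rw [push_iso_hom]
  exact pull_swap (T := T) (X := Y) (Y := X) a b

theorem push_fst' {X Y : C} (a : A X) (b : A Y) :
    T.push (fst X Y) (T.ext a b) = T.deg Y b • a := T.push_fst a b

theorem push_snd' {X Y : C} (a : A X) (b : A Y) :
    T.push (snd X Y) (T.ext a b) = T.deg X a • b := by
  have h : snd X Y = (swap X Y).hom ≫ fst Y X := by simp [swap]
  rw [h, T.push_comp, push_swap, push_fst']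

theorem deg_ext {X Y : C} (a : A X) (b : A Y) :
    T.deg (X ⊗ Y) (T.ext a b) = T.deg X a * T.deg Y b := by
  rw [← T.deg_push (fst X Y), push_fst', map_smul, smul_eq_mul, mul_comm]

/-- Multiplication of the diagonal by an exterior product. -/
theorem diag_mul {X : C} (u : A (X ⊗ X)) :
    u * T.diag X = T.push (lift (𝟙 X) (𝟙 X)) (T.pull (lift (𝟙 X) (𝟙 X)) u) := by
  have h := T.proj_formula (lift (𝟙 X) (𝟙 X)) (1 : A X) u
  rw [mul_one] at h
  exact h.symm

theorem pull_diag_ext {X : C} (a b : A X) :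
    T.pull (lift (𝟙 X) (𝟙 X)) (T.ext a b) = a * b := by
  simp only [ext, map_mul, ← T.pull_comp, lift_fst, lift_snd, T.pull_id]

theorem push_fst_diag_mul {X : C} (r : A X) :
    T.push (fst X X) (T.ext 1 r * T.diag X) = r := by
  rw [diag_mul, pull_diag_ext, one_mul, ← T.push_comp, lift_fst, T.push_id]

theorem deg_ext_mul_diag {X : C} (a b : A X) :
    T.deg (X ⊗ X) (T.ext a b * T.diag X) = T.deg X (a * b) := by
  rw [diag_mul, pull_diag_ext, T.deg_push]

theorem pull_swap_diag (X : C) : T.pull (swap X X).hom (T.diag X) = T.diag X := by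
  have h : T.push (swap X X).hom (T.diag X) = T.diag X := by
    rw [diag, ← T.push_comp]
    congr 1
    congr 1
    ext <;> simp [swap]
  have h2 := push_iso_hom (T := T) (swap X X) (T.diag X)
  rw [h] at h2
  exact h2.symm

/-- Base change for the diagonal, in the second factor. -/
theorem diag_base_change_right {D X : C} (b : D ⟶ X) :
    T.pull (X ◁ b) (T.diag X) = T.push (lift b (𝟙 D)) 1 := by
  have h1 : X ◁ b = (swap X D).hom ≫ (b ▷ X) ≫ (swap X X).hom := by
    ext <;> simp [swap]
  rw [h1, T.pull_comp, T.pull_comp, pull_swap_diag, diag, T.diag_base_change]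
  have h3 : T.pull (swap X D).hom (T.push (lift (𝟙 D) b) 1)
      = T.push (swap D X).hom (T.push (lift (𝟙 D) b) 1) := by
    rw [push_iso_hom]; rfl
  rw [h3, ← T.push_comp]
  congr 1
  congr 1
  ext <;> simp [swap]

theorem ext_gr {X Y : C} {i j : ℕ} {a : A X} {b : A Y} (ha : a ∈ T.gr X i)
    (hb : b ∈ T.gr Y j) : T.ext a b ∈ T.gr (X ⊗ Y) (i + j) :=
  SetLike.mul_mem_graded (T.pull_gr _ _ _ ha) (T.pull_gr _ _ _ hb)

theorem one_gr (X : C) : (1 : A X) ∈ T.gr X 0 := SetLike.one_mem_graded _

/-- The component of codimension `k` of a class. -/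
noncomputable def comp (T : Theory A) (X : C) (k : ℕ) : A X →ₗ[ℚ] A X :=
  GradedAlgebra.proj (T.gr X) k

theorem comp_mem (X : C) (k : ℕ) (a : A X) : T.comp X k a ∈ T.gr X k := by
  rw [comp, GradedAlgebra.proj_apply]
  exact SetLike.coe_mem _

theorem comp_of_mem {X : C} {k : ℕ} {a : A X} (ha : a ∈ T.gr X k) : T.comp X k a = a := by
  rw [comp, GradedAlgebra.proj_apply]
  exact DirectSum.decompose_of_mem_same (T.gr X) ha

theorem comp_of_mem_ne {X : C} {k l : ℕ} (h : k ≠ l) {a : A X} (ha : a ∈ T.gr X k) :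
    T.comp X l a = 0 := by
  rw [comp, GradedAlgebra.proj_apply]
  exact DirectSum.decompose_of_mem_ne (T.gr X) ha h

theorem comp_mul_right {X : C} {i j : ℕ} (a : A X) {b : A X} (hb : b ∈ T.gr X j) :
    T.comp X (i + j) (a * b) = T.comp X i a * b := by
  simp only [comp, GradedAlgebra.proj_apply]
  exact DirectSum.coe_decompose_mul_add_of_right_mem (T.gr X) hb

/-- Components commute with push-forward. -/
theorem comp_push {X Y : C} (f : X ⟶ Y) {i j : ℕ} (h : i + T.dim Y = j + T.dim X) (a : A X) :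
    T.comp Y j (T.push f a) = T.push f (T.comp X i a) := by
  classical
  refine DirectSum.Decomposition.inductionOn (T.gr X) (motive := fun a =>
    T.comp Y j (T.push f a) = T.push f (T.comp X i a)) ?_ ?_ ?_ a
  · simp
  · intro k b
    rcases lt_or_ge (k + T.dim Y) (T.dim X) with hlt | hge
    · rw [T.push_gr_low f k b b.2 hlt, map_zero]
      by_cases hki : k = i
      · subst hki; omega
      · rw [comp_of_mem_ne hki b.2, map_zero]
    · obtain ⟨l, hl⟩ := Nat.exists_eq_add_of_le hge
      have hmem := T.push_gr f k l b b.2 (by omega)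
      by_cases hki : k = i
      · subst hki
        have : l = j := by omega
        subst this
        rw [comp_of_mem hmem, comp_of_mem b.2]
      · rw [comp_of_mem_ne hki b.2, map_zero, comp_of_mem_ne (by omega) hmem]
  · intro a b ha hb
    simp only [map_add, ha, hb]

end Theory

end Pool.Agent.HL2
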