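import Pool.Agent.HL2.Prim

/-!
# The cuspidal part of the diagonal in genus one with eleven markings
-/

open CategoryTheory MonoidalCategory CartesianMonoidalCategory

namespace Pool.Agent.HL2

universe u v w


namespace Theory

variable {C : Type u} [Category.{v} C] [CartesianMonoidalCategory C]
  {A : C → CommAlgCat.{w} ℚ} {T : Theory A}

theorem ext_left_bdry {X Y : Sp} (hY : Y.St) {z : A (T.obj X)} (hz : z ∈ T.bdry X) :
    T.ext z (1 : A (T.obj Y)) ∈ T.bdry (.prod X Y) := by
  unfold bdry at hz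
  induction hz using Submodule.span_induction with
  | mem x hx =>
    obtain ⟨W, f, k, y, hE, rfl⟩ := hx
    exact Submodule.subset_span ⟨.prod W Y, f ▷ T.obj Y, T.ext k 1, T.ext y 1,
      .left hY hE, (push_whiskerRight f _ y 1).symm⟩
  | zero => rw [ext_zero_left]; exact zero_mem _
  | add x y _ _ hx hy => rw [ext_add_left]; exact add_mem hx hy
  | smul r x _ hx => rw [ext_smul_left]; exact Submodule.smul_mem _ _ hx

theorem ext_right_bdry {X Y : Sp} (hX : X.St) {z : A (T.obj Y)} (hz : z ∈ T.bdry Y) :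
    T.ext (1 : A (T.obj X)) z ∈ T.bdry (.prod X Y) := by
  unfold bdry at hz
  induction hz using Submodule.span_induction with
  | mem x hx =>
    obtain ⟨W, f, k, y, hE, rfl⟩ := hx
    exact Submodule.subset_span ⟨.prod X W, T.obj X ◁ f, T.ext 1 k, T.ext 1 y,
      .right hX hE, (push_whiskerLeft _ f 1 y).symm⟩
  | zero => rw [ext_zero_right]; exact zero_mem _
  | add x y _ _ hx hy => rw [ext_add_right]; exact add_mem hx hy
  | smul r x _ hx => rw [ext_smul_right]; exact Submodule.smul_mem _ _ hx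

theorem stable_one {S : Type} (hS : Nat.card S = 11) : Stable 1 S :=
  ⟨Nat.finite_of_card_ne_zero (by omega), by omega⟩

theorem dim_one (F : T.Facts) {S : Type} (hS : Nat.card S = 11) : T.dim (T.M 1 S) = 11 := by
  have := F.dim_M 1 S (stable_one hS)
  omega

/-- Dual bases of the tautological ring in genus one. -/
theorem exists_dual (F : T.Facts) {S : Type} (hS : Stable 1 S) :
    ∃ (n : ℕ) (b c : Fin n → A (T.M 1 S)), (∀ i, b i ∈ T.tau (.M 1 S)) ∧
      (∀ i, c i ∈ T.tau (.M 1 S)) ∧
      (∀ a ∈ T.tau (.M 1 S), a = ∑ i, T.deg _ (a * b i) • c i) ∧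
      ∑ i, T.deg _ (b i * c i) = (Module.finrank ℚ (T.tau (.M 1 S)) : ℚ) := by
  have : Module.Finite ℚ (T.tau (.M 1 S)) := F.finite_one S hS
  let B : LinearMap.BilinForm ℚ (T.tau (.M 1 S)) :=
    LinearMap.mk₂ ℚ (fun a b => T.deg (T.M 1 S) ((a : A (T.M 1 S)) * b))
      (by intro a b c; simp [add_mul]) (by intro r a b; simp)
      (by intro a b c; simp [mul_add]) (by intro r a b; simp)
  have hBdef : ∀ a b, B a b = T.deg (T.M 1 S) ((a : A (T.M 1 S)) * b) := fun a b => rfl
  have hsep : ∀ a, (∀ b, B a b = 0) → a = 0 := by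
    intro a ha
    apply Subtype.ext
    exact F.gorenstein_one S hS a a.2 (fun b hb => ha ⟨b, hb⟩)
  have hB : B.Nondegenerate := by
    refine ⟨hsep, ?_⟩
    intro b hb
    apply hsep
    intro a
    rw [hBdef, mul_comm, ← hBdef]
    exact hb a
  let bs := Module.finBasis ℚ (T.tau (.M 1 S))
  let ds := B.dualBasis hB bs
  refine ⟨Module.finrank ℚ (T.tau (.M 1 S)), fun i => bs i, fun i => ds i, fun i => (bs i).2,
    fun i => (ds i).2, ?_, ?_⟩
  · intro a ha
    have h := ds.sum_repr ⟨a, ha⟩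
    have h2 := congrArg Subtype.val h
    simp only [ds, LinearMap.BilinForm.dualBasis_repr_apply] at h2
    rw [Submodule.coe_sum] at h2
    have h3 : a = ∑ x, (B ⟨a, ha⟩ (bs x)) • (ds x : A (T.M 1 S)) := by
      simpa using h2.symm
    exact h3
  · have h1 : ∀ i, T.deg (T.M 1 S) ((bs i : A (T.M 1 S)) * (ds i : A (T.M 1 S))) = 1 := by
      intro i
      have := LinearMap.BilinForm.apply_dualBasis_left hB bs i i
      rw [hBdef, if_pos rfl] at this
      rw [mul_comm]
      exact this
    rw [Finset.sum_congr rfl (fun i _ => h1 i)]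
    simp

section

variable {S : Type} {n : ℕ} {b c : Fin n → A (T.M 1 S)}

/-- Reconstruction of a class on `Z ⊗ M 1 S` with tautological second factor. -/
theorem reconstruct (hc : ∀ a ∈ T.tau (.M 1 S), a = ∑ i, T.deg _ (a * b i) • c i) {Z : C}
    {u : A (Z ⊗ T.M 1 S)} (hu : u ∈ T.extSpan Z (.M 1 S)) :
    u = ∑ i, T.ext (T.push (fst Z (T.M 1 S)) (T.ext 1 (b i) * u)) (c i) := by
  let φ : A (Z ⊗ T.M 1 S) →ₗ[ℚ] A (Z ⊗ T.M 1 S) :=
    ∑ i, ((T.extL Z (T.M 1 S)).flip (c i)) ∘ₗ (T.push (fst Z (T.M 1 S))) ∘ₗ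
      (LinearMap.mul ℚ _ (T.ext 1 (b i)))
  have hφ : ∀ u, φ u = ∑ i, T.ext (T.push (fst Z (T.M 1 S)) (T.ext 1 (b i) * u)) (c i) := by
    intro u
    simp only [φ, LinearMap.sum_apply]
    rfl
  have key := extSpan_induction (T := T) (LinearMap.id - φ) ⊥ ?_ hu
  · rw [← hφ]
    have := (Submodule.mem_bot ℚ).1 key
    rw [LinearMap.sub_apply, LinearMap.id_apply, sub_eq_zero] at this
    exact this
  · intro z a ha
    rw [Submodule.mem_bot, LinearMap.sub_apply, LinearMap.id_apply, sub_eq_zero, hφ]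
    have h1 : ∀ i, T.ext (T.push (fst Z (T.M 1 S)) (T.ext 1 (b i) * T.ext z a)) (c i)
        = T.ext z (T.deg _ (a * b i) • c i) := by
      intro i
      rw [ext_mul_ext, one_mul, push_fst', ext_smul_left, ext_smul_right, mul_comm (b i) a]
    rw [Finset.sum_congr rfl (fun i _ => h1 i), ← ext_sum_right, ← hc a ha]

/-- Two tautological classes on the square with the reproducing property agree. -/
theorem unique_dual (hb : ∀ i, b i ∈ T.tau (.M 1 S))
    (hc : ∀ a ∈ T.tau (.M 1 S), a = ∑ i, T.deg _ (a * b i) • c i)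
    {t : A (T.M 1 S ⊗ T.M 1 S)} (ht : t ∈ T.tau (.prod (.M 1 S) (.M 1 S)))
    (h : ∀ r ∈ T.tau (.M 1 S), T.push (fst _ _) (T.ext 1 r * t) = r) :
    t = ∑ i, T.ext (b i) (c i) := by
  have ht' : t ∈ T.extSpan (T.M 1 S) (.M 1 S) := by
    refine tau_prod_induction (T := T) (X := .M 1 S) (Y := .M 1 S) LinearMap.id
      (T.extSpan (T.M 1 S) (.M 1 S)) ?_ ht
    intro a _ b hb
    exact ext_mem_extSpan a hb
  have h1 := reconstruct hc ht'
  rw [h1]
  exact Finset.sum_congr rfl (fun i _ => by rw [h _ (hb i)])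

end

/-- The tautological part of the diagonal, in genus one with eleven markings: the class `t` of
codimension eleven on the square with the reproducing property. -/
theorem exists_tautological_part (F : T.Facts) {S : Type}
    (hS : Nat.card S = 11) :
    ∃ t : A (T.M 1 S ⊗ T.M 1 S), t ∈ T.tau (.prod (.M 1 S) (.M 1 S)) ∧
      t ∈ T.gr (T.M 1 S ⊗ T.M 1 S) 11 ∧
      (∀ r ∈ T.tau (.M 1 S), T.push (fst _ _) (T.ext 1 r * t) = r) ∧
      T.pull (swap _ _).hom t = t ∧
      T.deg _ (t * T.diag (T.M 1 S)) = (Module.finrank ℚ (T.tau (.M 1 S)) : ℚ) := by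
  obtain ⟨n, b, c, hb, hcm, hc, hdim⟩ := exists_dual F (stable_one hS)
  -- the class `t`
  let t : A (T.M 1 S ⊗ T.M 1 S) := ∑ i, T.ext (c i) (b i)
  have htau : t ∈ T.tau (.prod (.M 1 S) (.M 1 S)) :=
    Submodule.sum_mem _ (fun i _ => ext_mem_tau (hcm i) (hb i))
  have hrep : ∀ r ∈ T.tau (.M 1 S), T.push (fst _ _) (T.ext 1 r * t) = r := by
    intro r hr
    have h1 : T.ext 1 r * t = ∑ i, T.ext (c i) (r * b i) := by
      simp only [t, Finset.mul_sum, ext_mul_ext, one_mul]
    rw [h1, map_sum, Finset.sum_congr rfl (fun i _ => push_fst' (T := T) _ _)]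
    exact (hc r hr).symm
  have ht2 : t = ∑ i, T.ext (b i) (c i) := unique_dual hb hc htau hrep
  have hswap : T.pull (swap _ _).hom t = t := by
    have h1 : T.pull (swap _ _).hom t = ∑ i, T.ext (b i) (c i) := by
      simp only [t, map_sum]
      exact Finset.sum_congr rfl (fun i _ => pull_swap (T := T) _ _)
    rw [h1, ← ht2]
  have hdeg : T.deg _ (t * T.diag (T.M 1 S)) = (Module.finrank ℚ (T.tau (.M 1 S)) : ℚ) := by
    rw [ht2, Finset.sum_mul, map_sum, ← hdim]
    exact Finset.sum_congr rfl (fun i _ => deg_ext_mul_diag _ _)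
  -- homogeneity
  have hd := dim_one F hS
  have hcomp : ∀ r ∈ T.tau (.M 1 S),
      T.push (fst _ _) (T.ext 1 r * T.comp (T.M 1 S ⊗ T.M 1 S) 11 t) = r := by
    intro r hr
    let φ : A (T.M 1 S) →ₗ[ℚ] A (T.M 1 S) :=
      (T.push (fst (T.M 1 S) (T.M 1 S))) ∘ₗ
        ((LinearMap.mul ℚ _).flip (T.comp (T.M 1 S ⊗ T.M 1 S) 11 t)) ∘ₗ
        (T.extL (T.M 1 S) (T.M 1 S) 1)
    have key := Hom_induction (T := T) (X := .M 1 S) (φ - LinearMap.id) ⊥ ?_
      (tau_le_Hom _ hr)
    · have := (Submodule.mem_bot ℚ).1 key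
      rw [LinearMap.sub_apply, LinearMap.id_apply, sub_eq_zero] at this
      exact this
    · intro r hr j hj
      rw [Submodule.mem_bot, LinearMap.sub_apply, LinearMap.id_apply, sub_eq_zero]
      change T.push (fst (T.M 1 S) (T.M 1 S))
        (T.ext 1 r * T.comp (T.M 1 S ⊗ T.M 1 S) 11 t) = r
      have h1 : T.ext (1 : A (T.M 1 S)) r ∈ T.gr (T.M 1 S ⊗ T.M 1 S) j := by
        have := ext_gr (T := T) (one_gr (T.M 1 S)) hj
        rwa [zero_add] at this
      have h2 : T.ext 1 r * T.comp (T.M 1 S ⊗ T.M 1 S) 11 t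
          = T.comp (T.M 1 S ⊗ T.M 1 S) (11 + j) (T.ext 1 r * t) := by
        rw [mul_comm (T.ext 1 r) t, comp_mul_right (T := T) t h1, mul_comm]
      rw [h2, ← comp_push (T := T) (fst (T.M 1 S) (T.M 1 S)) (j := j)
        (by rw [T.dim_tensor, hd]; omega), hrep r hr]
      exact comp_of_mem hj
  have hgr : t ∈ T.gr (T.M 1 S ⊗ T.M 1 S) 11 := by
    have h1 := unique_dual hb hc
      (comp_mem_tau (T := T) (X := .prod (.M 1 S) (.M 1 S)) 11 htau) hcomp
    rw [ht2, ← h1]
    exact comp_mem _ _ _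
  exact ⟨t, htau, hgr, hrep, hswap, hdeg⟩

/-- The cuspidal part of the diagonal: a homogeneous class `d` on the square of the moduli space of
genus one curves with eleven markings which differs from the diagonal by a tautological class,
vanishes on the boundary, is orthogonal to the tautological classes, and not to the diagonal. -/
theorem exists_delta (F : T.Facts) {S : Type} (hS : Nat.card S = 11) :
    ∃ d : A (T.M 1 S ⊗ T.M 1 S),
      T.diag (T.M 1 S) - d ∈ T.tau (.prod (.M 1 S) (.M 1 S)) ∧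
      d ∈ T.gr (T.M 1 S ⊗ T.M 1 S) 11 ∧
      Prim T (.prod (.M 1 S) (.M 1 S)) d ∧
      (∀ s ∈ T.tau (.prod (.M 1 S) (.M 1 S)), T.deg _ (s * d) = 0) ∧
      T.deg _ (T.diag (T.M 1 S) * d) ≠ 0 := by
  obtain ⟨t, htau, hgr, hrep, hswap, hdeg⟩ := exists_tautological_part F hS
  obtain ⟨n, b, c, hb, hcm, hc, hdim⟩ := exists_dual F (stable_one hS)
  have hd := dim_one F hS
  let d : A (T.M 1 S ⊗ T.M 1 S) := T.diag (T.M 1 S) - t
  have horth : ∀ r ∈ T.tau (.M 1 S), T.push (fst _ _) (T.ext 1 r * d) = 0 := by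
    intro r hr
    simp only [d]
    rw [mul_sub, map_sub, push_fst_diag_mul, hrep r hr, sub_self]
  have hdswap : T.pull (swap _ _).hom d = d := by
    simp only [d, map_sub]
    rw [pull_swap_diag, hswap]
  -- vanishing on the boundary of the first factor
  have hleft : ∀ (X : Sp) (f : T.obj X ⟶ T.obj (.M 1 S)) (k : A (T.obj X)),
      T.Edge X (.M 1 S) f k → T.pull (f ▷ T.M 1 S) d = 0 := by
    intro X f k hE
    have hsmall : X.Small := by
      cases hE with
      | @glue g₁ g₂ g I J R₁ R₂ S h e₁ e₂ e h₁ h₂ =>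
        obtain ⟨hf1, hc1⟩ := h₁
        obtain ⟨hf2, hc2⟩ := h₂
        have := hf1
        have := hf2
        have : Finite (Option I) := Finite.of_equiv _ e₁.symm
        have : Finite (Option J) := Finite.of_equiv _ e₂.symm
        have : Finite I := Finite.of_injective (some : I → Option I) (Option.some_injective I)
        have : Finite J := Finite.of_injective (some : J → Option J) (Option.some_injective J)
        have hcI : Nat.card R₁ = Nat.card I + 1 := by
          rw [← Nat.card_congr e₁, Finite.card_option]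
        have hcJ : Nat.card R₂ = Nat.card J + 1 := by
          rw [← Nat.card_congr e₂, Finite.card_option]
        have hcS : Nat.card I + Nat.card J = Nat.card S := by
          rw [← Nat.card_sum, Nat.card_congr e]
        refine ⟨⟨⟨hf1, hc1⟩, ?_⟩, ⟨⟨hf2, hc2⟩, ?_⟩⟩
        · rcases Nat.eq_zero_or_pos g₁ with h0 | h0
          · exact Or.inl h0
          · exact Or.inr ⟨by omega, by omega⟩
        · rcases Nat.eq_zero_or_pos g₂ with h0 | h0
          · exact Or.inl h0
          · exact Or.inr ⟨by omega, by omega⟩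
      | self h e h₁ => exact ⟨h₁, Or.inl (by omega)⟩
    have hmem : T.pull (f ▷ T.M 1 S) d ∈ T.extSpan (T.obj X) (.M 1 S) := by
      simp only [d, map_sub]
      refine sub_mem ?_ ?_
      · rw [diag, T.diag_base_change]
        have h1 : lift (𝟙 (T.obj X)) f = lift (𝟙 _) (𝟙 _) ≫ (T.obj X ◁ f) := by
          simp
        rw [h1, T.push_comp]
        refine extSpan_induction (T := T) (T.push (T.obj X ◁ f))
          (T.extSpan (T.obj X) (.M 1 S)) ?_ (kunneth' F hsmall (T.obj X) _)
        intro z a ha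
        rw [push_whiskerLeft]
        exact ext_mem_extSpan z (push_edge hE _ ha)
      · refine tau_prod_induction (T := T) (T.pull (f ▷ T.M 1 S)).toLinearMap
          (T.extSpan (T.obj X) (.M 1 S)) ?_ htau
        intro a _ a' ha'
        have h1 : (T.pull (f ▷ T.M 1 S)).toLinearMap (T.ext a a')
            = T.ext (T.pull f a) a' := pull_whiskerRight f _ a a'
        rw [h1]
        exact ext_mem_extSpan _ ha'
    rw [reconstruct hc hmem]
    refine Finset.sum_eq_zero (fun i _ => ?_)
    have h1 : T.ext 1 (b i) * T.pull (f ▷ T.M 1 S) d = T.pull (f ▷ T.M 1 S) (T.ext 1 (b i) * d) := by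
      rw [map_mul, pull_whiskerRight, map_one]
    rw [h1, ← T.fst_base_change, horth _ (hb i), map_zero, ext_zero_left]
  have hright : ∀ (X : Sp) (f : T.obj X ⟶ T.obj (.M 1 S)) (k : A (T.obj X)),
      T.Edge X (.M 1 S) f k → T.pull (T.M 1 S ◁ f) d = 0 := by
    intro X f k hE
    rw [← hdswap, ← T.pull_comp]
    have h1 : (T.M 1 S ◁ f) ≫ (swap _ _).hom = (swap _ _).hom ≫ (f ▷ T.M 1 S) := by
      ext <;> simp [swap]
    rw [h1, T.pull_comp, hleft X f k hE, map_zero]
  have hvan : d ∈ T.Van (.prod (.M 1 S) (.M 1 S)) := by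
    rw [mem_Van]
    intro Y f k hE
    cases hE with
    | left hZ h => exact hleft _ _ _ h
    | right hZ h => exact hright _ _ _ h
  have hbd : ∀ z ∈ T.bdry (.prod (.M 1 S) (.M 1 S)), z * d = 0 := by
    intro z hz
    unfold bdry at hz
    induction hz using Submodule.span_induction with
    | mem x hx =>
      obtain ⟨Y, f, k, y, hE, rfl⟩ := hx
      rw [mul_comm, ← T.proj_formula, mem_Van.1 hvan Y f k hE, zero_mul, map_zero]
    | zero => rw [zero_mul]
    | add x y _ _ hx hy => rw [add_mul, hx, hy, add_zero]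
    | smul r x _ hx => rw [smul_mul_assoc, hx, smul_zero]
  have hst := stable_one hS
  have hpsi : ∀ k, Psi T (.prod (.M 1 S) (.M 1 S)) k → k * d = 0 := by
    intro k hk
    apply hbd
    cases hk with
    | @left X Y k hk =>
      cases hk with
      | base g S s =>
        have h1 := F.psi_one S s hst
        exact ext_left_bdry (T := T) (X := .M 1 S) (Y := .M 1 S) hst h1
    | @right X Y k hk =>
      cases hk with
      | base g S s =>
        have h1 := F.psi_one S s hst
        exact ext_right_bdry (T := T) (X := .M 1 S) (Y := .M 1 S) hst h1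
  refine ⟨d, ?_, ?_, ⟨hvan, hpsi⟩, ?_, ?_⟩
  · simp only [d, sub_sub_cancel]
    exact htau
  · refine sub_mem ?_ hgr
    exact T.push_gr _ 0 11 _ (one_gr _) (by rw [T.dim_tensor, hd])
  · intro s hs
    have key := tau_prod_induction (T := T) (X := .M 1 S) (Y := .M 1 S)
      ((T.deg (T.M 1 S ⊗ T.M 1 S)) ∘ₗ ((LinearMap.mul ℚ _).flip d)) ⊥ ?_ hs
    · exact (Submodule.mem_bot ℚ).1 key
    · intro a _ a' ha'
      rw [Submodule.mem_bot]
      change T.deg (T.M 1 S ⊗ T.M 1 S) (T.ext a a' * d) = 0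
      have h1 : T.ext a a' * d = T.pull (fst _ _) a * (T.ext 1 a' * d) := by
        simp only [ext, map_one, one_mul]; ring
      rw [h1, ← T.deg_push (fst _ _), T.proj_formula, horth a' ha', mul_zero, map_zero]
  · have h1 : T.deg _ (T.diag (T.M 1 S) * d)
        = T.deg _ (T.diag (T.M 1 S) * T.diag (T.M 1 S))
          - (Module.finrank ℚ (T.tau (.M 1 S)) : ℚ) := by
      simp only [d]
      rw [mul_sub, map_sub, mul_comm _ t, hdeg]
    rw [h1, sub_ne_zero]
    exact F.odd_cohomology S hS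

end Theory

end Pool.Agent.HL2
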