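import Pool.Agent.HL2.Chow

/-!
# Tautological classes, gluing maps and the boundary
-/

open CategoryTheory MonoidalCategory CartesianMonoidalCategory

namespace Pool.Agent.HL2

universe u v w

/-- Formal finite products of moduli spaces of stable curves. -/
inductive Sp : Type 1
  | M (g : ℕ) (S : Type) : Sp
  | prod (X Y : Sp) : Sp

/-- All the moduli spaces occurring in the product are stable. -/
def Sp.St : Sp → Prop
  | .M g S => Stable g S
  | .prod X Y => X.St ∧ Y.St

/-- All the moduli spaces occurring in the product are stable and have genus zero, or genus one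
and at most ten markings. -/
def Sp.Small : Sp → Prop
  | .M g S => Stable g S ∧ (g = 0 ∨ (g = 1 ∧ Nat.card S ≤ 10))
  | .prod X Y => X.Small ∧ Y.Small

/-- The last pair of markings of `Fin (n + 1) ⊕ Fin (n + 1)`, and the others. -/
def pairEquiv (n : ℕ) : Option (Option (Fin n ⊕ Fin n)) ≃ Fin (n + 1) ⊕ Fin (n + 1) where
  toFun
    | none => Sum.inl 0
    | some none => Sum.inr 0
    | some (some (Sum.inl i)) => Sum.inl i.succ
    | some (some (Sum.inr i)) => Sum.inr i.succ
  invFun := Sum.elim
    (Fin.cases none (fun i => some (some (Sum.inl i))))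
    (Fin.cases (some none) (fun i => some (some (Sum.inr i))))
  left_inv := by
    rintro (_ | _ | i | i) <;> simp
  right_inv := by
    rintro (i | i)
    · refine Fin.cases ?_ (fun j => ?_) i <;> simp
    · refine Fin.cases ?_ (fun j => ?_) i <;> simp

/-- The pair of markings of `Fin 1 ⊕ Fin 1`. -/
def lastEquiv : Option (Option (Fin 0)) ≃ Fin 1 ⊕ Fin 1 where
  toFun
    | none => Sum.inl 0
    | some none => Sum.inr 0
    | some (some i) => i.elim0
  invFun := Sum.elim (fun _ => none) (fun _ => some none)
  left_inv := by
    rintro (_ | _ | i)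
    · rfl
    · rfl
    · exact i.elim0
  right_inv := by
    rintro (i | i)
    · simp [Subsingleton.elim i 0]
    · simp [Subsingleton.elim i 0]

namespace Theory

variable {C : Type u} [Category.{v} C] [CartesianMonoidalCategory C]
  {A : C → CommAlgCat.{w} ℚ} (T : Theory A)

/-- The object of `C` described by a formal product. -/
@[reducible] def obj : Sp → C
  | .M g S => T.M g S
  | .prod X Y => obj X ⊗ obj Y

/-- The tautological classes: the smallest system of `ℚ`-subalgebras of the Chow rings of the
spaces `M g S` (`(g, S)` stable) that is stable under push-forward along all forgetful maps and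
gluing maps. -/
inductive Taut : (g : ℕ) → (S : Type) → A (T.M g S) → Prop
  | one {g : ℕ} {S : Type} : Stable g S → Taut g S on
  | smul (r : ℚ) {g : ℕ} {S : Type} {a : A (T.M g S)} : Taut g S a → Taut g S (sc r a)
  | add {g : ℕ} {S : Type} {a b : A (T.M g S)} : Taut g S a → Taut g S b → Taut g S (ad a b)
  | mul {g : ℕ} {S : Type} {a b : A (T.M g S)} : Taut g S a → Taut g S b → Taut g S (mu a b)
  | forget {g : ℕ} {S R : Type} (h : Stable g S) (e : Option S ≃ R) {a : A (T.M g R)} :
      Taut g R a → Taut g S (T.ps (T.forget g e) a)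
  | glue {g₁ g₂ g : ℕ} {I J R₁ R₂ S : Type} (h : g₁ + g₂ = g) (e₁ : Option I ≃ R₁)
      (e₂ : Option J ≃ R₂) (e : I ⊕ J ≃ S) {a : A (T.M g₁ R₁)} {b : A (T.M g₂ R₂)} :
      Taut g₁ R₁ a → Taut g₂ R₂ b → Taut g S (T.ps (T.glue h e₁ e₂ e) (T.ext a b))
  | self {g g' : ℕ} {S R : Type} (h : g + 1 = g') (e : Option (Option S) ≃ R)
      {a : A (T.M g R)} : Taut g R a → Taut g' S (T.ps (T.self h e) a)

/-- The tautological classes on products of moduli spaces: sums of exterior products of
tautological classes. -/
def Tau : (X : Sp) → A (T.obj X) → Prop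
  | .M g S => T.Taut g S
  | .prod X Y => Lin (fun c => ∃ a b, Tau X a ∧ Tau Y b ∧ c = T.ext a b)

/-- `Edge X Y f c`: the morphism `f` from (the object of) `X` to `Y` glues one pair of markings
(it is the gluing map of a stable graph with one edge, on one factor), and `c` is the sum of the
cotangent line classes at the two markings that are glued. -/
inductive Edge : (X Y : Sp) → (T.obj X ⟶ T.obj Y) → A (T.obj X) → Prop
  | glue {g₁ g₂ g : ℕ} {I J R₁ R₂ S : Type} (h : g₁ + g₂ = g) (e₁ : Option I ≃ R₁)
      (e₂ : Option J ≃ R₂) (e : I ⊕ J ≃ S) (h₁ : Stable g₁ R₁) (h₂ : Stable g₂ R₂) :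
      Edge (.prod (.M g₁ R₁) (.M g₂ R₂)) (.M g S) (T.glue h e₁ e₂ e)
        (ad (T.ext (T.psi g₁ R₁ (e₁ none)) on) (T.ext on (T.psi g₂ R₂ (e₂ none))))
  | self {g g' : ℕ} {S R : Type} (h : g + 1 = g') (e : Option (Option S) ≃ R)
      (h₁ : Stable g R) :
      Edge (.M g R) (.M g' S) (T.self h e) (ad (T.psi g R (e none)) (T.psi g R (e (some none))))
  | left {X Y Z : Sp} {f : T.obj X ⟶ T.obj Y} {c : A (T.obj X)} (hZ : Z.St) :
      Edge X Y f c → Edge (.prod X Z) (.prod Y Z) (f ▷ T.obj Z) (T.ext c on)
  | right {X Y Z : Sp} {f : T.obj X ⟶ T.obj Y} {c : A (T.obj X)} (hZ : Z.St) :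
      Edge X Y f c → Edge (.prod Z X) (.prod Z Y) (T.obj Z ◁ f) (T.ext on c)

/-- The classes supported on the boundary: sums of push-forwards along the gluing maps with
one edge. -/
def Bdry (X : Sp) : A (T.obj X) → Prop :=
  Lin (fun z => ∃ (Y : Sp) (f : T.obj Y ⟶ T.obj X) (c y : A (T.obj Y)),
    T.Edge Y X f c ∧ z = T.ps f y)

/-- All pull-backs of the class `y` along the gluing maps with one edge vanish: its restriction
to the Deligne-Mumford boundary is zero. -/
def Vanish (X : Sp) (y : A (T.obj X)) : Prop :=
  ∀ (Y : Sp) (f : T.obj Y ⟶ T.obj X) (c : A (T.obj Y)), T.Edge Y X f c → T.pl f y = ze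

/-- Gluing `inl i` to `inr i` for all `i : Fin (n + 1)`; no marking is left. -/
def selfs : (n g G : ℕ) → g + (n + 1) = G → (T.M g (Fin (n + 1) ⊕ Fin (n + 1)) ⟶ T.M G (Fin 0))
  | 0, _, _, h => T.self h lastEquiv
  | n + 1, g, G, h => T.self rfl (pairEquiv (n + 1)) ≫ selfs n (g + 1) G (by omega)

/-- The gluing map `xi`: two curves of genus one with eleven markings (`none` and `some i`,
`i : Fin 10`) are glued along the eleven pairs of markings with the same name; the result is a
stable curve of genus twelve without markings. -/
def xi : T.M 1 (Option (Fin 10)) ⊗ T.M 1 (Option (Fin 10)) ⟶ T.M 12 (Fin 0) :=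
  T.glue (g := 2) rfl (Equiv.refl _) (Equiv.refl _) (Equiv.refl (Fin 10 ⊕ Fin 10)) ≫
    T.selfs 9 2 12 rfl

/-- The class of a boundary point of the moduli space of genus zero curves with four markings:
the point where the markings are distributed according to `e`. -/
def pt (e : Fin 2 ⊕ Fin 2 ≃ Fin 4) : A (T.M 0 (Fin 4)) :=
  T.ps (T.glue (g₁ := 0) (g₂ := 0) (g := 0) rfl (Equiv.refl (Option (Fin 2)))
    (Equiv.refl (Option (Fin 2))) e) on

/-- The morphism `r` has positive degree: the push-forward of the fundamental class is a positive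
multiple of the fundamental class. -/
def Covers {X Y : C} (r : X ⟶ Y) : Prop := ∃ k : ℚ, 0 < k ∧ T.push r 1 = k • 1

/-- Formal properties of the moduli spaces of stable curves. -/
structure Formal : Prop where
  dim_M : ∀ (g : ℕ) (S : Type), Stable g S → T.dim (T.M g S) + 3 = 3 * g + Nat.card S
  /-- Cotangent line classes pull back to cotangent line classes under gluing maps. -/
  psi_glue_inl : ∀ {g₁ g₂ g : ℕ} {I J R₁ R₂ S : Type} (h : g₁ + g₂ = g) (e₁ : Option I ≃ R₁)
    (e₂ : Option J ≃ R₂) (e : I ⊕ J ≃ S) (i : I), Stable g₁ R₁ → Stable g₂ R₂ →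
    T.pl (T.glue h e₁ e₂ e) (T.psi g S (e (Sum.inl i))) = T.ext (T.psi g₁ R₁ (e₁ (some i))) on
  psi_glue_inr : ∀ {g₁ g₂ g : ℕ} {I J R₁ R₂ S : Type} (h : g₁ + g₂ = g) (e₁ : Option I ≃ R₁)
    (e₂ : Option J ≃ R₂) (e : I ⊕ J ≃ S) (j : J), Stable g₁ R₁ → Stable g₂ R₂ →
    T.pl (T.glue h e₁ e₂ e) (T.psi g S (e (Sum.inr j))) = T.ext on (T.psi g₂ R₂ (e₂ (some j)))
  psi_self : ∀ {g g' : ℕ} {S R : Type} (h : g + 1 = g') (e : Option (Option S) ≃ R) (s : S),
    Stable g R → T.pl (T.self h e) (T.psi g' S s) = T.psi g R (e (some (some s)))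
  /-- In genus one the cotangent line classes are supported on the boundary. -/
  psi_one : ∀ (S : Type) (s : S), Stable 1 S → T.Bdry (.M 1 S) (T.psi 1 S s)
  /-- The boundary points of the moduli space of genus zero curves with four markings, a
  projective line, have the same class. -/
  wdvv : ∀ e e' : Fin 2 ⊕ Fin 2 ≃ Fin 4, T.pt e = T.pt e'
  /-- The excess intersection formula for two gluing maps with one edge (Graber-Pandharipande,
  Appendix A), in a weak form: the pull-back along `f'` of the push-forward along `f` of `y` is a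
  sum of terms of two kinds, one for each generic common degeneration of the two stable graphs. If
  this degeneration has one edge, the term is a push-forward of the product of `y` with `c`, the sum
  of the two cotangent line classes at the edge. If it has two edges, the term is a push-forward of
  the pull-back of `y` along a gluing map with one edge into the source of `f`. -/
  excess : ∀ {X Y Z : Sp} {f : T.obj X ⟶ T.obj Z} {f' : T.obj Y ⟶ T.obj Z} {c : A (T.obj X)}
    {c' : A (T.obj Y)}, T.Edge X Z f c → T.Edge Y Z f' c' → ∀ y : A (T.obj X),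
    Lin (fun z => (∃ v : T.obj X ⟶ T.obj Y, z = T.ps v (mu c y)) ∨
      (∃ (W : Sp) (q : T.obj W ⟶ T.obj X) (d : A (T.obj W)) (v : T.obj W ⟶ T.obj Y),
          T.Edge W X q d ∧ z = T.ps v (T.pl q y))) (T.pl f' (T.ps f y))

/-- The published theorems about the moduli spaces of stable curves that are used. -/
structure Known : Prop where
  /-- Tautological classes pull back to tautological classes under gluing maps
  (Graber-Pandharipande). -/
  tau_pull : ∀ {Y : Sp} {g : ℕ} {S : Type} {f : T.obj Y ⟶ T.obj (.M g S)} {c : A (T.obj Y)},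
    T.Edge Y (.M g S) f c → ∀ a, T.Taut g S a → T.Tau Y (T.pl f a)
  /-- Tautological classes pull back to tautological classes under forgetful maps. -/
  tau_forget : ∀ {g : ℕ} {S R : Type} (e : Option S ≃ R) (a : A (T.M g S)),
    T.Taut g S a → T.Taut g R (T.pl (T.forget g e) a)
  /-- Genus zero (Keel), and genus one with at most ten markings (Belorousski; Canning, Larson,
  Payne): all classes on a product with such a moduli space are sums of exterior products, the
  second factor being tautological. -/
  kunneth : ∀ (g : ℕ) (S : Type), (Sp.M g S).Small → ∀ (Z : C) (y : A (Z ⊗ T.M g S)),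
    Lin (fun z => ∃ b a, T.Taut g S a ∧ z = T.ext b a) y
  /-- The tautological ring is finite dimensional (used in genus one only). -/
  finite_one : ∀ S : Type, Stable 1 S → ∃ (n : ℕ) (b : Fin n → A (T.M 1 S)),
    IsBasis (T.Taut 1 S) b
  /-- Petersen: in genus one the tautological rings are Gorenstein, that is, the intersection
  pairing on them is nondegenerate. -/
  gorenstein_one : ∀ S : Type, Stable 1 S → ∀ a, T.Taut 1 S a →
    (∀ b, T.Taut 1 S b → T.dg (mu a b) = 0) → a = ze
  /-- The space of genus one curves with eleven markings has nonzero odd cohomology (the discriminant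
  cusp form), so that its Euler characteristic, the self-intersection of the diagonal, is not the
  dimension of its tautological ring (Getzler, Petersen). -/
  odd_cohomology : ∀ (S : Type) (n : ℕ) (b : Fin n → A (T.M 1 S)), Nat.card S = 11 →
    IsBasis (T.Taut 1 S) b → T.dg (mu (T.diag (T.M 1 S)) (T.diag (T.M 1 S))) ≠ n
  /-- van Zelm: the pull-back of the class of the closure of the bielliptic locus of genus twelve
  under `xi` is a nonzero multiple of the diagonal up to classes supported on the boundary. -/
  bielliptic_class : ∃ (b : A (T.M 12 (Fin 0))) (k : ℚ), k ≠ 0 ∧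
    T.Bdry (.prod (.M 1 (Option (Fin 10))) (.M 1 (Option (Fin 10))))
      (ad (T.pl T.xi b) (sc (-k) (T.diag (T.M 1 (Option (Fin 10))))))
  /-- Faber and Pandharipande: the classes of Hurwitz loci are tautological. -/
  hurwitz : ∀ S : Type, Finite S → T.Taut 1 (Option (Option (S ⊕ S))) (T.ps (T.hur S) on)

/-- The tautological classes with compact support on the moduli space of smooth curves of genus
`g`: the tautological classes on the moduli space of stable curves whose restriction to the
Deligne-Mumford boundary vanishes. -/
def Rc (g : ℕ) (c : A (T.M g (Fin 0))) : Prop := T.Taut g (Fin 0) c ∧ T.Vanish (.M g (Fin 0)) c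

/-- The Hain-Looijenga pairing of codimensions `k` and `j` (where `k + j = 3g - 3`) is perfect: no
nonzero class on one side pairs to zero with every class on the other side. A tautological class on
the moduli space of smooth curves is represented by a tautological class `a` on the moduli space
of stable curves, and is zero if and only if `a` is supported on the boundary. -/
def Perfect (g k j : ℕ) : Prop :=
  (∀ a, T.Taut g (Fin 0) a → T.IsGr k a →
    (∀ c, T.Rc g c → T.IsGr j c → T.dg (mu a c) = 0) → T.Bdry (.M g (Fin 0)) a) ∧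
  (∀ c, T.Rc g c → T.IsGr j c →
    (∀ a, T.Taut g (Fin 0) a → T.IsGr k a → T.dg (mu a c) = 0) → c = ze)

/-- Question Q1 (Hain-Looijenga): all the pairings are perfect. -/
def Q1 : Prop := ∀ g k j : ℕ, 2 ≤ g → k + j + 3 = 3 * g → T.Perfect g k j

/-- Question Q2 (Hain-Looijenga): all the pairings are perfect, and the module of tautological
classes with compact support is free over the tautological ring of the moduli space of smooth
curves, generated by a single element `x`: every tautological class with compact support is `a x`
for a tautological class `a`, and `a x = 0` only if `a` is supported on the boundary, that is,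
restricts to zero on the moduli space of smooth curves. -/
def Q2 : Prop := T.Q1 ∧ ∀ g : ℕ, 2 ≤ g →
  ∃ x, T.Rc g x ∧ (∀ c, T.Rc g c → ∃ a, T.Taut g (Fin 0) a ∧ c = mu a x) ∧
    (∀ a, T.Taut g (Fin 0) a → mu a x = ze → T.Bdry (.M g (Fin 0)) a)

end Theory

end Pool.Agent.HL2
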