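import Pool.Agent.HL2.ChowLemmas
import Pool.Agent.HL2.Moduli

/-!
# The assumptions in terms of submodules
-/

open CategoryTheory MonoidalCategory CartesianMonoidalCategory

namespace Pool.Agent.HL2

universe u v w

theorem lin_iff {R : CommAlgCat.{w} ℚ} {s : R → Prop} {a : R} :
    Lin s a ↔ a ∈ Submodule.span ℚ {x | s x} := by
  constructor
  · intro h
    induction h with
    | mem h => exact Submodule.subset_span h
    | zero => exact zero_mem _
    | add _ _ ha hb => exact add_mem ha hb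
    | smul r _ ha => exact Submodule.smul_mem _ _ ha
  · intro h
    induction h using Submodule.span_induction with
    | mem x hx => exact .mem hx
    | zero => exact .zero
    | add x y _ _ hx hy => exact .add hx hy
    | smul r x _ hx => exact .smul r hx

namespace Theory

variable {C : Type u} [Category.{v} C] [CartesianMonoidalCategory C]
  {A : C → CommAlgCat.{w} ℚ} (T : Theory A)

/-- The tautological classes on products of moduli spaces, as submodules. -/
def tau : (X : Sp) → Submodule ℚ (A (T.obj X))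
  | .M g S => Submodule.span ℚ {a | T.Taut g S a}
  | .prod X Y => Submodule.span ℚ {c | ∃ a ∈ tau X, ∃ b ∈ tau Y, c = T.ext a b}

/-- The classes supported on the boundary. -/
def bdry (X : Sp) : Submodule ℚ (A (T.obj X)) :=
  Submodule.span ℚ {z | ∃ (Y : Sp) (f : T.obj Y ⟶ T.obj X) (c y : A (T.obj Y)),
    T.Edge Y X f c ∧ z = T.push f y}

/-- The classes vanishing on the boundary. -/
def Van (X : Sp) : Submodule ℚ (A (T.obj X)) :=
  ⨅ (Y : Sp) (f : T.obj Y ⟶ T.obj X) (c : A (T.obj Y)) (_ : T.Edge Y X f c),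
    LinearMap.ker (T.pull f).toLinearMap

variable {T}

theorem mem_Van {X : Sp} {y : A (T.obj X)} : y ∈ T.Van X ↔
    ∀ (Y : Sp) (f : T.obj Y ⟶ T.obj X) (c : A (T.obj Y)), T.Edge Y X f c → T.pull f y = 0 := by
  simp only [Van, Submodule.mem_iInf, LinearMap.mem_ker, AlgHom.toLinearMap_apply]

theorem vanish_iff {X : Sp} {y : A (T.obj X)} : T.Vanish X y ↔ y ∈ T.Van X := by
  rw [mem_Van]
  exact Iff.rfl

theorem bdry_iff {X : Sp} {y : A (T.obj X)} : T.Bdry X y ↔ y ∈ T.bdry X := by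
  unfold Bdry
  rw [lin_iff]
  exact Iff.rfl

theorem taut_mem_tau {g : ℕ} {S : Type} {a : A (T.M g S)} (h : T.Taut g S a) :
    a ∈ T.tau (.M g S) := Submodule.subset_span h

/-- Every element of `tau (.M g S)` is tautological when `(g, S)` is stable. -/
theorem taut_of_mem_tau {g : ℕ} {S : Type} (hs : Stable g S) {a : A (T.M g S)}
    (h : a ∈ T.tau (.M g S)) : T.Taut g S a := by
  unfold tau at h
  induction h using Submodule.span_induction with
  | mem x hx => exact hx
  | zero =>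
    have h1 := Taut.smul (T := T) 0 (Taut.one (S := S) hs)
    have h2 : (sc 0 on : A (T.M g S)) = 0 := zero_smul ℚ (1 : A (T.M g S))
    rwa [h2] at h1
  | add x y _ _ hx hy => exact hx.add hy
  | smul r x _ hx => exact hx.smul r

theorem ext_mem_tau {X Y : Sp} {a : A (T.obj X)} {b : A (T.obj Y)} (ha : a ∈ T.tau X)
    (hb : b ∈ T.tau Y) : T.ext a b ∈ T.tau (.prod X Y) :=
  Submodule.subset_span ⟨a, ha, b, hb, rfl⟩

theorem mem_tau_of_Tau : ∀ {X : Sp} {a : A (T.obj X)}, T.Tau X a → a ∈ T.tau X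
  | .M g S, a, h => taut_mem_tau h
  | .prod X Y, a, h => by
    unfold Tau at h
    rw [lin_iff] at h
    induction h using Submodule.span_induction with
    | mem x hx =>
      obtain ⟨a, b, ha, hb, rfl⟩ := hx
      exact ext_mem_tau (mem_tau_of_Tau ha) (mem_tau_of_Tau hb)
    | zero => exact zero_mem _
    | add x y _ _ hx hy => exact add_mem hx hy
    | smul r x _ hx => exact Submodule.smul_mem _ _ hx

theorem tau_M_induction {g : ℕ} {S : Type} {V : Type*} [AddCommGroup V] [Module ℚ V]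
    (φ : A (T.M g S) →ₗ[ℚ] V) (N : Submodule ℚ V)
    (h : ∀ a, T.Taut g S a → φ a ∈ N) {u : A (T.M g S)}
    (hu : u ∈ T.tau (.M g S)) : φ u ∈ N := by
  unfold tau at hu
  induction hu using Submodule.span_induction with
  | mem x hx => exact h x hx
  | zero => rw [map_zero]; exact zero_mem _
  | add x y _ _ hx hy => rw [map_add]; exact add_mem hx hy
  | smul r x _ hx => rw [map_smul]; exact Submodule.smul_mem _ _ hx

variable (T)

/-- The assumptions in terms of submodules. -/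
structure Facts : Prop where
  dim_M : ∀ (g : ℕ) (S : Type), Stable g S → T.dim (T.M g S) + 3 = 3 * g + Nat.card S
  psi_glue_inl : ∀ {g₁ g₂ g : ℕ} {I J R₁ R₂ S : Type} (h : g₁ + g₂ = g) (e₁ : Option I ≃ R₁)
    (e₂ : Option J ≃ R₂) (e : I ⊕ J ≃ S) (i : I), Stable g₁ R₁ → Stable g₂ R₂ →
    T.pull (T.glue h e₁ e₂ e) (T.psi g S (e (Sum.inl i)))
      = T.ext (T.psi g₁ R₁ (e₁ (some i))) 1
  psi_glue_inr : ∀ {g₁ g₂ g : ℕ} {I J R₁ R₂ S : Type} (h : g₁ + g₂ = g) (e₁ : Option I ≃ R₁)
    (e₂ : Option J ≃ R₂) (e : I ⊕ J ≃ S) (j : J), Stable g₁ R₁ → Stable g₂ R₂ →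
    T.pull (T.glue h e₁ e₂ e) (T.psi g S (e (Sum.inr j)))
      = T.ext 1 (T.psi g₂ R₂ (e₂ (some j)))
  psi_self : ∀ {g g' : ℕ} {S R : Type} (h : g + 1 = g') (e : Option (Option S) ≃ R) (s : S),
    Stable g R → T.pull (T.self h e) (T.psi g' S s) = T.psi g R (e (some (some s)))
  excess : ∀ {X Y Z : Sp} {f : T.obj X ⟶ T.obj Z}
    {f' : T.obj Y ⟶ T.obj Z} {c : A (T.obj X)}
    {c' : A (T.obj Y)}, T.Edge X Z f c → T.Edge Y Z f' c' →
    ∀ y : A (T.obj X), T.pull f' (T.push f y) ∈ Submodule.span ℚ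
      ({z | ∃ v : T.obj X ⟶ T.obj Y, z = T.push v (c * y)} ∪
       {z | ∃ (W : Sp) (q : T.obj W ⟶ T.obj X) (d : A (T.obj W))
          (v : T.obj W ⟶ T.obj Y),
          T.Edge W X q d ∧ z = T.push v (T.pull q y)})
  tau_pull : ∀ {Y : Sp} {g : ℕ} {S : Type} {f : T.obj Y ⟶ T.obj (.M g S)}
    {c : A (T.obj Y)}, T.Edge Y (.M g S) f c →
    ∀ a ∈ T.tau (.M g S), T.pull f a ∈ T.tau Y
  tau_forget : ∀ {g : ℕ} {S R : Type} (e : Option S ≃ R), Stable g S →
    ∀ a ∈ T.tau (.M g S), T.pull (T.forget g e) a ∈ T.tau (.M g R)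
  kunneth : ∀ (g : ℕ) (S : Type), (Sp.M g S).Small → ∀ (Z : C) (y : A (Z ⊗ T.M g S)),
    y ∈ Submodule.span ℚ {z | ∃ (b : A Z), ∃ a ∈ T.tau (.M g S),
      z = T.ext b a}
  wdvv : ∀ e e' : Fin 2 ⊕ Fin 2 ≃ Fin 4, T.pt e = T.pt e'
  psi_one : ∀ (S : Type) (s : S), Stable 1 S → T.psi 1 S s ∈ T.bdry (.M 1 S)
  finite_one : ∀ S : Type, Stable 1 S → Module.Finite ℚ (T.tau (.M 1 S))
  gorenstein_one : ∀ S : Type, Stable 1 S → ∀ a ∈ T.tau (.M 1 S),
    (∀ b ∈ T.tau (.M 1 S), T.deg _ (a * b) = 0) → a = 0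
  odd_cohomology : ∀ S : Type, Nat.card S = 11 →
    T.deg _ (T.diag (T.M 1 S) * T.diag (T.M 1 S))
      ≠ Module.finrank ℚ (T.tau (.M 1 S))
  bielliptic_class : ∃ (b : A (T.M 12 (Fin 0))) (k : ℚ), k ≠ 0 ∧
    T.pull T.xi b - k • T.diag (T.M 1 (Option (Fin 10)))
      ∈ T.bdry (.prod (.M 1 (Option (Fin 10))) (.M 1 (Option (Fin 10))))
  hurwitz : ∀ S : Type, Finite S →
    T.push (T.hur S) 1 ∈ T.tau (.M 1 (Option (Option (S ⊕ S))))

variable {T}

/-- A basis of the tautological ring in genus one, in the elementary sense. -/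
theorem isBasis_finBasis {S : Type} (hS : Stable 1 S) [Module.Finite ℚ (T.tau (.M 1 S))] :
    IsBasis (T.Taut 1 S) (fun i => ((Module.finBasis ℚ (T.tau (.M 1 S))) i : A (T.M 1 S))) := by
  constructor
  · intro i
    exact taut_of_mem_tau hS (Module.finBasis ℚ (T.tau (.M 1 S)) i).2
  · intro a ha
    have ha' := taut_mem_tau ha
    have hcomb : ∀ x : Fin _ → ℚ,
        comb x (fun i => ((Module.finBasis ℚ (T.tau (.M 1 S))) i : A (T.M 1 S)))
          = ((∑ i, x i • (Module.finBasis ℚ (T.tau (.M 1 S))) i : T.tau (.M 1 S)) :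
            A (T.M 1 S)) := by
      intro x
      rw [Submodule.coe_sum]
      rfl
    refine ⟨fun i => (Module.finBasis ℚ (T.tau (.M 1 S))).repr ⟨a, ha'⟩ i, ?_, ?_⟩
    · change a = comb _ _
      rw [hcomb, Module.Basis.sum_repr]
    · intro x hx
      change a = comb _ _ at hx
      rw [hcomb] at hx
      have h1 : (⟨a, ha'⟩ : T.tau (.M 1 S))
          = ∑ i, x i • (Module.finBasis ℚ (T.tau (.M 1 S))) i := Subtype.ext hx
      funext i
      rw [h1, Module.Basis.repr_sum_self]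

theorem finite_of_isBasis {S : Type} (hS : Stable 1 S) {n : ℕ} {b : Fin n → A (T.M 1 S)}
    (h : IsBasis (T.Taut 1 S) b) : Module.Finite ℚ (T.tau (.M 1 S)) := by
  have h1 : T.tau (.M 1 S) = Submodule.span ℚ (Set.range b) := by
    apply le_antisymm
    · intro a ha
      obtain ⟨x, hx, -⟩ := h.2 a (taut_of_mem_tau hS ha)
      have hx' : a = ∑ i, x i • b i := hx
      rw [hx']
      exact Submodule.sum_mem _
        (fun i _ => Submodule.smul_mem _ _ (Submodule.subset_span ⟨i, rfl⟩))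
    · rw [Submodule.span_le]
      rintro _ ⟨i, rfl⟩
      exact taut_mem_tau (h.1 i)
  rw [h1]
  exact Module.Finite.span_of_finite ℚ (Set.finite_range b)

/-- The two lists of assumptions imply the assumptions in terms of submodules. -/
theorem facts (F : T.Formal) (K : T.Known) : T.Facts where
  dim_M := F.dim_M
  psi_glue_inl := fun h e₁ e₂ e i h₁ h₂ => F.psi_glue_inl h e₁ e₂ e i h₁ h₂
  psi_glue_inr := fun h e₁ e₂ e j h₁ h₂ => F.psi_glue_inr h e₁ e₂ e j h₁ h₂
  psi_self := fun h e s h₁ => F.psi_self h e s h₁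
  excess := fun h h' y => lin_iff.1 (F.excess h h' y)
  tau_pull := fun {Y} {g} {S} {f} {c} hE a ha =>
    tau_M_induction (T := T) (T.pull f).toLinearMap (T.tau Y)
      (fun a ha => mem_tau_of_Tau (K.tau_pull hE a ha)) ha
  tau_forget := fun {g} {S} {R} e _ a ha =>
    tau_M_induction (T := T) (T.pull (T.forget g e)).toLinearMap (T.tau (.M g R))
      (fun a ha => taut_mem_tau (K.tau_forget e a ha)) ha
  kunneth := fun g S h Z y => by
    refine Submodule.span_mono ?_ (lin_iff.1 (K.kunneth g S h Z y))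
    rintro z ⟨b, a, ha, rfl⟩
    exact ⟨b, a, taut_mem_tau ha, rfl⟩
  wdvv := F.wdvv
  psi_one := fun S s h => bdry_iff.1 (F.psi_one S s h)
  finite_one := fun S h => by
    obtain ⟨n, b, hb⟩ := K.finite_one S h
    exact finite_of_isBasis h hb
  gorenstein_one := fun S h a ha hab =>
    K.gorenstein_one S h a (taut_of_mem_tau h ha) (fun b hb => hab b (taut_mem_tau hb))
  odd_cohomology := fun S h => by
    have hS : Stable 1 S := ⟨Nat.finite_of_card_ne_zero (by omega), by omega⟩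
    obtain ⟨n, b, hb⟩ := K.finite_one S hS
    have := finite_of_isBasis hS hb
    exact K.odd_cohomology S _ _ h (isBasis_finBasis hS)
  bielliptic_class := by
    obtain ⟨b, k, hk, h⟩ := K.bielliptic_class
    refine ⟨b, k, hk, ?_⟩
    have h1 := bdry_iff.1 h
    have h2 : ad (T.pl T.xi b) (sc (-k) (T.diag (T.M 1 (Option (Fin 10)))))
        = T.pull T.xi b - k • T.diag (T.M 1 (Option (Fin 10))) := by
      rw [sub_eq_add_neg, ← neg_smul]
      rfl
    rwa [h2] at h1
  hurwitz := fun S h => taut_mem_tau (K.hurwitz S h)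

end Theory

end Pool.Agent.HL2
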