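import Pool.Agent.HL2.Moduli

/-!
# Admissible covers with group the Klein four-group

Let `m` give for every marking `n : N` of a curve of genus zero an element `m n` of the Klein
four-group `V4`, with sum zero. `H N m` is the moduli space of pointed admissible covers: `N`-marked
stable curves `B` of genus zero, with an admissible Galois cover `C` of `B` whose group is the
subgroup generated by the values of `m`, with monodromy `m n` at the marking `n`, and with a point
`y n` of `C` over each marking `n` (Abramovich, Corti, Vistoli; Jarvis, Kaufmann, Kimura). A point of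
`C` over the marking `n` is `v + y n` (the image of `y n` under `v`) for some `v` in the group; it is
described by the pair `(n, v)`, and `v`, `v + m n` give the same point.
-/

open CategoryTheory MonoidalCategory CartesianMonoidalCategory

namespace Pool.Agent.HL2

universe u v w

/-- The Klein four-group. -/
abbrev V4 : Type := ZMod 2 × ZMod 2

/-- `v` is in the subgroup `{0, u}`. -/
abbrev Sub (u v : V4) : Prop := v = 0 ∨ v = u

/-- Possible local monodromies at the (at least three) markings. -/
def Adm {N : Type} (m : N → V4) : Prop := Finite N ∧ 3 ≤ Nat.card N ∧ ∑ᶠ n, m n = 0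

/-- The number of branch points. -/
noncomputable def br {N : Type} (m : N → V4) : ℕ := Nat.card {n // m n ≠ 0}

/-- The group of the cover is the Klein four-group. The genus of the cover is `br m - 3`. -/
def Full {N : Type} (m : N → V4) : Prop := ∃ n n', m n ≠ 0 ∧ m n' ≠ 0 ∧ m n ≠ m n'

/-- The group of the cover is `{0, u}`. The genus `p` of the cover is given by `br m = 2 p + 2`. -/
def Cyc {N : Type} (u : V4) (m : N → V4) : Prop := u ≠ 0 ∧ (∀ n, Sub u (m n)) ∧ ∃ n, m n = u

/-- The covers with monodromy `m` are Klein four-group covers of genus `g`. -/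
def FullG {N : Type} (m : N → V4) (g : ℕ) : Prop := Full m ∧ br m = g + 3

/-- The covers with monodromy `m` are double covers of genus `g`, with group `{0, u}`. -/
def CycG {N : Type} (u : V4) (m : N → V4) (g : ℕ) : Prop := Cyc u m ∧ br m = 2 * g + 2

/-- The points `(n, v) = s i` of the cover are different. -/
def Distinct {N S : Type} (m : N → V4) (s : S → N × V4) : Prop :=
  ∀ i j, (s i).1 = (s j).1 → ((s i).2 = (s j).2 ∨ (s i).2 = (s j).2 + m (s j).1) → i = j

/-- The covers with monodromy `m` are Klein four-group covers of genus `g`, the points `s i` of the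
cover are different, and `(g, S)` is stable. -/
structure Good {N S : Type} (m : N → V4) (g : ℕ) (s : S → N × V4) : Prop where
  adm : Adm m
  full : Full m
  genus : br m = g + 3
  distinct : Distinct m s
  stable : Stable g S

/-- The local monodromies on one side of a node: `γ` at the node, `f` at the markings. -/
def nd {P : Type} (γ : V4) (f : P → V4) : Option P → V4
  | none => γ
  | some p => f p

/-- The monodromies on the side of `P`. -/
abbrev lt {P R N : Type} (e : P ⊕ R ≃ N) (m : N → V4) (γ : V4) : Option P → V4 :=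
  nd γ (fun p => m (e (Sum.inl p)))

/-- The monodromies on the side of `R`. -/
abbrev rt {P R N : Type} (e : P ⊕ R ≃ N) (m : N → V4) (γ : V4) : Option R → V4 :=
  nd γ (fun r => m (e (Sum.inr r)))

/-- The markings `P` and `R` are on the two sides of a node of the base, with monodromy `γ`. -/
def Cut {P R N : Type} (e : P ⊕ R ≃ N) (m : N → V4) (γ : V4) : Prop :=
  2 ≤ Nat.card P ∧ 2 ≤ Nat.card R ∧ ∑ᶠ p, m (e (Sum.inl p)) = γ

/-- There are at least two markings with property `P`, and at least two without. -/
def Two {N : Type} (P : N → Prop) : Prop := 2 ≤ Nat.card {n // P n} ∧ 2 ≤ Nat.card {n // ¬ P n}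

/-- Points on one side of a node: the point `(none, 0)` over the node, and the points
`x i`, changed by `c`. -/
def sd {I P : Type} (c : P → V4) (x : I → P × V4) : Option I → Option P × V4
  | none => (none, 0)
  | some i => (some (x i).1, (x i).2 + c (x i).1)

/-- Points on one side of a node: the points `(none, a)`, `(none, b)` over the node, and the points
`x i`, changed by `c`. -/
def sd2 {I P : Type} (a b : V4) (c : P → V4) (x : I → P × V4) :
    Option (Option I) → Option P × V4
  | none => (none, a)
  | some none => (none, b)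
  | some (some i) => (some (x i).1, (x i).2 + c (x i).1)

/-- The points `s i`, and their translates by `t`. -/
def both {N S : Type} (s : S → N × V4) (t : V4) : S ⊕ S → N × V4 :=
  Sum.elim s (fun i => ((s i).1, (s i).2 + t))

/-- Renaming: the new marking `none` comes from the second curve. -/
def mid (J L : Type) : Option (J ⊕ L) ≃ J ⊕ Option L where
  toFun
    | none => Sum.inr none
    | some (Sum.inl j) => Sum.inl j
    | some (Sum.inr l) => Sum.inr (some l)
  invFun
    | Sum.inr none => none
    | Sum.inl j => some (Sum.inl j)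
    | Sum.inr (some l) => some (Sum.inr l)
  left_inv := by rintro (_ | _ | _) <;> rfl
  right_inv := by rintro (_ | _ | _) <;> rfl

/-- Renaming: two nodes, one marking on each of two curves. -/
def joint {I J S : Type} (f : I ⊕ J ≃ S) : Option (Option S) ≃ Option I ⊕ Option J where
  toFun
    | none => Sum.inl none
    | some none => Sum.inr none
    | some (some s) => Sum.map some some (f.symm s)
  invFun
    | Sum.inl none => none
    | Sum.inr none => some none
    | Sum.inl (some i) => some (some (f (Sum.inl i)))
    | Sum.inr (some j) => some (some (f (Sum.inr j)))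
  left_inv := by
    rintro (_ | _ | s)
    · rfl
    · rfl
    · obtain ⟨x, rfl⟩ := f.surjective s
      rcases x with i | j <;> simp
  right_inv := by
    rintro ((_ | i) | (_ | j)) <;> simp

/-- All the moduli spaces occurring in the product are stable and have genus zero. -/
def Sp.Rat : Sp → Prop
  | .M g S => Stable g S ∧ g = 0
  | .prod X Y => X.Rat ∧ Y.Rat

namespace Theory

variable {C : Type u} [Category.{v} C] [CartesianMonoidalCategory C]
  {A : C → CommAlgCat.{w} ℚ} (T : Theory A)

/-- Compositions of gluing maps with one edge. -/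
inductive Path : (X Y : Sp) → (T.obj X ⟶ T.obj Y) → Prop
  | refl (X : Sp) : Path X X (𝟙 (T.obj X))
  | step {X Y Z : Sp} {f : T.obj X ⟶ T.obj Y} {c : A (T.obj X)} {h : T.obj Y ⟶ T.obj Z} :
      T.Edge X Y f c → Path Y Z h → Path X Z (f ≫ h)

/-- The data: renaming of markings, spaces of pointed admissible covers and their morphisms. -/
structure Klein where
  /-- Renaming the markings (and the genus) of stable curves. -/
  ren : ∀ {g g' : ℕ} {S S' : Type}, g = g' → (S ≃ S') → (T.M g S ⟶ T.M g' S')
  /-- The space of pointed admissible covers with local monodromies `m`. -/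
  H : (N : Type) → (N → V4) → C
  /-- The (stabilised) cover, with the points `(n, v) = s i` of the cover as markings. -/
  cur : ∀ {N : Type} (m : N → V4) (g : ℕ) {S : Type}, (S → N × V4) → (H N m ⟶ T.M g S)
  /-- Four markings of the base. -/
  crossB : ∀ {N : Type} (m : N → V4), (Fin 4 → N) → (H N m ⟶ T.M 0 (Fin 4))
  /-- Four points of the quotient of the cover by `{0, u}`: the images of the points `s i`. -/
  crossQ : ∀ {N : Type} (m : N → V4), V4 → (Fin 4 → N × V4) → (H N m ⟶ T.M 0 (Fin 4))
  /-- The gluing of covers with monodromies `lt e m γ` and `rt e m γ` at the points `(none, 0)`, and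
  at their translates; the cover over each side of the node is a disjoint union of translated
  copies. The point `y n` over the marking `n` of the new cover is `(n, ε n)` for the old `y n`. -/
  gl : ∀ {P R N : Type} (e : P ⊕ R ≃ N) (m _ε : N → V4) (γ : V4),
    (H (Option P) (lt e m γ) ⊗ H (Option R) (rt e m γ) ⟶ H N m)

namespace Klein

variable {T} (Q : T.Klein)

/-- The monodromy at the node that separates the markings in `P` from the others. -/
noncomputable def gam {N : Type} (m : N → V4) (P : N → Prop) : V4 := ∑ᶠ p : {n // P n}, m p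

/-- The product of the spaces of covers of the two components of the base. -/
noncomputable def dom {N : Type} (m : N → V4) (P : N → Prop) : C :=
  Q.H (Option {n // P n}) (nd (gam m P) (fun p => m p)) ⊗
    Q.H (Option {n // ¬ P n}) (nd (gam m P) (fun p => m p))

/-- The gluing map to the boundary divisor of `H N m` where the markings in `P` are separated from
the others. -/
noncomputable def bd {N : Type} (m : N → V4) (P : N → Prop) (ε : N → V4) :
    Q.dom m P ⟶ Q.H N m :=
  open Classical in Q.gl (Equiv.sumCompl P) m ε (gam m P)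

/-- `l` is a linear combination with positive coefficients of the classes of the boundary divisors
given by `(P, ε)` with the property `B` (and at least two markings on each side). -/
def Combo {N : Type} (m : N → V4) (B : (N → Prop) → (N → V4) → Prop) (l : A (Q.H N m)) : Prop :=
  ∃ c : {x : (N → Prop) × (N → V4) // Two x.1 ∧ B x.1 x.2} → ℚ,
    (∀ i, 0 < c i) ∧ l = ∑ᶠ i, sc (c i) (T.ps (Q.bd m i.1.1 i.1.2) on)

end Klein

/-- Exactly the points of one of the two pairs given by `q` have the property `F`. -/
def Apart (q : Fin 2 ⊕ Fin 2 ≃ Fin 4) (F : Fin 4 → Prop) : Prop :=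
  ((∀ j, F (q (Sum.inl j))) ∧ ∀ j, ¬ F (q (Sum.inr j))) ∨
    ((∀ j, F (q (Sum.inr j))) ∧ ∀ j, ¬ F (q (Sum.inl j)))

/-- The points of the quotient of the cover by `{0, u}`, where the marking `n` is special if `m n` is
not in `{0, u}` (a branch point of the quotient). The four points `t i` are separated, in the pairs
given by `q`, at the boundary divisor `(P, ε)`: either the part of the quotient over `P` is the
disjoint union of two copies of the base, and one of them (that of `κ`) contains exactly the points
of one of the pairs; or `P` contains one of the two special markings, and exactly the points of the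
first pair. -/
def SepQ {N : Type} (m : N → V4) (u : V4) (t : Fin 4 → N × V4) (q : Fin 2 ⊕ Fin 2 ≃ Fin 4)
    (P : N → Prop) (ε : N → V4) : Prop :=
  ((∀ n, P n → Sub u (m n)) ∧
      ∃ κ : V4, Apart q (fun i => P (t i).1 ∧ Sub u ((t i).2 + ε (t i).1 + κ))) ∨
    (Nat.card {n // P n ∧ ¬ Sub u (m n)} = 1 ∧ (∀ j, P (t (q (Sum.inl j))).1) ∧
      ∀ j, ¬ P (t (q (Sum.inr j))).1)

/-- The covers with monodromy `m` are curves of genus one with an action of the Klein four-group,
and `t` acts without fixed points, that is, as translation by a point of order two. -/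
def Trans {N : Type} (m : N → V4) (t : V4) : Prop :=
  Adm m ∧ FullG m 1 ∧ t ≠ 0 ∧ ∀ n, m n ≠ t

/-- The points `s i` are over different markings: the unbranched ones. -/
def Unbr {N S : Type} (m : N → V4) (s : S → N × V4) : Prop :=
  Function.Injective (fun i => (s i).1) ∧ ∀ n, m n = 0 ↔ ∃ i, (s i).1 = n

/-- The points `s i` are over different markings: a branch point for `i = s₀`, and the unbranched
ones. -/
def Unbr1 {N S : Type} (m : N → V4) (s : S → N × V4) (s₀ : S) : Prop :=
  Function.Injective (fun i => (s i).1) ∧ m (s s₀).1 ≠ 0 ∧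
    ∀ n, m n = 0 ↔ ∃ i, i ≠ s₀ ∧ (s i).1 = n

namespace Klein

variable {T} (Q : T.Klein)

/-- The gluing maps are compatible with renaming the markings. Convention: `M 0 S` is a point if `S`
has one or two elements, and gluing with its element is the stabilised gluing. -/
structure Gluing : Prop where
  ren_refl : ∀ (g : ℕ) (S : Type), Q.ren rfl (Equiv.refl S) = 𝟙 (T.M g S)
  ren_glue : ∀ {g₁ g₁' g₂ g₂' g g' : ℕ} {I I' J J' R₁ R₂ S R₁' R₂' S' : Type}
    (h : g₁ + g₂ = g) (e₁ : Option I ≃ R₁) (e₂ : Option J ≃ R₂) (e : I ⊕ J ≃ S)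
    (h' : g₁' + g₂' = g') (e₁' : Option I' ≃ R₁') (e₂' : Option J' ≃ R₂') (e' : I' ⊕ J' ≃ S')
    (k₁ : g₁' = g₁) (k₂ : g₂' = g₂) (k : g = g') (f₁ : R₁' ≃ R₁) (f₂ : R₂' ≃ R₂) (f : S ≃ S')
    (a : I' ≃ I) (b : J' ≃ J), (∀ i, f₁ (e₁' i) = e₁ (i.map a)) → (∀ j, f₂ (e₂' j) = e₂ (j.map b)) →
    (∀ x, e' x = f (e (x.map a b))) →
    (Q.ren k₁ f₁ ⊗ₘ Q.ren k₂ f₂) ≫ T.glue h e₁ e₂ e ≫ Q.ren k f = T.glue h' e₁' e₂' e'
  /-- The same for the gluing of a curve to itself (for two unordered markings). -/
  ren_self : ∀ {g₁ g₁' g g' : ℕ} {S R S' R' : Type} (h : g₁ + 1 = g)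
    (e : Option (Option S) ≃ R) (h' : g₁' + 1 = g') (e' : Option (Option S') ≃ R')
    (k₁ : g₁' = g₁) (k : g = g') (f₁ : R' ≃ R) (f : S ≃ S'),
    (∀ s, f₁ (e' (some (some (f s)))) = e (some (some s))) →
    Q.ren k₁ f₁ ≫ T.self h e ≫ Q.ren k f = T.self h' e'
  /-- Gluing a rational curve with one more marking renames the marking. -/
  glue_two_left : ∀ {g₁ g : ℕ} {I J R₁ R₂ S : Type} (h : 0 + g₁ = g) (e₁ : Option I ≃ R₁)
    (e₂ : Option J ≃ R₂) (e : I ⊕ J ≃ S) (k : g₁ = g) (f : R₂ ≃ S), Nat.card I = 1 →
    (∀ i, f (e₂ none) = e (Sum.inl i)) → (∀ j, f (e₂ (some j)) = e (Sum.inr j)) →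
    T.glue h e₁ e₂ e = snd _ _ ≫ Q.ren k f
  glue_two_right : ∀ {g₁ g : ℕ} {I J R₁ R₂ S : Type} (h : g₁ + 0 = g) (e₁ : Option I ≃ R₁)
    (e₂ : Option J ≃ R₂) (e : I ⊕ J ≃ S) (k : g₁ = g) (f : R₁ ≃ S), Nat.card J = 1 →
    (∀ j, f (e₁ none) = e (Sum.inr j)) → (∀ i, f (e₁ (some i)) = e (Sum.inl i)) →
    T.glue h e₁ e₂ e = fst _ _ ≫ Q.ren k f
  /-- Gluing a rational curve without further marking forgets the marking. -/
  glue_one_left : ∀ {g₁ g : ℕ} {I J R₁ R₂ S : Type} (h : 0 + g₁ = g) (e₁ : Option I ≃ R₁)
    (e₂ : Option J ≃ R₂) (e : I ⊕ J ≃ S) (k : g₁ = g) (f : J ≃ S), IsEmpty I →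
    (∀ j, f j = e (Sum.inr j)) → T.glue h e₁ e₂ e = snd _ _ ≫ T.forget g₁ e₂ ≫ Q.ren k f

/-- The monodromies of the markings in `P` are in `{0, γ}`. The part of the cover over the component
of `P` consists of two copies (of `κ` and of `κ + δ`) of the cover with monodromy `lt e m γ`, each
glued at one point to the cover with monodromy `rt e m γ`. The genera are `p`, `p`, `q`. The
markings `I` are on the first copy, the markings `J` on the second one, the markings `L` on the
third curve. -/
def Tails : Prop :=
  ∀ {P R N I J L R₁ R₂ R₃ S : Type} (e : P ⊕ R ≃ N) (m ε : N → V4) (γ δ κ : V4)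
    {p q g : ℕ} (h : p + (p + q) = g) (s : S → N × V4) (f : I ⊕ (J ⊕ L) ≃ S)
    (e₁ : Option I ≃ R₁) (e₂ : Option J ≃ R₂) (e₃ : Option (Option L) ≃ R₃)
    (x : I → P × V4) (y : J → P × V4) (z : L → R × V4),
    Good m g s → Cut e m γ → ¬ Sub γ δ → CycG γ (lt e m γ) p → FullG (rt e m γ) q →
    (∀ i, s (f (Sum.inl i)) = (e (Sum.inl (x i).1), (x i).2) ∧
      Sub γ ((x i).2 + ε (e (Sum.inl (x i).1)) + κ)) →
    (∀ j, s (f (Sum.inr (Sum.inl j))) = (e (Sum.inl (y j).1), (y j).2) ∧
      ¬ Sub γ ((y j).2 + ε (e (Sum.inl (y j).1)) + κ)) →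
    (∀ l, s (f (Sum.inr (Sum.inr l))) = (e (Sum.inr (z l).1), (z l).2)) →
    Q.gl e m ε γ ≫ Q.cur m g s =
      (lift (Q.cur (lt e m γ) p (sd (fun i => ε (e (Sum.inl i)) + κ) x ∘ e₁.symm))
        (Q.cur (lt e m γ) p (sd (fun i => ε (e (Sum.inl i)) + κ + δ) y ∘ e₂.symm)) ⊗ₘ
       Q.cur (rt e m γ) q (sd2 (κ + δ) κ (fun i => ε (e (Sum.inr i))) z ∘ e₃.symm)) ≫
      (α_ _ _ _).hom ≫ (_ ◁ T.glue rfl e₂ e₃ (Equiv.refl (J ⊕ Option L))) ≫
      T.glue h e₁ (mid J L) f

/-- The covers over the two components of the base are connected, of genera `p` and `q`. They are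
glued at the two points `(none, 0)` and `(none, δ)` over the node. -/
def Pair : Prop :=
  ∀ {P R N I J R₁ R₂ S : Type} (e : P ⊕ R ≃ N) (m ε : N → V4) (γ δ : V4)
    {p q g' g : ℕ} (h : p + q = g') (h' : g' + 1 = g) (s : S → N × V4) (f : I ⊕ J ≃ S)
    (e₁ : Option (Option I) ≃ R₁) (e₂ : Option (Option J) ≃ R₂) (x : I → P × V4) (y : J → R × V4),
    Good m g s → Cut e m γ → γ ≠ 0 → ¬ Sub γ δ → FullG (lt e m γ) p → FullG (rt e m γ) q →
    (∀ i, s (f (Sum.inl i)) = (e (Sum.inl (x i).1), (x i).2)) →
    (∀ j, s (f (Sum.inr j)) = (e (Sum.inr (y j).1), (y j).2)) →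
    Q.gl e m ε γ ≫ Q.cur m g s =
      (Q.cur (lt e m γ) p (sd2 0 δ (fun i => ε (e (Sum.inl i))) x ∘ e₁.symm) ⊗ₘ
       Q.cur (rt e m γ) q (sd2 0 δ (fun i => ε (e (Sum.inr i))) y ∘ e₂.symm)) ≫
      T.glue h e₁ e₂ (Equiv.refl (Option I ⊕ Option J)) ≫ T.self h' (joint f)

/-- The boundary of the spaces of covers, and the loci in the moduli spaces of curves of genus one
that are images of spaces of covers. -/
structure Boundary : Prop where
  /-- The restriction of the cover to a boundary divisor: the cover has two tails. -/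
  tails : Q.Tails
  /-- The restriction of the cover to a boundary divisor: two curves glued at two points. -/
  pair : Q.Pair
  /-- The same if there are at most three branch points (the node included) on each component of the
  base: all components of the cover are rational. -/
  rational : ∀ {P R N S : Type} (e : P ⊕ R ≃ N) (m ε : N → V4) (γ : V4) {g : ℕ}
    (s : S → N × V4), Good m g s → Cut e m γ → br (lt e m γ) ≤ 3 → br (rt e m γ) ≤ 3 →
    ∃ (X : Sp) (a : _ ⟶ T.obj X) (b : T.obj X ⟶ T.M g S), X.Rat ∧ T.Path X (.M g S) b ∧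
      Q.gl e m ε γ ≫ Q.cur m g s = a ≫ b
  /-- The pull-back of a boundary point under the cross ratio of four markings of the base. -/
  crossB : ∀ {N : Type} (m : N → V4) (t : Fin 4 → N) (q : Fin 2 ⊕ Fin 2 ≃ Fin 4), Adm m →
    Full m → Function.Injective t →
    Q.Combo m (fun P _ => (∀ j, P (t (q (Sum.inl j)))) ∧ ∀ j, ¬ P (t (q (Sum.inr j))))
      (T.pl (Q.crossB m t) (T.pt q))
  /-- The pull-back of a boundary point under the cross ratio of four points of the quotient of the
  cover by `{0, u}`, a curve of genus zero because there are two markings `n` with `m n` not in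
  `{0, u}`. -/
  crossQ : ∀ {N : Type} (m : N → V4) (u : V4) (t : Fin 4 → N × V4) (q : Fin 2 ⊕ Fin 2 ≃ Fin 4),
    Adm m → Full m → u ≠ 0 → Nat.card {n // ¬ Sub u (m n)} = 2 →
    (∀ i j, i ≠ j → (t i).1 = (t j).1 → Sub u (m (t j).1) ∧ ¬ Sub u ((t i).2 + (t j).2)) →
    Q.Combo m (SepQ m u t q) (T.pl (Q.crossQ m u t) (T.pt q))

/-- The loci in the moduli spaces of curves of genus one that are images of spaces of covers. -/
structure Loci : Prop where
  /-- Forgetting a marking of the cover. -/
  cur_forget : ∀ {N S R : Type} (m : N → V4) (g : ℕ) (s : R → N × V4) (e : Option S ≃ R),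
    Good m g s → Stable g S →
    Q.cur m g s ≫ T.forget g e = Q.cur m g (fun i => s (e (some i)))
  /-- For three markings, the space of covers is of dimension zero and not empty. -/
  deg_pos : ∀ {N : Type} (m : N → V4), Adm m → Nat.card N = 3 → 0 < T.dg (on : A (Q.H N m))
  /-- Every elliptic curve with an origin and further points is the double cover of a projective line
  with four branch points, with one marking over one of them, and with further markings. -/
  ell_cover : ∀ {N S : Type} (m : N → V4) (u : V4) (s : S → N × V4) (s₀ : S), Adm m →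
    CycG u m 1 → Unbr1 m s s₀ → (∀ i, Sub u (s i).2) → T.Covers (Q.cur m 1 s)
  /-- Every elliptic curve with a point of order two and points `p s`, `p s + t` is obtained
  from a Klein four-group cover where `t` acts as the translation, and another element of
  the group as the reflection fixing `p s₀`. -/
  tor_cover : ∀ {N S : Type} (m : N → V4) (t : V4) (s : S → N × V4) (s₀ : S), Trans m t →
    Unbr1 m s s₀ → ∃ r : Q.H N m ⟶ T.Tor S, T.Covers r ∧ Q.cur m 1 (both s t) = r ≫ T.tor S
  /-- The same without a marking at a branch point, but with one more marking `o`, the fixed point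
  of a reflection: the universal curve over `Tor S`. -/
  univ_cover : ∀ {N S : Type} (m : N → V4) (t : V4) (s : S → N × V4) (o : N × V4), Trans m t →
    Nonempty S → m o.1 ≠ 0 → Unbr m s →
    ∃ k : ℚ, T.ps (Q.cur m 1 (fun i => Option.elim i o (both s t))) on =
      sc k (T.pl (T.forget 1 (Equiv.refl (Option (S ⊕ S)))) (T.ps (T.tor S) on))
  /-- The quotient by the group `{0, m n}` of order two is a double cover of a projective line. The
  points `(n, v)` and `(n, v + δ)` are ramification points of it. -/
  hur_cover : ∀ {N S : Type} (m : N → V4) (δ : V4) (n : N) (v : V4) (s : S → N × V4), Adm m →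
    FullG m 1 → m n ≠ 0 → ¬ Sub (m n) δ → Unbr m s →
    ∃ r : Q.H N m ⟶ T.Hur S, T.Covers r ∧
      Q.cur m 1 (fun i => Option.elim i (n, v) (fun i => Option.elim i (n, v + δ)
        (both s (m n)))) = r ≫ T.hur S

/-- Standard facts on gluing maps and on spaces of admissible covers. -/
structure Facts : Prop extends Gluing Q, Boundary Q, Loci Q

end Klein

end Theory

end Pool.Agent.HL2
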