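import Pool.Agent.HL2.Facts

/-!
# Basic consequences: products, gluing maps, small moduli spaces
-/

open CategoryTheory MonoidalCategory CartesianMonoidalCategory

namespace Pool.Agent.HL2

universe u v w


namespace Theory

variable {C : Type u} [Category.{v} C] [CartesianMonoidalCategory C]
  {A : C → CommAlgCat.{w} ℚ} {T : Theory A}

/-- A linear map sends `tau (.prod X Y)` into a submodule as soon as it sends the exterior products
of tautological classes there. -/
theorem tau_prod_induction {X Y : Sp} {V : Type*} [AddCommGroup V] [Module ℚ V]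
    (φ : A (T.obj (.prod X Y)) →ₗ[ℚ] V) (N : Submodule ℚ V)
    (h : ∀ a ∈ T.tau X, ∀ b ∈ T.tau Y, φ (T.ext a b) ∈ N) {u : A (T.obj (.prod X Y))}
    (hu : u ∈ T.tau (.prod X Y)) : φ u ∈ N := by
  unfold tau at hu
  induction hu using Submodule.span_induction with
  | mem x hx =>
    obtain ⟨a, ha, b, hb, rfl⟩ := hx
    exact h a ha b hb
  | zero => rw [map_zero]; exact zero_mem _
  | add x y _ _ hx hy => rw [map_add]; exact add_mem hx hy
  | smul r x _ hx => rw [map_smul]; exact Submodule.smul_mem _ _ hx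

/-- The fundamental class is tautological. -/
theorem one_mem_tau : ∀ {X : Sp}, X.St → (1 : A (T.obj X)) ∈ T.tau X
  | .M g S, h => by
    exact taut_mem_tau (Taut.one h)
  | .prod X Y, h => by
    have := ext_mem_tau (T := T) (one_mem_tau h.1) (one_mem_tau h.2)
    rwa [ext_one_one] at this

/-- Push-forward along a gluing map preserves tautological classes. -/
theorem push_edge {X Y : Sp} {f : T.obj X ⟶ T.obj Y} {c : A (T.obj X)} (h : T.Edge X Y f c) :
    ∀ a ∈ T.tau X, T.push f a ∈ T.tau Y := by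
  induction h with
  | @glue g₁ g₂ g I J R₁ R₂ S h e₁ e₂ e h₁ h₂ =>
    intro a ha
    refine tau_prod_induction (T := T) (T.push (T.glue h e₁ e₂ e)) (T.tau (.M g S)) ?_ ha
    intro a ha b hb
    exact taut_mem_tau (Taut.glue h e₁ e₂ e (taut_of_mem_tau h₁ ha) (taut_of_mem_tau h₂ hb))
  | @self g g' S R h e h₁ =>
    intro a ha
    exact taut_mem_tau (Taut.self h e (taut_of_mem_tau h₁ ha))
  | @left X Y Z f c hZ _ ih =>
    intro a ha
    refine tau_prod_induction (T := T) (T.push (f ▷ T.obj Z)) (T.tau (.prod Y Z)) ?_ ha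
    intro a ha b hb
    rw [push_whiskerRight]
    exact ext_mem_tau (ih a ha) hb
  | @right X Y Z f c hZ _ ih =>
    intro a ha
    refine tau_prod_induction (T := T) (T.push (T.obj Z ◁ f)) (T.tau (.prod Z Y)) ?_ ha
    intro a ha b hb
    rw [push_whiskerLeft]
    exact ext_mem_tau ha (ih b hb)

/-- The exterior products with tautological second factor. -/
def extSpan (T : Theory A) (Z : C) (X : Sp) : Submodule ℚ (A (Z ⊗ T.obj X)) :=
  Submodule.span ℚ {z | ∃ (b : A Z), ∃ a ∈ T.tau X, z = T.ext b a}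

theorem ext_mem_extSpan {Z : C} {X : Sp} (b : A Z) {a : A (T.obj X)} (ha : a ∈ T.tau X) :
    T.ext b a ∈ T.extSpan Z X := Submodule.subset_span ⟨b, a, ha, rfl⟩

theorem extSpan_induction {Z : C} {X : Sp} {V : Type*} [AddCommGroup V] [Module ℚ V]
    (φ : A (Z ⊗ T.obj X) →ₗ[ℚ] V) (N : Submodule ℚ V)
    (h : ∀ b, ∀ a ∈ T.tau X, φ (T.ext b a) ∈ N) {u : A (Z ⊗ T.obj X)}
    (hu : u ∈ T.extSpan Z X) : φ u ∈ N := by
  unfold extSpan at hu
  induction hu using Submodule.span_induction with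
  | mem x hx =>
    obtain ⟨b, a, ha, rfl⟩ := hx
    exact h b a ha
  | zero => rw [map_zero]; exact zero_mem _
  | add x y _ _ hx hy => rw [map_add]; exact add_mem hx hy
  | smul r x _ hx => rw [map_smul]; exact Submodule.smul_mem _ _ hx

theorem pull_assoc_inv {X Y Z : C} (a : A X) (b : A Y) (c : A Z) :
    T.pull (α_ X Y Z).inv (T.ext (T.ext a b) c) = T.ext a (T.ext b c) := by
  simp only [ext, map_mul, ← T.pull_comp]
  simp only [associator_inv_fst_fst, associator_inv_fst_snd, associator_inv_snd, mul_assoc]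

theorem pull_assoc_hom {X Y Z : C} (a : A X) (b : A Y) (c : A Z) :
    T.pull (α_ X Y Z).hom (T.ext a (T.ext b c)) = T.ext (T.ext a b) c := by
  rw [← pull_assoc_inv, ← T.pull_comp, Iso.hom_inv_id, T.pull_id]

/-- The Kuenneth property of products of small moduli spaces. -/
theorem kunneth' (F : T.Facts) : ∀ {X : Sp}, X.Small → ∀ (Z : C) (y : A (Z ⊗ T.obj X)),
    y ∈ T.extSpan Z X
  | .M g S, h, Z, y => F.kunneth g S h Z y
  | .prod X Y, h, Z, y => by
    have h1 : T.pull (α_ Z (T.obj X) (T.obj Y)).inv (T.pull (α_ Z (T.obj X) (T.obj Y)).hom y) = y := by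
      rw [← T.pull_comp, Iso.inv_hom_id, T.pull_id]
    rw [← h1]
    have h2 : T.pull (α_ Z (T.obj X) (T.obj Y)).hom y ∈ T.extSpan (Z ⊗ T.obj X) Y :=
      kunneth' F h.2 (Z ⊗ T.obj X) _
    refine extSpan_induction (T := T)
      (T.pull (α_ Z (T.obj X) (T.obj Y)).inv).toLinearMap (T.extSpan Z (.prod X Y)) ?_ h2
    intro b a ha
    have h3 : b ∈ T.extSpan Z X := kunneth' F h.1 Z b
    refine extSpan_induction (T := T)
      ((T.pull (α_ Z (T.obj X) (T.obj Y)).inv).toLinearMap ∘ₗ
        ((T.extL (Z ⊗ T.obj X) (T.obj Y)).flip a)) (T.extSpan Z (.prod X Y)) ?_ h3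
    intro b' a' ha'
    have h4 : ((T.pull (α_ Z (T.obj X) (T.obj Y)).inv).toLinearMap ∘ₗ
        ((T.extL (Z ⊗ T.obj X) (T.obj Y)).flip a)) (T.ext b' a')
        = T.pull (α_ Z (T.obj X) (T.obj Y)).inv (T.ext (T.ext b' a') a) := rfl
    rw [h4, pull_assoc_inv]
    exact ext_mem_extSpan b' (ext_mem_tau ha' ha)

/-- All classes on a product of small moduli spaces are tautological. -/
theorem mem_tau_of_small (F : T.Facts) {X : Sp} (h : X.Small) (y : A (T.obj X)) : y ∈ T.tau X := by
  have h1 : T.pull (snd (𝟙_ C) (T.obj X)) y ∈ T.extSpan (𝟙_ C) X := kunneth' F h _ _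
  have h2 : T.push (snd (𝟙_ C) (T.obj X)) (T.pull (snd (𝟙_ C) (T.obj X)) y) = y := by
    have h3 := T.proj_formula (snd (𝟙_ C) (T.obj X)) 1 y
    have h4 : T.push (snd (𝟙_ C) (T.obj X)) (1 : A (𝟙_ C ⊗ T.obj X)) = 1 := by
      have := T.push_iso (λ_ (T.obj X))
      rwa [leftUnitor_hom] at this
    rwa [mul_one, h4, mul_one] at h3
  rw [← h2]
  refine extSpan_induction (T := T) (T.push (snd (𝟙_ C) (T.obj X))) (T.tau X) ?_ h1
  intro b a ha
  rw [push_snd']
  exact Submodule.smul_mem _ _ ha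

end Theory

end Pool.Agent.HL2
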