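import Pool.Agent.HL2.Lemmas
import Pool.Agent.HL2.Klein

/-!
# Families with tautological class, and pencils
-/

open CategoryTheory MonoidalCategory CartesianMonoidalCategory

namespace Pool.Agent.HL2

universe u v w

namespace Theory

variable {C : Type u} [Category.{v} C] [CartesianMonoidalCategory C]
  {A : C → CommAlgCat.{w} ℚ} {T : Theory A}

/-- The push-forward of the fundamental class is tautological. -/
def Nice (T : Theory A) {D : C} (X : Sp) (f : D ⟶ T.obj X) : Prop := T.push f 1 ∈ T.tau X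

theorem nice_small (F : T.Facts) {D : C} {X : Sp} (h : X.Small) (f : D ⟶ T.obj X) :
    T.Nice X f := mem_tau_of_small F h _

theorem nice_prod {D D' : C} {X X' : Sp} {f : D ⟶ T.obj X} {f' : D' ⟶ T.obj X'}
    (h : T.Nice X f) (h' : T.Nice X' f') : T.Nice (.prod X X') (f ⊗ₘ f') := by
  unfold Nice
  rw [← ext_one_one D D', push_tensor']
  exact ext_mem_tau h h'

theorem nice_edge {D : C} {X Y : Sp} {f : D ⟶ T.obj X} {h : T.obj X ⟶ T.obj Y} {c : A (T.obj X)}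
    (hf : T.Nice X f) (hE : T.Edge X Y h c) : T.Nice Y (f ≫ h) := by
  unfold Nice
  rw [T.push_comp]
  exact push_edge hE _ hf

theorem nice_path {X Y : Sp} {h : T.obj X ⟶ T.obj Y} (hP : T.Path X Y h) :
    ∀ {D : C} {f : D ⟶ T.obj X}, T.Nice X f → T.Nice Y (f ≫ h) := by
  induction hP with
  | refl X => intro D f hf; rwa [Category.comp_id]
  | step hE _ ih =>
    intro D f hf
    rw [← Category.assoc]
    exact ih (nice_edge hf hE)

theorem nice_mul {D D' : C} {X : Sp} {f : D ⟶ T.obj X} (r : D' ⟶ D) {k : ℚ}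
    (hr : T.push r 1 = k • 1) (hf : T.Nice X f) : T.Nice X (r ≫ f) := by
  unfold Nice
  rw [T.push_comp, hr, map_smul]
  exact Submodule.smul_mem _ _ hf

theorem nice_cover {D D' : C} {X : Sp} {f : D ⟶ T.obj X} (r : D' ⟶ D) (hr : T.Covers r)
    (hf : T.Nice X f) : T.Nice X (r ≫ f) := by
  obtain ⟨k, _, hk⟩ := hr
  exact nice_mul r hk hf

theorem push_snd_one (X Y : C) : T.push (snd X Y) 1 = T.deg X 1 • (1 : A Y) := by
  rw [← ext_one_one X Y, push_snd']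

theorem push_fst_one (X Y : C) : T.push (fst X Y) 1 = T.deg Y 1 • (1 : A X) := by
  rw [← ext_one_one X Y, push_fst']

theorem nice_snd {D D' : C} {X : Sp} {f : D ⟶ T.obj X} (hf : T.Nice X f) :
    T.Nice X (snd D' D ≫ f) := nice_mul _ (push_snd_one D' D) hf

theorem nice_fst {D D' : C} {X : Sp} {f : D ⟶ T.obj X} (hf : T.Nice X f) :
    T.Nice X (fst D D' ≫ f) := nice_mul _ (push_fst_one D D') hf

theorem push_assoc_mem {X Y Z : Sp} {u : A (T.obj (.prod (.prod X Y) Z))}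
    (hu : u ∈ T.tau (.prod (.prod X Y) Z)) :
    T.push (α_ (T.obj X) (T.obj Y) (T.obj Z)).hom u ∈ T.tau (.prod X (.prod Y Z)) := by
  refine tau_prod_induction (T := T) (X := .prod X Y) (Y := Z)
    (T.push (α_ (T.obj X) (T.obj Y) (T.obj Z)).hom) (T.tau (.prod X (.prod Y Z))) ?_ hu
  intro a ha b hb
  refine tau_prod_induction (T := T) (X := X) (Y := Y)
    ((T.push (α_ (T.obj X) (T.obj Y) (T.obj Z)).hom) ∘ₗ
      ((T.extL (T.obj X ⊗ T.obj Y) (T.obj Z)).flip b)) (T.tau (.prod X (.prod Y Z))) ?_ ha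
  intro a' ha' b' hb'
  have h4 : ((T.push (α_ (T.obj X) (T.obj Y) (T.obj Z)).hom) ∘ₗ
      ((T.extL (T.obj X ⊗ T.obj Y) (T.obj Z)).flip b)) (T.ext a' b')
      = T.push (α_ (T.obj X) (T.obj Y) (T.obj Z)).hom (T.ext (T.ext a' b') b) := rfl
  rw [h4, push_iso_hom, pull_assoc_inv]
  exact ext_mem_tau ha' (ext_mem_tau hb' hb)

theorem nice_assoc {D : C} {X Y Z : Sp} {f : D ⟶ T.obj (.prod (.prod X Y) Z)}
    (hf : T.Nice (.prod (.prod X Y) Z) f) :
    T.Nice (.prod X (.prod Y Z)) (f ≫ (α_ (T.obj X) (T.obj Y) (T.obj Z)).hom) := by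
  unfold Nice
  rw [T.push_comp]
  exact push_assoc_mem hf

theorem nice_univ (F : T.Facts) {D D' : C} {g : ℕ} {S R : Type} {f : D ⟶ T.M g S}
    (h : Stable g S) (e : Option S ≃ R) (f' : D' ⟶ T.M g R) (k : ℚ)
    (hk : T.ps f' on = sc k (T.pl (T.forget g e) (T.ps f on))) (hf : T.Nice (.M g S) f) :
    T.Nice (.M g R) f' := by
  have hk' : T.push f' 1 = k • T.pull (T.forget g e) (T.push f 1) := hk
  unfold Nice
  change T.push f' 1 ∈ _
  rw [hk']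
  exact Submodule.smul_mem _ _ (F.tau_forget e h _ hf)

theorem rat_small : ∀ {X : Sp}, X.Rat → X.Small
  | .M _ _, h => ⟨h.1, Or.inl h.2⟩
  | .prod _ _, h => ⟨rat_small h.1, rat_small h.2⟩

theorem covers_comp {X Y Z : C} {r : X ⟶ Y} {r' : Y ⟶ Z} (h : T.Covers r) (h' : T.Covers r') :
    T.Covers (r ≫ r') := by
  obtain ⟨k, hk, h⟩ := h
  obtain ⟨k', hk', h'⟩ := h'
  exact ⟨k * k', mul_pos hk hk', by rw [T.push_comp, h, map_smul, h', smul_smul]⟩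

/-- The main conclusion from a pencil: if some components of one fibre push forward to
positive multiples of a class `y` and all the others, and the components of the other
fibre, to elements of a subspace `M`, then `y` lies in `M`. -/
theorem pencil_main (F : T.Facts) {W X : C} (lam : W ⟶ T.M 0 (Fin 4)) (q : W ⟶ X)
    (e₀ e₁ : Fin 2 ⊕ Fin 2 ≃ Fin 4) {ι₀ ι₁ : Type} [Finite ι₀] [Finite ι₁]
    (D₀ : ι₀ → C) (D₁ : ι₁ → C) (inc₀ : ∀ i, D₀ i ⟶ W) (inc₁ : ∀ i, D₁ i ⟶ W)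
    (c₀ : ι₀ → ℚ) (c₁ : ι₁ → ℚ) (hc₀ : ∀ i, 0 < c₀ i)
    (h₀ : T.pull lam (T.pt e₀) = ∑ᶠ i, c₀ i • T.push (inc₀ i) 1)
    (h₁ : T.pull lam (T.pt e₁) = ∑ᶠ i, c₁ i • T.push (inc₁ i) 1)
    (y : A X) (M : Submodule ℚ (A X))
    (h0 : ∀ i, (∃ k : ℚ, 0 < k ∧ T.push (inc₀ i ≫ q) 1 = k • y) ∨ T.push (inc₀ i ≫ q) 1 ∈ M)
    (h1 : ∃ i, ∃ k : ℚ, 0 < k ∧ T.push (inc₀ i ≫ q) 1 = k • y)
    (h2 : ∀ i, T.push (inc₁ i ≫ q) 1 ∈ M) : y ∈ M := by
  classical
  have := Fintype.ofFinite ι₀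
  have := Fintype.ofFinite ι₁
  rw [finsum_eq_sum_of_fintype] at h₀ h₁
  have hrel : ∑ i, c₀ i • T.push (inc₀ i ≫ q) 1 = ∑ i, c₁ i • T.push (inc₁ i ≫ q) 1 := by
    have h : T.pull lam (T.pt e₀) = T.pull lam (T.pt e₁) := by rw [F.wdvv e₀ e₁]
    rw [h₀, h₁] at h
    have h2 := congrArg (T.push q) h
    simpa only [map_sum, map_smul, ← T.push_comp] using h2
  have key : ∀ s : Finset ι₀, ∃ k : ℚ, 0 ≤ k ∧
      (∑ i ∈ s, c₀ i • T.push (inc₀ i ≫ q) 1) - k • y ∈ M := by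
    intro s
    induction s using Finset.induction_on with
    | empty => exact ⟨0, le_refl _, by simp⟩
    | insert i s hi ih =>
      obtain ⟨k, hk, hk'⟩ := ih
      rw [Finset.sum_insert hi]
      rcases h0 i with ⟨k', hk1, hk2⟩ | hN
      · refine ⟨c₀ i * k' + k, by have := hc₀ i; positivity, ?_⟩
        rw [hk2, smul_smul, add_smul]
        convert hk' using 1
        abel
      · refine ⟨k, hk, ?_⟩
        have := add_mem (Submodule.smul_mem M (c₀ i) hN) hk'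
        convert this using 1
        abel
  obtain ⟨i, k, hk, hy⟩ := h1
  obtain ⟨k', hk', hN⟩ := key (Finset.univ.erase i)
  have hsum : c₀ i • T.push (inc₀ i ≫ q) 1 +
      ∑ j ∈ Finset.univ.erase i, c₀ j • T.push (inc₀ j ≫ q) 1
      = ∑ j, c₁ j • T.push (inc₁ j ≫ q) 1 := by
    rw [← hrel]
    exact Finset.add_sum_erase _ (fun j => c₀ j • T.push (inc₀ j ≫ q) 1) (Finset.mem_univ i)
  have hR : ∑ j, c₁ j • T.push (inc₁ j ≫ q) 1 ∈ M :=
    Submodule.sum_mem _ (fun j _ => Submodule.smul_mem _ _ (h2 j))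
  have hpos : 0 < c₀ i * k + k' := by
    have := hc₀ i
    positivity
  have hmem : (c₀ i * k + k') • y ∈ M := by
    have h3 : (c₀ i * k + k') • y
        = (∑ j, c₁ j • T.push (inc₁ j ≫ q) 1)
          - ((∑ j ∈ Finset.univ.erase i, c₀ j • T.push (inc₀ j ≫ q) 1) - k' • y) := by
      rw [← hsum, hy, add_smul, smul_smul]
      abel
    rw [h3]
    exact sub_mem hR hN
  have h4 := Submodule.smul_mem M (c₀ i * k + k')⁻¹ hmem
  rwa [smul_smul, inv_mul_cancel₀ hpos.ne', one_smul] at h4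

/-- Replace the boundary map by the gluing map. -/
theorem bd_elim (Q : T.Klein) {N : Type} (m : N → V4) (P : N → Prop) (ε : N → V4) {γ : V4}
    (hγ : ∑ᶠ p : {n // P n}, m p.1 = γ) (Pr : ∀ {D : C}, (D ⟶ Q.H N m) → Prop)
    (h : Pr (open Classical in Q.gl (Equiv.sumCompl P) m ε γ)) : Pr (Q.bd m P ε) := by
  subst hγ
  exact h

/-- The same for a space of covers. -/
theorem pencil (F : T.Facts) (Q : T.Klein) {N : Type} [Finite N] (m : N → V4)
    (lam : Q.H N m ⟶ T.M 0 (Fin 4)) {X : Sp} (q : Q.H N m ⟶ T.obj X)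
    (e₀ e₁ : Fin 2 ⊕ Fin 2 ≃ Fin 4) (B₀ B₁ : (N → Prop) → (N → V4) → Prop)
    (h₀ : Q.Combo m B₀ (T.pl lam (T.pt e₀))) (h₁ : Q.Combo m B₁ (T.pl lam (T.pt e₁)))
    {Y : C} (main : Y ⟶ T.obj X)
    (h0 : ∀ P ε, Two P → B₀ P ε → (∃ r, T.Covers r ∧ Q.bd m P ε ≫ q = r ≫ main) ∨
      T.Nice X (Q.bd m P ε ≫ q))
    (h1 : ∃ P ε, Two P ∧ B₀ P ε ∧ ∃ r, T.Covers r ∧ Q.bd m P ε ≫ q = r ≫ main)
    (h2 : ∀ P ε, Two P → B₁ P ε → T.Nice X (Q.bd m P ε ≫ q)) : T.Nice X main := by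
  obtain ⟨c₀, hc₀, h₀⟩ := h₀
  obtain ⟨c₁, hc₁, h₁⟩ := h₁
  refine pencil_main F lam q e₀ e₁ _ _ _ _ c₀ c₁ hc₀ h₀ h₁ _ (T.tau X) ?_ ?_ ?_
  · rintro ⟨⟨P, ε⟩, h, hB⟩
    rcases h0 P ε h hB with ⟨r, ⟨k, hk, hr⟩, hq⟩ | hN
    · left
      exact ⟨k, hk, by rw [hq, T.push_comp, hr, map_smul]⟩
    · exact Or.inr hN
  · obtain ⟨P, ε, h, hB, r, ⟨k, hk, hr⟩, hq⟩ := h1
    exact ⟨⟨⟨P, ε⟩, h, hB⟩, k, hk, by rw [hq, T.push_comp, hr, map_smul]⟩
  · rintro ⟨⟨P, ε⟩, h, hB⟩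
    exact h2 P ε h hB

end Theory

end Pool.Agent.HL2
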