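import Pool.Agent.HL2.Nice

/-!
# Curves with two tails, and curves of two components glued at two points
-/

open CategoryTheory MonoidalCategory CartesianMonoidalCategory

namespace Pool.Agent.HL2

universe u v w

namespace Theory

variable {C : Type u} [Category.{v} C] [CartesianMonoidalCategory C]
  {A : C → CommAlgCat.{w} ℚ} {T : Theory A}

theorem card_option' (X : Type) [Finite X] : Nat.card (Option X) = Nat.card X + 1 := by
  have := Fintype.ofFinite X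
  rw [Nat.card_eq_fintype_card, Nat.card_eq_fintype_card, Fintype.card_option]

theorem finite_of_option {X R : Type} (e : Option X ≃ R) [Finite R] : Finite X := by
  have : Finite (Option X) := Finite.of_equiv R e.symm
  exact Finite.of_injective (fun x => (some x : Option X)) (Option.some_injective X)

/-- Both copies stable. -/
theorem tails_nice (F : T.Facts) {W W' : C} {I J L R₁ R₂ R₃ S : Type} {p q g : ℕ}
    (h : p + (p + q) = g) (f : I ⊕ (J ⊕ L) ≃ S)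
    (e₁ : Option I ≃ R₁) (e₂ : Option J ≃ R₂) (e₃ : Option (Option L) ≃ R₃)
    (c₁ : W ⟶ T.M p R₁) (c₂ : W ⟶ T.M p R₂) (c₃ : W' ⟶ T.M q R₃)
    (h₁ : (Sp.M p R₁).Small) (h₂ : (Sp.M p R₂).Small) (h₃ : Stable q R₃)
    (hc₃ : T.Nice (.M q R₃) c₃) :
    T.Nice (.M g S) ((lift c₁ c₂ ⊗ₘ c₃) ≫ (α_ _ _ _).hom ≫
      (_ ◁ T.glue rfl e₂ e₃ (Equiv.refl (J ⊕ Option L))) ≫ T.glue h e₁ (mid J L) f) := by
  have n1 : T.Nice (.prod (.M p R₁) (.M p R₂)) (lift c₁ c₂) :=
    nice_small (X := .prod (.M p R₁) (.M p R₂)) F ⟨h₁, h₂⟩ _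
  have n2 := nice_prod n1 hc₃
  have n3 := nice_assoc n2
  have E1 := Edge.right (T := T) (Z := .M p R₁) h₁.1
    (Edge.glue rfl e₂ e₃ (Equiv.refl (J ⊕ Option L)) h₂.1 h₃)
  have n4 := nice_edge n3 E1
  have hst : Stable (p + q) (J ⊕ Option L) := by
    have := h₂.1.1
    have := h₃.1
    have hJ : Finite J := finite_of_option e₂
    have hL' : Finite (Option L) := finite_of_option e₃
    have hL : Finite L := finite_of_option (Equiv.refl (Option L))
    have hc2 := h₂.1.2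
    have hc3 := h₃.2
    rw [← Nat.card_congr e₂, card_option'] at hc2
    rw [← Nat.card_congr e₃, card_option', card_option'] at hc3
    refine ⟨inferInstance, ?_⟩
    rw [Nat.card_sum, card_option']
    omega
  have E2 := Edge.glue (T := T) h e₁ (mid J L) f h₁.1 hst
  have n5 := nice_edge n4 E2
  simpa only [Category.assoc] using n5

theorem glue_ren_right {Q : T.Klein} (K : Q.Facts) {I J R₁ R₂ R₂' S : Type} {g₁ g₂ g₂' g : ℕ}
    (h : g₁ + g₂ = g) (e₁ : Option I ≃ R₁) (e₂ : Option J ≃ R₂) (e : I ⊕ J ≃ S)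
    (k : g₂' = g₂) (f : R₂' ≃ R₂) {W W' : C} (c₁ : W ⟶ T.M g₁ R₁) (c₂ : W' ⟶ T.M g₂' R₂') :
    (c₁ ⊗ₘ (c₂ ≫ Q.ren k f)) ≫ T.glue h e₁ e₂ e =
      (c₁ ⊗ₘ c₂) ≫ T.glue (by omega) e₁ (e₂.trans f.symm) e := by
  have h1 := K.ren_glue h e₁ e₂ e (by omega) e₁ (e₂.trans f.symm) e rfl k rfl (Equiv.refl _) f
    (Equiv.refl _) (Equiv.refl _) (Equiv.refl _) (fun i => by cases i <;> rfl)
    (fun j => by cases j <;> simp) (fun x => by cases x <;> rfl)
  rw [K.ren_refl, K.ren_refl, Category.comp_id] at h1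
  have h2 : (c₁ ⊗ₘ (c₂ ≫ Q.ren k f)) = (c₁ ⊗ₘ c₂) ≫ (𝟙 _ ⊗ₘ Q.ren k f) := by
    ext <;> simp
  rw [h2, Category.assoc, h1]

theorem glue_ren_left {Q : T.Klein} (K : Q.Facts) {I J R₁ R₁' R₂ S : Type} {g₁ g₁' g₂ g : ℕ}
    (h : g₁ + g₂ = g) (e₁ : Option I ≃ R₁) (e₂ : Option J ≃ R₂) (e : I ⊕ J ≃ S)
    (k : g₁' = g₁) (f : R₁' ≃ R₁) {W W' : C} (c₁ : W ⟶ T.M g₁' R₁') (c₂ : W' ⟶ T.M g₂ R₂) :
    ((c₁ ≫ Q.ren k f) ⊗ₘ c₂) ≫ T.glue h e₁ e₂ e =
      (c₁ ⊗ₘ c₂) ≫ T.glue (by omega) (e₁.trans f.symm) e₂ e := by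
  have h1 := K.ren_glue h e₁ e₂ e (by omega) (e₁.trans f.symm) e₂ e k rfl rfl f (Equiv.refl _)
    (Equiv.refl _) (Equiv.refl _) (Equiv.refl _) (fun j => by cases j <;> simp)
    (fun i => by cases i <;> rfl) (fun x => by cases x <;> rfl)
  rw [K.ren_refl, K.ren_refl, Category.comp_id] at h1
  have h2 : ((c₁ ≫ Q.ren k f) ⊗ₘ c₂) = (c₁ ⊗ₘ c₂) ≫ (Q.ren k f ⊗ₘ 𝟙 _) := by
    ext <;> simp
  rw [h2, Category.assoc, h1]

theorem lift_assoc {W W' X Y Z Z' : C} (c₁ : W ⟶ X) (c₂ : W ⟶ Y) (c₃ : W' ⟶ Z) (r : Z ⟶ Z') :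
    (lift c₁ c₂ ⊗ₘ c₃) ≫ (α_ _ _ _).hom ≫ (X ◁ (snd Y Z ≫ r)) = (c₁ ⊗ₘ (c₃ ≫ r)) := by
  ext <;> simp

/-- The equivalence of `glue_two_left`. -/
def two {I J R S : Type} (e₂ : Option J ≃ R) (e : I ⊕ J ≃ S) (i : I) (hi : ∀ i', i' = i) :
    R ≃ S where
  toFun r := match e₂.symm r with
    | none => e (Sum.inl i)
    | some j => e (Sum.inr j)
  invFun s := match e.symm s with
    | Sum.inl _ => e₂ none
    | Sum.inr j => e₂ (some j)
  left_inv r := by
    obtain ⟨x, rfl⟩ := e₂.surjective r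
    rcases x with _ | j <;> simp
  right_inv s := by
    obtain ⟨x, rfl⟩ := e.surjective s
    rcases x with i' | j
    · simp [hi i']
    · simp

theorem two_none {I J R S : Type} (e₂ : Option J ≃ R) (e : I ⊕ J ≃ S) (i : I)
    (hi : ∀ i', i' = i) : two e₂ e i hi (e₂ none) = e (Sum.inl i) := by simp [two]

theorem two_some {I J R S : Type} (e₂ : Option J ≃ R) (e : I ⊕ J ≃ S) (i : I)
    (hi : ∀ i', i' = i) (j : J) : two e₂ e i hi (e₂ (some j)) = e (Sum.inr j) := by simp [two]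

theorem card_one {I : Type} (i : I) (hi : ∀ i', i' = i) : Nat.card I = 1 := by
  have : Subsingleton I := ⟨fun a b => by rw [hi a, hi b]⟩
  have : Nonempty I := ⟨i⟩
  exact Nat.card_eq_one_iff_unique.2 ⟨inferInstance, inferInstance⟩

/-- The second copy is rational with only one marking. -/
theorem tails_one {Q : T.Klein} (K : Q.Facts) {W W' : C} {I J L R₁ R₂ R₃ S : Type} {q g : ℕ}
    (h : 0 + (0 + q) = g) (f : I ⊕ (J ⊕ L) ≃ S)
    (e₁ : Option I ≃ R₁) (e₂ : Option J ≃ R₂) (e₃ : Option (Option L) ≃ R₃)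
    (c₁ : W ⟶ T.M 0 R₁) (c₂ : W ⟶ T.M 0 R₂) (c₃ : W' ⟶ T.M q R₃) (j : J) (hj : ∀ j', j' = j) :
    (lift c₁ c₂ ⊗ₘ c₃) ≫ (α_ _ _ _).hom ≫
      (_ ◁ T.glue rfl e₂ e₃ (Equiv.refl (J ⊕ Option L))) ≫ T.glue h e₁ (mid J L) f =
    (c₁ ⊗ₘ c₃) ≫ T.glue (by omega) e₁
      ((mid J L).trans (two e₃ (Equiv.refl (J ⊕ Option L)) j hj).symm) f := by
  have h1 := K.glue_two_left (I := J) (g₁ := q) (g := 0 + q) rfl e₂ e₃
    (Equiv.refl (J ⊕ Option L)) (by omega)
    (two e₃ (Equiv.refl (J ⊕ Option L)) j hj) (card_one j hj)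
    (fun i => by rw [hj i]; exact two_none _ _ _ _) (fun l => two_some _ _ _ _ _)
  rw [h1]
  have h2 := lift_assoc c₁ c₂ c₃ (Q.ren (by omega : q = 0 + q)
    (two e₃ (Equiv.refl (J ⊕ Option L)) j hj))
  have h3 := congrArg (· ≫ T.glue h e₁ (mid J L) f) h2
  simp only [Category.assoc] at h3
  rw [h3, glue_ren_right K]

/-- The second copy is rational without marking. -/
theorem tails_zero {Q : T.Klein} (K : Q.Facts) {W W' : C} {I J L R₁ R₂ R₃ S : Type} {q g : ℕ}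
    (h : 0 + (0 + q) = g) (f : I ⊕ (J ⊕ L) ≃ S)
    (e₁ : Option I ≃ R₁) (e₂ : Option J ≃ R₂) (e₃ : Option (Option L) ≃ R₃)
    (c₁ : W ⟶ T.M 0 R₁) (c₂ : W ⟶ T.M 0 R₂) (c₃ : W' ⟶ T.M q R₃) [IsEmpty J] :
    (lift c₁ c₂ ⊗ₘ c₃) ≫ (α_ _ _ _).hom ≫
      (_ ◁ T.glue rfl e₂ e₃ (Equiv.refl (J ⊕ Option L))) ≫ T.glue h e₁ (mid J L) f =
    (c₁ ⊗ₘ (c₃ ≫ T.forget q e₃)) ≫ T.glue (by omega) e₁
      ((mid J L).trans (Equiv.emptySum J (Option L))) f := by
  have h1 := K.glue_one_left (I := J) (g₁ := q) (g := 0 + q) rfl e₂ e₃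
    (Equiv.refl (J ⊕ Option L)) (by omega) (Equiv.emptySum J (Option L)).symm inferInstance
    (fun l => rfl)
  rw [h1]
  have h2 := lift_assoc c₁ c₂ c₃ (T.forget q e₃ ≫ Q.ren (by omega : q = 0 + q)
    (Equiv.emptySum J (Option L)).symm)
  have h3 := congrArg (· ≫ T.glue h e₁ (mid J L) f) h2
  simp only [Category.assoc] at h3
  rw [h3, ← Category.assoc c₃, glue_ren_right K]
  rfl

/-- Both copies are rational with only one marking. -/
theorem tails_main {Q : T.Klein} (K : Q.Facts) {W W' : C} {I J L R₁ R₂ R₃ S : Type} {q : ℕ}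
    (h : 0 + (0 + q) = q) (f : I ⊕ (J ⊕ L) ≃ S)
    (e₁ : Option I ≃ R₁) (e₂ : Option J ≃ R₂) (e₃ : Option (Option L) ≃ R₃)
    (c₁ : W ⟶ T.M 0 R₁) (c₂ : W ⟶ T.M 0 R₂) (c₃ : W' ⟶ T.M q R₃) (i : I) (hi : ∀ i', i' = i)
    (j : J) (hj : ∀ j', j' = j) (k : R₃ ≃ S) (k0 : k (e₃ none) = f (Sum.inr (Sum.inl j)))
    (k1 : k (e₃ (some none)) = f (Sum.inl i))
    (k2 : ∀ l, k (e₃ (some (some l))) = f (Sum.inr (Sum.inr l))) :
    (lift c₁ c₂ ⊗ₘ c₃) ≫ (α_ _ _ _).hom ≫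
      (_ ◁ T.glue rfl e₂ e₃ (Equiv.refl (J ⊕ Option L))) ≫ T.glue h e₁ (mid J L) f =
    snd W W' ≫ c₃ ≫ Q.ren rfl k := by
  rw [tails_one K h f e₁ e₂ e₃ c₁ c₂ c₃ j hj]
  have h1 := K.glue_two_left (I := I) (g₁ := q) (g := q) (by omega) e₁
    ((mid J L).trans (two e₃ (Equiv.refl (J ⊕ Option L)) j hj).symm) f rfl k (card_one i hi) ?_ ?_
  · rw [h1, ← Category.assoc, tensorHom_snd, Category.assoc]
  · intro i'
    rw [hi i', ← k1]
    simp only [Equiv.trans_apply]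
    congr 1
  · rintro (j' | l)
    · rw [hj j', ← k0]
      simp only [Equiv.trans_apply]
      congr 1
    · rw [← k2]
      simp only [Equiv.trans_apply]
      congr 1

/-- Two components glued at two points, both stable. -/
theorem pair_nice {W W' : C} {I J R₁ R₂ S : Type} {p q g' g : ℕ}
    (h : p + q = g') (h' : g' + 1 = g) (f : I ⊕ J ≃ S)
    (e₁ : Option (Option I) ≃ R₁) (e₂ : Option (Option J) ≃ R₂)
    (c₁ : W ⟶ T.M p R₁) (c₂ : W' ⟶ T.M q R₂) (h₁ : Stable p R₁) (h₂ : Stable q R₂)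
    (n₁ : T.Nice (.M p R₁) c₁) (n₂ : T.Nice (.M q R₂) c₂) :
    T.Nice (.M g S) ((c₁ ⊗ₘ c₂) ≫ T.glue h e₁ e₂ (Equiv.refl (Option I ⊕ Option J)) ≫
      T.self h' (joint f)) := by
  have n := nice_prod n₁ n₂
  have E1 := Edge.glue (T := T) h e₁ e₂ (Equiv.refl (Option I ⊕ Option J)) h₁ h₂
  have hst : Stable g' (Option I ⊕ Option J) := by
    have := h₁.1
    have := h₂.1
    have hI : Finite (Option I) := finite_of_option e₁
    have hJ : Finite (Option J) := finite_of_option e₂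
    have hI' : Finite I := finite_of_option (Equiv.refl (Option I))
    have hJ' : Finite J := finite_of_option (Equiv.refl (Option J))
    have hc1 := h₁.2
    have hc2 := h₂.2
    rw [← Nat.card_congr e₁, card_option', card_option'] at hc1
    rw [← Nat.card_congr e₂, card_option', card_option'] at hc2
    refine ⟨inferInstance, ?_⟩
    rw [Nat.card_sum, card_option', card_option']
    omega
  have E2 := Edge.self (T := T) h' (joint f) hst
  have n5 := nice_edge (nice_edge n E1) E2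
  simpa only [Category.assoc] using n5

/-- The first component is rational without marking. -/
theorem pair_left {Q : T.Klein} (K : Q.Facts) {W W' : C} {I J R₁ R₂ S : Type} {q g' g : ℕ}
    (h : 0 + q = g') (h' : g' + 1 = g) (f : I ⊕ J ≃ S)
    (e₁ : Option (Option I) ≃ R₁) (e₂ : Option (Option J) ≃ R₂)
    (c₁ : W ⟶ T.M 0 R₁) (c₂ : W' ⟶ T.M q R₂) (hI : IsEmpty I) (h₂ : Stable q R₂)
    (n₂ : T.Nice (.M q R₂) c₂) :
    T.Nice (.M g S) ((c₁ ⊗ₘ c₂) ≫ T.glue h e₁ e₂ (Equiv.refl (Option I ⊕ Option J)) ≫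
      T.self h' (joint f)) := by
  have hq : q = g' := by omega
  subst hq
  have hn : ∀ i' : Option I, i' = none := fun i' => by
    rcases i' with _ | i
    · rfl
    · exact (hI.false i).elim
  let ρ := two e₂ (Equiv.refl (Option I ⊕ Option J)) none hn
  have h1 := K.glue_two_left h e₁ e₂ (Equiv.refl (Option I ⊕ Option J)) rfl ρ (card_one none hn)
    (fun i => by rw [hn i]; exact two_none _ _ _ _) (fun l => two_some _ _ _ _ _)
  have h2 : (c₁ ⊗ₘ c₂) ≫ T.glue h e₁ e₂ (Equiv.refl (Option I ⊕ Option J)) ≫ T.self h' (joint f)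
      = snd W W' ≫ c₂ ≫ T.self h' ((joint f).trans ρ.symm) := by
    have h3 := K.ren_self h' (joint f) h' ((joint f).trans ρ.symm) rfl rfl ρ (Equiv.refl S)
      (fun s => by simp)
    rw [K.ren_refl, Category.comp_id] at h3
    rw [h1, ← h3]
    simp
  rw [h2]
  exact nice_snd (nice_edge n₂ (Edge.self h' ((joint f).trans ρ.symm) h₂))

/-- The equivalence of `glue_two_right`. -/
def twor {I J R S : Type} (e₁ : Option I ≃ R) (e : I ⊕ J ≃ S) (j : J) (hj : ∀ j', j' = j) :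
    R ≃ S where
  toFun r := match e₁.symm r with
    | none => e (Sum.inr j)
    | some i => e (Sum.inl i)
  invFun s := match e.symm s with
    | Sum.inr _ => e₁ none
    | Sum.inl i => e₁ (some i)
  left_inv r := by
    obtain ⟨x, rfl⟩ := e₁.surjective r
    rcases x with _ | j <;> simp
  right_inv s := by
    obtain ⟨x, rfl⟩ := e.surjective s
    rcases x with j | i'
    · simp
    · simp [hj i']

theorem twor_none {I J R S : Type} (e₁ : Option I ≃ R) (e : I ⊕ J ≃ S) (j : J)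
    (hj : ∀ j', j' = j) : twor e₁ e j hj (e₁ none) = e (Sum.inr j) := by simp [twor]

theorem twor_some {I J R S : Type} (e₁ : Option I ≃ R) (e : I ⊕ J ≃ S) (j : J)
    (hj : ∀ j', j' = j) (i : I) : twor e₁ e j hj (e₁ (some i)) = e (Sum.inl i) := by simp [twor]

/-- The second component is rational without marking. -/
theorem pair_right {Q : T.Klein} (K : Q.Facts) {W W' : C} {I J R₁ R₂ S : Type} {p g' g : ℕ}
    (h : p + 0 = g') (h' : g' + 1 = g) (f : I ⊕ J ≃ S)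
    (e₁ : Option (Option I) ≃ R₁) (e₂ : Option (Option J) ≃ R₂)
    (c₁ : W ⟶ T.M p R₁) (c₂ : W' ⟶ T.M 0 R₂) (hJ : IsEmpty J) (h₁ : Stable p R₁)
    (n₁ : T.Nice (.M p R₁) c₁) :
    T.Nice (.M g S) ((c₁ ⊗ₘ c₂) ≫ T.glue h e₁ e₂ (Equiv.refl (Option I ⊕ Option J)) ≫
      T.self h' (joint f)) := by
  have hp : p = g' := by omega
  subst hp
  have hn : ∀ i' : Option J, i' = none := fun i' => by
    rcases i' with _ | i
    · rfl
    · exact (hJ.false i).elim
  let ρ := twor e₁ (Equiv.refl (Option I ⊕ Option J)) none hn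
  have h1 := K.glue_two_right h e₁ e₂ (Equiv.refl (Option I ⊕ Option J)) rfl ρ (card_one none hn)
    (fun i => by rw [hn i]; exact twor_none _ _ _ _) (fun l => twor_some _ _ _ _ _)
  have h2 : (c₁ ⊗ₘ c₂) ≫ T.glue h e₁ e₂ (Equiv.refl (Option I ⊕ Option J)) ≫ T.self h' (joint f)
      = fst W W' ≫ c₁ ≫ T.self h' ((joint f).trans ρ.symm) := by
    have h3 := K.ren_self h' (joint f) h' ((joint f).trans ρ.symm) rfl rfl ρ (Equiv.refl S)
      (fun s => by simp)
    rw [K.ren_refl, Category.comp_id] at h3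
    rw [h1, ← h3]
    simp
  rw [h2]
  exact nice_fst (nice_edge n₁ (Edge.self h' ((joint f).trans ρ.symm) h₁))

/-- Two equal copies are glued at a point: the third curve is rational without marking. -/
theorem tails_twins {Q : T.Klein} (K : Q.Facts) {W W' : C} {I L S : Type} {R₃ : Type}
    [IsEmpty L] {p g : ℕ} (h : p + (p + 0) = g) (h' : p + p = g) (f : I ⊕ (I ⊕ L) ≃ S)
    (e₃ : Option (Option L) ≃ R₃) (τ : I ⊕ I ≃ S) (hτ : ∀ i, τ (Sum.inl i) = f (Sum.inl i))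
    (hτ' : ∀ i, τ (Sum.inr i) = f (Sum.inr (Sum.inl i)))
    (c : W ⟶ T.M p (Option I)) (c₃ : W' ⟶ T.M 0 R₃) :
    (lift c c ⊗ₘ c₃) ≫ (α_ _ _ _).hom ≫
      (_ ◁ T.glue rfl (Equiv.refl (Option I)) e₃ (Equiv.refl (I ⊕ Option L))) ≫
      T.glue h (Equiv.refl (Option I)) (mid I L) f =
    fst W W' ≫ c ≫ lift (𝟙 _) (𝟙 _) ≫
      T.glue h' (Equiv.refl (Option I)) (Equiv.refl (Option I)) (Equiv.refl (I ⊕ I)) ≫
      Q.ren rfl τ := by
  have hn : ∀ i' : Option L, i' = none := fun i' => by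
    rcases i' with _ | i
    · rfl
    · exact (IsEmpty.false i).elim
  let ρ := twor (Equiv.refl (Option I)) (Equiv.refl (I ⊕ Option L)) none hn
  have h1 := K.glue_two_right (g₁ := p) (g := p + 0) rfl (Equiv.refl (Option I)) e₃
    (Equiv.refl (I ⊕ Option L)) (by omega) ρ (card_one none hn)
    (fun i => by rw [hn i]; exact twor_none _ _ _ _) (fun l => twor_some _ _ _ _ _)
  rw [h1]
  have h2 : (lift c c ⊗ₘ c₃) ≫ (α_ _ _ _).hom ≫ (T.M p (Option I) ◁ (fst _ _ ≫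
        Q.ren (by omega : p = p + 0) ρ))
      = fst W W' ≫ lift c c ≫ (𝟙 _ ⊗ₘ Q.ren (by omega : p = p + 0) ρ) := by
    ext <;> simp
  have h3 := congrArg (· ≫ T.glue h (Equiv.refl (Option I)) (mid I L) f) h2
  simp only [Category.assoc] at h3
  rw [h3]
  have h4 := K.ren_glue h (Equiv.refl (Option I)) (mid I L) f h (Equiv.refl (Option I))
    ((mid I L).trans ρ.symm) f rfl (by omega : p = p + 0) rfl (Equiv.refl _) ρ (Equiv.refl _)
    (Equiv.refl _) (Equiv.refl _) (fun i => by cases i <;> rfl) (fun j => by cases j <;> simp)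
    (fun x => by rcases x with x | x | x <;> rfl)
  have h5 := K.ren_glue h' (Equiv.refl (Option I)) (Equiv.refl (Option I)) (Equiv.refl (I ⊕ I))
    h (Equiv.refl (Option I)) ((mid I L).trans ρ.symm) f rfl rfl rfl (Equiv.refl _)
    (Equiv.refl _) τ (Equiv.refl _) (Equiv.sumEmpty I L) (fun i => by cases i <;> rfl) ?_ ?_
  · rw [K.ren_refl, K.ren_refl, Category.comp_id] at h4
    have hl : lift c c = c ≫ lift (𝟙 _) (𝟙 _) := by rw [comp_lift, Category.comp_id]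
    have h6 : (𝟙 (T.M p (Option I)) ⊗ₘ 𝟙 (T.M p (Option I))) = 𝟙 _ := by simp
    rw [h4, ← h5, K.ren_refl, h6, hl, Category.assoc]
    congr 3
    exact Category.id_comp _
  · rintro (_ | i | l)
    · simp only [Equiv.trans_apply, Equiv.refl_apply, Option.map_none]
      rw [Equiv.symm_apply_eq]
      simp [ρ, twor, mid]
    · simp only [Equiv.trans_apply, Equiv.refl_apply, Option.map_some]
      rw [Equiv.symm_apply_eq]
      simp [ρ, twor, mid]
    · exact (IsEmpty.false l).elim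
  · rintro (i | i | l)
    · exact (hτ i).symm
    · exact (hτ' i).symm
    · exact (IsEmpty.false l).elim

end Theory

end Pool.Agent.HL2
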