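import Pool.Agent.HL2.Klein

/-!
# Computations with local monodromies
-/

namespace Pool.Agent.HL2

theorem V4.add_self (v : V4) : v + v = 0 := by revert v; decide

/-- `f` extends `g` by zero. -/
def Ext {N K : Type} (f : N → V4) (g : K → V4) : Prop :=
  ∃ ι : K → N, Function.Injective ι ∧ (∀ k, f (ι k) = g k) ∧ ∀ n, (∀ k, ι k ≠ n) → f n = 0

section Ext

variable {N K : Type} {f : N → V4} {g : K → V4}

theorem Ext.preim (h : Ext f g) {n : N} (hn : f n ≠ 0) : ∃ k, g k = f n := by
  obtain ⟨ι, hι, h1, h2⟩ := h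
  by_contra hc
  push Not at hc
  exact hn (h2 n fun k hk => hc k (by rw [← h1, hk]))

theorem Ext.image (h : Ext f g) (k : K) : ∃ n, f n = g k := by
  obtain ⟨ι, hι, h1, h2⟩ := h
  exact ⟨ι k, h1 k⟩

theorem Ext.br (h : Ext f g) : br f = br g := by
  obtain ⟨ι, hι, h1, h2⟩ := h
  symm
  refine Nat.card_congr (Equiv.ofBijective (fun k : {k // g k ≠ 0} => ⟨ι k.1, by
    rw [h1]; exact k.2⟩) ⟨?_, ?_⟩)
  · intro a b hab
    have := congrArg Subtype.val hab
    exact Subtype.ext (hι this)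
  · rintro ⟨n, hn⟩
    have : ∃ k, ι k = n := by
      by_contra hc
      push Not at hc
      exact hn (h2 n hc)
    obtain ⟨k, rfl⟩ := this
    refine ⟨⟨k, ?_⟩, rfl⟩
    rw [← h1]; exact hn

theorem Ext.full (h : Ext f g) : Full f ↔ Full g := by
  constructor
  · rintro ⟨n, n', h1, h2, h3⟩
    obtain ⟨k, hk⟩ := h.preim h1
    obtain ⟨k', hk'⟩ := h.preim h2
    exact ⟨k, k', by rw [hk]; exact h1, by rw [hk']; exact h2, by rw [hk, hk']; exact h3⟩
  · rintro ⟨k, k', h1, h2, h3⟩
    obtain ⟨n, hn⟩ := h.image k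
    obtain ⟨n', hn'⟩ := h.image k'
    exact ⟨n, n', by rw [hn]; exact h1, by rw [hn']; exact h2, by rw [hn, hn']; exact h3⟩

theorem Ext.cyc (h : Ext f g) (u : V4) : Cyc u f ↔ Cyc u g := by
  constructor
  · rintro ⟨h1, h2, n, h3⟩
    refine ⟨h1, fun k => ?_, ?_⟩
    · obtain ⟨n, hn⟩ := h.image k
      rw [← hn]; exact h2 n
    · obtain ⟨k, hk⟩ := h.preim (n := n) (by rw [h3]; exact h1)
      exact ⟨k, by rw [hk, h3]⟩
  · rintro ⟨h1, h2, k, h3⟩
    refine ⟨h1, fun n => ?_, ?_⟩
    · by_cases hn : f n = 0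
      · exact Or.inl hn
      · obtain ⟨k, hk⟩ := h.preim hn
        rw [← hk]; exact h2 k
    · obtain ⟨n, hn⟩ := h.image k
      exact ⟨n, by rw [hn, h3]⟩

theorem Ext.ne (h : Ext f g) {t : V4} (ht : t ≠ 0) : (∀ n, f n ≠ t) ↔ ∀ k, g k ≠ t := by
  constructor
  · intro h1 k
    obtain ⟨n, hn⟩ := h.image k
    rw [← hn]; exact h1 n
  · intro h1 n hn
    obtain ⟨k, hk⟩ := h.preim (n := n) (by rw [hn]; exact ht)
    exact h1 k (by rw [hk, hn])

theorem Ext.sum (h : Ext f g) : ∑ᶠ n, f n = ∑ᶠ k, g k := by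
  obtain ⟨ι, hι, h1, h2⟩ := h
  have h3 : ∑ᶠ k, g k = ∑ᶠ k, f (ι k) := finsum_congr fun k => (h1 k).symm
  rw [h3, ← finsum_mem_range hι, ← finsum_mem_univ]
  refine finsum_mem_inter_support_eq f _ _ ?_
  ext n
  constructor
  · rintro ⟨-, hn⟩
    refine ⟨?_, hn⟩
    by_contra hc
    exact hn (h2 n fun k hk => hc ⟨k, hk⟩)
  · rintro ⟨-, hn⟩
    exact ⟨trivial, hn⟩

end Ext

/-- The monodromies at the node and at the branch points selected by `b`. -/
def red {K : Type} (γ : V4) (w : K → V4) (b : K → Bool) : Option K → V4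
  | none => γ
  | some i => if b i then w i else 0

/-- The node and the markings with property `P`, extended by zero. -/
theorem ext_piece {K X : Type} (w : K → V4) (P : K ⊕ X → Prop) (b : K → Bool)
    (hb : ∀ i, P (Sum.inl i) ↔ b i = true) (γ : V4) :
    (br (nd γ (fun p : {n // P n} => Sum.elim w (fun _ => 0) p.1)) = br (red γ w b)) ∧
    (Full (nd γ (fun p : {n // P n} => Sum.elim w (fun _ => 0) p.1)) ↔ Full (red γ w b)) ∧
    (∀ u, Cyc u (nd γ (fun p : {n // P n} => Sum.elim w (fun _ => 0) p.1)) ↔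
      Cyc u (red γ w b)) ∧
    (∀ t, t ≠ 0 → ((∀ n, nd γ (fun p : {n // P n} => Sum.elim w (fun _ => 0) p.1) n ≠ t) ↔
      ∀ k, red γ w b k ≠ t)) ∧
    ∑ᶠ n, nd γ (fun p : {n // P n} => Sum.elim w (fun _ => 0) p.1) n = ∑ᶠ k, red γ w b k := by
  classical
  let F : Option (K ⊕ X) → V4
    | none => γ
    | some n => if P n then Sum.elim w (fun _ => 0) n else 0
  have E1 : Ext F (nd γ (fun p : {n // P n} => Sum.elim w (fun _ => 0) p.1)) := by
    refine ⟨Option.map Subtype.val, Option.map_injective Subtype.val_injective, ?_, ?_⟩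
    · rintro (_ | ⟨n, hn⟩)
      · rfl
      · simp only [F, Option.map_some, nd, if_pos hn]
    · rintro (_ | n) h
      · exact absurd rfl (h none)
      · by_cases hn : P n
        · exact absurd rfl (h (some ⟨n, hn⟩))
        · simp only [F, if_neg hn]
  have E2 : Ext F (red γ w b) := by
    refine ⟨Option.map Sum.inl, Option.map_injective Sum.inl_injective, ?_, ?_⟩
    · rintro (_ | i)
      · rfl
      · simp only [F, Option.map_some, red, Sum.elim_inl]
        by_cases hi : P (Sum.inl i)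
        · rw [if_pos hi, if_pos ((hb i).1 hi)]
        · rw [if_neg hi, if_neg (fun h => hi ((hb i).2 h))]
    · rintro (_ | i | x) h
      · exact absurd rfl (h none)
      · exact absurd rfl (h (some i))
      · simp only [F, Sum.elim_inr, ite_self]
  refine ⟨E1.br.symm.trans E2.br, E1.full.symm.trans E2.full,
    fun u => (E1.cyc u).symm.trans (E2.cyc u), fun t ht => (E1.ne ht).symm.trans (E2.ne ht),
    E1.sum.symm.trans E2.sum⟩

theorem ext_whole {K X : Type} (w : K → V4) :
    Ext (Sum.elim w (fun _ : X => (0 : V4))) w := by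
  refine ⟨Sum.inl, Sum.inl_injective, fun _ => rfl, ?_⟩
  rintro (i | x) h
  · exact absurd rfl (h i)
  · rfl

theorem sum_nd {P : Type} [Finite P] (γ : V4) (f : P → V4) :
    ∑ᶠ x, nd γ f x = γ + ∑ᶠ p, f p := by
  have := Fintype.ofFinite P
  rw [finsum_eq_sum_of_fintype, finsum_eq_sum_of_fintype, Fintype.sum_option]
  rfl

/-- The sum over the markings with property `P`. -/
theorem sum_piece {K X : Type} [Finite K] [Finite X] (w : K → V4) (P : K ⊕ X → Prop)
    (b : K → Bool) (hb : ∀ i, P (Sum.inl i) ↔ b i = true) :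
    ∑ᶠ p : {n // P n}, Sum.elim w (fun _ => 0) p.1 = ∑ᶠ k, red 0 w b k := by
  have h := (ext_piece w P b hb 0).2.2.2.2
  rw [sum_nd, zero_add] at h
  exact h

theorem card_option'' {P : Type} [Finite P] : Nat.card (Option P) = Nat.card P + 1 := by
  have := Fintype.ofFinite P
  rw [Nat.card_eq_fintype_card, Nat.card_eq_fintype_card, Fintype.card_option]

theorem adm_left {P R N : Type} {e : P ⊕ R ≃ N} {m : N → V4} {γ : V4} (hm : Adm m)
    (h : Cut e m γ) : Adm (nd γ (fun i => m (e (Sum.inl i)))) := by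
  have := hm.1
  have : Finite (P ⊕ R) := Finite.of_equiv N e.symm
  have hP : Finite P := Finite.of_injective (Sum.inl (β := R)) Sum.inl_injective
  refine ⟨inferInstance, ?_, ?_⟩
  · rw [card_option'']; have := h.1; omega
  · rw [sum_nd, h.2.2]; exact V4.add_self γ

theorem adm_right {P R N : Type} {e : P ⊕ R ≃ N} {m : N → V4} {γ : V4} (hm : Adm m)
    (h : Cut e m γ) : Adm (nd γ (fun i => m (e (Sum.inr i)))) := by
  have := hm.1
  have : Finite (P ⊕ R) := Finite.of_equiv N e.symm
  have hP : Finite P := Finite.of_injective (Sum.inl (β := R)) Sum.inl_injective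
  have hR : Finite R := Finite.of_injective (Sum.inr (α := P)) Sum.inr_injective
  refine ⟨inferInstance, ?_, ?_⟩
  · rw [card_option'']; have := h.2.1; omega
  · have h1 := hm.2.2
    rw [← finsum_comp_equiv e] at h1
    have := Fintype.ofFinite P
    have := Fintype.ofFinite R
    rw [finsum_eq_sum_of_fintype, Fintype.sum_sum_type, ← finsum_eq_sum_of_fintype,
      ← finsum_eq_sum_of_fintype, h.2.2] at h1
    rw [sum_nd]
    exact h1

end Pool.Agent.HL2
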