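import Pool.Agent.HL2.Tails
import Pool.Agent.HL2.Vee

/-!
# The torsion pencil
-/

open CategoryTheory MonoidalCategory CartesianMonoidalCategory

namespace Pool.Agent.HL2

universe u v w

/-- The elements of the Klein four-group. -/
def va : V4 := (1, 0)

/-- The elements of the Klein four-group. -/
def vb : V4 := (0, 1)

/-- The elements of the Klein four-group. -/
def vc : V4 := (1, 1)

/-- The nonzero monodromies for the torsion pencil. -/
def wT : Fin 4 → V4 := ![va, va, vb, vb]

/-- The monodromies for the torsion pencil. -/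
def mT (S : Type) : Fin 4 ⊕ S → V4 := Sum.elim wT (fun _ => 0)

/-- The elements `0` and `a`. -/
def lf (v : V4) : Prop := v = 0 ∨ v = va

instance (v : V4) : Decidable (lf v) := inferInstanceAs (Decidable (_ ∨ _))

open Classical in
/-- The markings for the torsion pencil. -/
noncomputable def mark {S : Type} (s₀ : S) : S ⊕ S → (Fin 4 ⊕ S) × V4
  | Sum.inl s => (if s = s₀ then Sum.inl 0 else Sum.inr s, 0)
  | Sum.inr s => (Sum.inr s, if s = s₀ then 0 else vc)

theorem mark_inl_zero {S : Type} (s₀ : S) : mark s₀ (Sum.inl s₀) = (Sum.inl 0, 0) := by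
  simp [mark]

theorem mark_inr_zero {S : Type} (s₀ : S) : mark s₀ (Sum.inr s₀) = (Sum.inr s₀, 0) := by
  simp [mark]

theorem mark_inl {S : Type} {s₀ s : S} (h : s ≠ s₀) : mark s₀ (Sum.inl s) = (Sum.inr s, 0) := by
  simp [mark, h]

theorem mark_inr {S : Type} {s₀ s : S} (h : s ≠ s₀) : mark s₀ (Sum.inr s) = (Sum.inr s, vc) := by
  simp [mark, h]

theorem br_eq {K : Type} [Fintype K] (f : K → V4) :
    br f = (Finset.univ.filter (fun k => f k ≠ 0)).card := by
  unfold br
  rw [Nat.card_eq_fintype_card, Fintype.card_subtype]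

instance {K : Type} [Fintype K] (f : K → V4) : Decidable (Full f) :=
  inferInstanceAs (Decidable (∃ n n', f n ≠ 0 ∧ f n' ≠ 0 ∧ f n ≠ f n'))

instance {K : Type} [Fintype K] (u : V4) (f : K → V4) : Decidable (Cyc u f) :=
  inferInstanceAs (Decidable (u ≠ 0 ∧ (∀ n, f n = 0 ∨ f n = u) ∧ ∃ n, f n = u))

theorem good_T (S : Type) [Finite S] (s₀ : S) (hS : 2 ≤ Nat.card S) :
    Good (mT S) 1 (mark s₀) where
  adm := by
    refine ⟨inferInstance, ?_, ?_⟩
    · rw [Nat.card_sum]; simp; omega
    · unfold mT
      rw [(ext_whole wT).sum, finsum_eq_sum_of_fintype]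
      decide
  full := by
    unfold mT
    rw [(ext_whole wT).full]
    decide
  genus := by
    unfold mT
    rw [(ext_whole wT).br, br_eq]
    decide
  distinct := by
    have h1 : ((0 : V4) = vc ∨ (0 : V4) = vc + 0) → False := by decide
    have h2 : (vc = 0 ∨ vc = (0 : V4) + 0) → False := by decide
    rintro (s | s) (s' | s') h h'
    · by_cases hs : s = s₀ <;> by_cases hs' : s' = s₀
      · rw [hs, hs']
      · subst hs; rw [mark_inl_zero, mark_inl hs'] at h; simp at h
      · subst hs'; rw [mark_inl_zero, mark_inl hs] at h; simp at h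
      · rw [mark_inl hs, mark_inl hs'] at h; simp at h; rw [h]
    · by_cases hs : s = s₀
      · subst hs
        rw [mark_inl_zero] at h
        simp [mark] at h
      · rw [mark_inl hs] at h
        have : s = s' := by simpa [mark] using h
        subst this
        rw [mark_inl hs, mark_inr hs] at h'
        exact (h1 h').elim
    · by_cases hs : s' = s₀
      · subst hs
        rw [mark_inl_zero] at h
        simp [mark] at h
      · rw [mark_inl hs] at h
        have : s = s' := by simpa [mark] using h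
        subst this
        rw [mark_inl hs, mark_inr hs] at h'
        exact (h2 h').elim
    · have : s = s' := by simpa [mark] using h
      rw [this]
  stable := ⟨inferInstance, by rw [Nat.card_sum]; omega⟩

/-- The markings away from `P`. -/
def Away {S : Type} (s₀ : S) (P : Fin 4 ⊕ S → Prop) : Type := {s : S // s ≠ s₀ ∧ ¬ P (Sum.inr s)}

/-- Two families of nodes and markings. -/
def dbl (X : Type) : Option (Option (X ⊕ X)) ≃ Option X ⊕ Option X where
  toFun
    | none => Sum.inr none
    | some none => Sum.inl none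
    | some (some (Sum.inl x)) => Sum.inl (some x)
    | some (some (Sum.inr x)) => Sum.inr (some x)
  invFun
    | Sum.inr none => none
    | Sum.inl none => some none
    | Sum.inl (some x) => some (some (Sum.inl x))
    | Sum.inr (some x) => some (some (Sum.inr x))
  left_inv := by rintro (_ | _ | _ | _) <;> rfl
  right_inv := by rintro ((_ | _) | (_ | _)) <;> rfl

section Split

variable {S : Type} (s₀ : S) (P : Fin 4 ⊕ S → Prop) (ε : Fin 4 ⊕ S → V4)

/-- The markings on the first copy. -/
def On0 : Type := {x : S ⊕ S // P (mark s₀ x).1 ∧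
  ((mark s₀ x).2 + ε (mark s₀ x).1 + ε (Sum.inl 0) = 0 ∨
    (mark s₀ x).2 + ε (mark s₀ x).1 + ε (Sum.inl 0) = va)}

/-- The markings on the second copy. -/
def On1 : Type := {x : S ⊕ S // P (mark s₀ x).1 ∧
  ¬ ((mark s₀ x).2 + ε (mark s₀ x).1 + ε (Sum.inl 0) = 0 ∨
    (mark s₀ x).2 + ε (mark s₀ x).1 + ε (Sum.inl 0) = va)}

/-- The markings of the three curves. -/
def splitF : On0 s₀ P ε ⊕ (On1 s₀ P ε ⊕ (Away s₀ P ⊕ Away s₀ P)) → S ⊕ S :=
  Sum.elim (fun x => x.1) (Sum.elim (fun x => x.1) (Sum.map (fun s => s.1) (fun s => s.1)))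

variable {s₀ P ε}

theorem away_mark (l : Away s₀ P ⊕ Away s₀ P) :
    ¬ P (mark s₀ (splitF s₀ P ε (Sum.inr (Sum.inr l)))).1 := by
  rcases l with ⟨s, hs, hP⟩ | ⟨s, hs, hP⟩
  · simp only [splitF, Sum.elim_inr, Sum.map_inl, mark_inl hs]; exact hP
  · simp only [splitF, Sum.elim_inr, Sum.map_inr, mark_inr hs]; exact hP

theorem splitF_bij (h0 : P (Sum.inl 0)) (hz : P (Sum.inr s₀)) :
    Function.Bijective (splitF s₀ P ε) := by
  constructor
  · rintro (⟨x, hx⟩ | ⟨x, hx⟩ | l) (⟨x', hx'⟩ | ⟨x', hx'⟩ | l') h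
    · have : x = x' := h
      subst this; rfl
    · have : x = x' := h
      subst this; exact (hx'.2 hx.2).elim
    · have : x = splitF s₀ P ε (Sum.inr (Sum.inr l')) := h
      subst this; exact (away_mark l' hx.1).elim
    · have : x = x' := h
      subst this; exact (hx.2 hx'.2).elim
    · have : x = x' := h
      subst this; rfl
    · have : x = splitF s₀ P ε (Sum.inr (Sum.inr l')) := h
      subst this; exact (away_mark l' hx.1).elim
    · have : splitF s₀ P ε (Sum.inr (Sum.inr l)) = x' := h
      subst this; exact (away_mark l hx'.1).elim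
    · have : splitF s₀ P ε (Sum.inr (Sum.inr l)) = x' := h
      subst this; exact (away_mark l hx'.1).elim
    · have hinj : Function.Injective (Sum.map (fun s : Away s₀ P => s.1)
          (fun s : Away s₀ P => s.1)) := Function.Injective.sumMap
            (fun a b hab => Subtype.ext hab) (fun a b hab => Subtype.ext hab)
      rw [hinj h]
  · intro x
    by_cases hP : P (mark s₀ x).1
    · by_cases h1 : (mark s₀ x).2 + ε (mark s₀ x).1 + ε (Sum.inl 0) = 0 ∨
        (mark s₀ x).2 + ε (mark s₀ x).1 + ε (Sum.inl 0) = va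
      · exact ⟨Sum.inl ⟨x, hP, h1⟩, rfl⟩
      · exact ⟨Sum.inr (Sum.inl ⟨x, hP, h1⟩), rfl⟩
    · rcases x with s | s
      · by_cases hs : s = s₀
        · subst hs
          rw [mark_inl_zero] at hP
          exact (hP h0).elim
        · rw [mark_inl hs] at hP
          exact ⟨Sum.inr (Sum.inr (Sum.inl ⟨s, hs, hP⟩)), rfl⟩
      · by_cases hs : s = s₀
        · subst hs
          rw [mark_inr_zero] at hP
          exact (hP hz).elim
        · rw [mark_inr hs] at hP
          exact ⟨Sum.inr (Sum.inr (Sum.inr ⟨s, hs, hP⟩)), rfl⟩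

/-- The markings of the three curves. -/
noncomputable def split (h0 : P (Sum.inl 0)) (hz : P (Sum.inr s₀)) :
    On0 s₀ P ε ⊕ (On1 s₀ P ε ⊕ (Away s₀ P ⊕ Away s₀ P)) ≃ S ⊕ S :=
  Equiv.ofBijective _ (splitF_bij h0 hz)

/-- The markings on the first copy, as points. -/
noncomputable def xT (i : On0 s₀ P ε) : {n // P n} × V4 := (⟨(mark s₀ i.1).1, i.2.1⟩, (mark s₀ i.1).2)

/-- The markings on the second copy, as points. -/
noncomputable def yT (i : On1 s₀ P ε) : {n // P n} × V4 := (⟨(mark s₀ i.1).1, i.2.1⟩, (mark s₀ i.1).2)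

/-- The markings on the third curve, as points. -/
def zT : Away s₀ P ⊕ Away s₀ P → {n // ¬ P n} × V4 :=
  Sum.elim (fun s => (⟨Sum.inr s.1, s.2.2⟩, 0)) (fun s => (⟨Sum.inr s.1, s.2.2⟩, vc))

end Split

end Pool.Agent.HL2
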