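import Pool.Agent.HL2.TorsionTails

/-!
# The torsion pencil: the components
-/

open CategoryTheory MonoidalCategory CartesianMonoidalCategory

namespace Pool.Agent.HL2

universe u v w

theorem card_ge_two {X : Type} [Finite X] (x y : X) (h : x ≠ y) : 2 ≤ Nat.card X := by
  have : Nontrivial X := ⟨x, y, h⟩
  have := Finite.one_lt_card_iff_nontrivial.2 this
  omega

theorem card_two {X : Type} (x y : X) (h : x ≠ y) (h' : ∀ z, z = x ∨ z = y) :
    Nat.card X = 2 := by
  rw [Nat.card_eq_two_iff]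
  refine ⟨x, y, h, ?_⟩
  ext z
  simp [h' z]

theorem lf_or (v : V4) : lf v ∨ lf (vc + v) := by revert v; decide

theorem not_lf (v : V4) (h : lf v) : ¬ lf (vc + v) := by revert v; decide

theorem lf_zero (v : V4) : lf (0 + v + v) := by revert v; decide

namespace Theory

variable {C : Type u} [Category.{v} C] [CartesianMonoidalCategory C]
  {A : C → CommAlgCat.{w} ℚ} {T : Theory A}

theorem glue_nice (F : T.Facts) {W W' : C} {I J R₁ R₂ S : Type} {p q g : ℕ} (h : p + q = g)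
    (e₁ : Option I ≃ R₁) (e₂ : Option J ≃ R₂) (e : I ⊕ J ≃ S) (c₁ : W ⟶ T.M p R₁)
    (c₂ : W' ⟶ T.M q R₂) (h₁ : (Sp.M p R₁).Small) (h₂ : Stable q R₂)
    (n₂ : T.Nice (.M q R₂) c₂) : T.Nice (.M g S) ((c₁ ⊗ₘ c₂) ≫ T.glue h e₁ e₂ e) :=
  nice_edge (nice_prod (nice_small (X := .M p R₁) F h₁ c₁) n₂) (Edge.glue h e₁ e₂ e h₁.1 h₂)

section Setup

variable {S : Type} {s₀ : S} {P : Fin 4 ⊕ S → Prop} {ε : Fin 4 ⊕ S → V4}

instance [Finite S] : Finite (On0 s₀ P ε) := inferInstanceAs (Finite (Subtype _))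
instance [Finite S] : Finite (On1 s₀ P ε) := inferInstanceAs (Finite (Subtype _))
instance [Finite S] : Finite (Away s₀ P) := inferInstanceAs (Finite (Subtype _))

/-- The marking of the first copy. -/
noncomputable def on0 (h0 : P (Sum.inl 0)) : On0 s₀ P ε :=
  ⟨Sum.inl s₀, by rw [mark_inl_zero]; exact ⟨h0, lf_zero _⟩⟩

theorem on0_more [Finite S] (h0 : P (Sum.inl 0)) {s : S} (hs : s ≠ s₀) (hP : P (Sum.inr s)) :
    2 ≤ Nat.card (On0 s₀ P ε) ∧ Nonempty (On1 s₀ P ε) := by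
  rcases lf_or (0 + ε (Sum.inr s) + ε (Sum.inl 0)) with h | h
  · have hn : ¬ lf (vc + ε (Sum.inr s) + ε (Sum.inl 0)) := by
      have := not_lf _ h
      rwa [zero_add, ← add_assoc] at this
    constructor
    · refine card_ge_two (on0 h0) ⟨Sum.inl s, by rw [mark_inl hs]; exact ⟨hP, h⟩⟩ ?_
      intro he
      have := congrArg Subtype.val he
      exact hs (Sum.inl_injective this).symm
    · exact ⟨⟨Sum.inr s, by rw [mark_inr hs]; exact ⟨hP, hn⟩⟩⟩
  · have h' : lf (vc + ε (Sum.inr s) + ε (Sum.inl 0)) := by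
      rwa [zero_add, ← add_assoc] at h
    have hn : ¬ lf (0 + ε (Sum.inr s) + ε (Sum.inl 0)) := fun h'' => by
      have := not_lf _ h''
      exact this h
    constructor
    · refine card_ge_two (on0 h0) ⟨Sum.inr s, by rw [mark_inr hs]; exact ⟨hP, h'⟩⟩ ?_
      intro he
      have := congrArg Subtype.val he
      cases this
    · exact ⟨⟨Sum.inl s, by rw [mark_inl hs]; exact ⟨hP, hn⟩⟩⟩

theorem stable_zero {X : Type} [Finite X] (h : 2 ≤ Nat.card X) :
    (Sp.M 0 (Option X)).Small := by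
  refine ⟨⟨inferInstance, ?_⟩, Or.inl rfl⟩
  rw [card_option'']; omega

/-- The card of the set of pairs of the third curve. -/
theorem away_card [Finite S] {s : S} (hs : s ≠ s₀) (hP : P (Sum.inr s)) :
    Nat.card (Option (Away s₀ P)) < Nat.card S := by
  classical
  have := Fintype.ofFinite S
  rw [card_option'']
  have h1 : Nat.card (Away s₀ P) = (Finset.univ.filter (fun x => x ≠ s₀ ∧ ¬ P (Sum.inr x))).card := by
    unfold Away
    rw [Nat.card_eq_fintype_card, Fintype.card_subtype]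
  rw [h1, Nat.card_eq_fintype_card]
  have h2 : (Finset.univ.filter (fun x => x ≠ s₀ ∧ ¬ P (Sum.inr x))) ⊆
      (Finset.univ.erase s₀).erase s := by
    intro x hx
    simp only [Finset.mem_filter, Finset.mem_univ, true_and] at hx
    simp only [Finset.mem_erase, Finset.mem_univ, and_true]
    exact ⟨fun h => hx.2 (h ▸ hP), hx.1⟩
  have h3 := Finset.card_le_card h2
  have h4 : ((Finset.univ.erase s₀).erase s).card = Fintype.card S - 1 - 1 := by
    rw [Finset.card_erase_of_mem (by simp [hs]), Finset.card_erase_of_mem (Finset.mem_univ _),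
      Finset.card_univ]
  have h5 := Fintype.one_lt_card_iff.2 ⟨s, s₀, hs⟩
  omega

end Setup

open Classical in
/-- A component with markings on the tails. -/
theorem tor_more (F : T.Facts) {Q : T.Klein} (K : Q.Facts) {S : Type} [Finite S] {s₀ : S}
    (hS : 2 ≤ Nat.card S) {P : Fin 4 ⊕ S → Prop} (ε : Fin 4 ⊕ S → V4) (hTwo : Two P)
    (h0 : P (Sum.inl 0)) (h1 : ¬ P (Sum.inl 1)) (h2 : ¬ P (Sum.inl 2)) (h3 : ¬ P (Sum.inl 3))
    (hz : P (Sum.inr s₀)) {s : S} (hs : s ≠ s₀) (hP : P (Sum.inr s))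
    (ih : T.Nice (.M 1 (Option (Away s₀ P) ⊕ Option (Away s₀ P))) (T.tor (Option (Away s₀ P)))) :
    T.Nice (.M 1 (S ⊕ S)) (Q.gl (Equiv.sumCompl P) (mT S) ε va ≫ Q.cur (mT S) 1 (mark s₀)) := by
  obtain ⟨c₁, c₂, hc⟩ := tor_tails K hS ε hTwo h0 h1 h2 h3 hz
    ((dbl (Away s₀ P)).trans (Equiv.sumCongr (Equiv.refl _) (Equiv.refl _)))
  obtain ⟨r, hr, hr'⟩ := tor_centre K ε (good_T S s₀ hS).adm hTwo h0 h1 h2 h3 hz
    (Equiv.refl (Option (Away s₀ P)))
  rw [hc]
  obtain ⟨hI, ⟨j⟩⟩ := on0_more (ε := ε) h0 hs hP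
  have hn : T.Nice (.M 1 (Option (Away s₀ P) ⊕ Option (Away s₀ P)))
      (Q.cur (nd va (fun p : {n // ¬ P n} => mT S p.1)) 1
        (fun r => sd2 (ε (Sum.inl 0) + vc) (ε (Sum.inl 0))
          (fun i : {n // ¬ P n} => ε i.1) zT
          (((dbl (Away s₀ P)).trans (Equiv.sumCongr (Equiv.refl _) (Equiv.refl _))).symm r))) := by
    rw [hr']
    exact nice_cover r hr ih
  have hst : Stable 1 (Option (Away s₀ P) ⊕ Option (Away s₀ P)) := by
    refine ⟨inferInstance, ?_⟩
    rw [Nat.card_sum, card_option'']; omega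
  by_cases hJ : ∀ j', j' = j
  · rw [tails_one K _ _ _ _ _ _ _ _ j hJ]
    exact glue_nice F _ _ _ _ _ _ (stable_zero hI) hst hn
  · push Not at hJ
    obtain ⟨j', hj'⟩ := hJ
    exact tails_nice F _ _ _ _ _ _ _ _ (stable_zero hI) (stable_zero (card_ge_two j' j hj')) hst hn

end Theory

end Pool.Agent.HL2
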