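import Pool.Agent.HL2.TorsionComp

/-!
# The torsion pencil: the main component, and the conclusion
-/

open CategoryTheory MonoidalCategory CartesianMonoidalCategory

namespace Pool.Agent.HL2

universe u v w

namespace Theory

variable {C : Type u} [Category.{v} C] [CartesianMonoidalCategory C]
  {A : C → CommAlgCat.{w} ℚ} {T : Theory A}

/-- The node and the markings different from `s₀`. -/
noncomputable def allEquiv {S : Type} {s₀ : S} {P : Fin 4 ⊕ S → Prop}
    (hA : ∀ s, s ≠ s₀ → ¬ P (Sum.inr s)) : Option (Away s₀ P) ≃ S :=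
  Equiv.ofBijective (fun x => Option.elim x s₀ (fun s => s.1)) (by
    constructor
    · rintro (_ | s) (_ | s') h
      · rfl
      · exact absurd h.symm s'.2.1
      · exact absurd h s.2.1
      · rw [show s = s' from Subtype.ext h]
    · intro s
      by_cases hs : s = s₀
      · exact ⟨none, hs.symm⟩
      · exact ⟨some ⟨s, hs, hA s hs⟩, rfl⟩)

theorem only_two {S : Type} {s₀ : S} {P : Fin 4 ⊕ S → Prop} (h0 : P (Sum.inl 0))
    (h1 : ¬ P (Sum.inl 1)) (h2 : ¬ P (Sum.inl 2)) (h3 : ¬ P (Sum.inl 3)) (hz : P (Sum.inr s₀))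
    (hA : ∀ s, s ≠ s₀ → ¬ P (Sum.inr s)) : Nat.card {n // P n} = 2 := by
  refine card_two ⟨Sum.inl 0, h0⟩ ⟨Sum.inr s₀, hz⟩ (fun h => ?_) ?_
  · have := congrArg Subtype.val h
    cases this
  · rintro ⟨i | s, hi⟩
    · left
      refine Subtype.ext (congrArg Sum.inl ?_)
      fin_cases i
      · rfl
      · exact absurd hi h1
      · exact absurd hi h2
      · exact absurd hi h3
    · right
      refine Subtype.ext (congrArg Sum.inr ?_)
      by_contra hs
      exact hA s hs hi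

open Classical in
/-- The main component. -/
theorem tor_main {Q : T.Klein} (K : Q.Facts) {S : Type} [Finite S] {s₀ : S}
    (hS : 2 ≤ Nat.card S) {P : Fin 4 ⊕ S → Prop} (ε : Fin 4 ⊕ S → V4) (hTwo : Two P)
    (h0 : P (Sum.inl 0)) (h1 : ¬ P (Sum.inl 1)) (h2 : ¬ P (Sum.inl 2)) (h3 : ¬ P (Sum.inl 3))
    (hz : P (Sum.inr s₀)) (hA : ∀ s, s ≠ s₀ → ¬ P (Sum.inr s))
    (hl : ¬ lf (ε (Sum.inr s₀) + ε (Sum.inl 0))) :
    ∃ r, T.Covers r ∧
      Q.gl (Equiv.sumCompl P) (mT S) ε va ≫ Q.cur (mT S) 1 (mark s₀) = r ≫ T.tor S := by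
  obtain ⟨c₁, c₂, hc⟩ := tor_tails K hS ε hTwo h0 h1 h2 h3 hz
    ((dbl (Away s₀ P)).trans (Equiv.sumCongr (allEquiv hA) (allEquiv hA)))
  obtain ⟨r, hr, hr'⟩ := tor_centre K ε (good_T S s₀ hS).adm hTwo h0 h1 h2 h3 hz (allEquiv hA)
  have hj0 : P (mark s₀ (Sum.inr s₀)).1 ∧
      ¬ ((mark s₀ (Sum.inr s₀)).2 + ε (mark s₀ (Sum.inr s₀)).1 + ε (Sum.inl 0) = 0 ∨
        (mark s₀ (Sum.inr s₀)).2 + ε (mark s₀ (Sum.inr s₀)).1 + ε (Sum.inl 0) = va) := by
    rw [mark_inr_zero]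
    refine ⟨hz, ?_⟩
    rw [zero_add]
    exact hl
  let j : On1 s₀ P ε := ⟨Sum.inr s₀, hj0⟩
  have hi : ∀ i' : On0 s₀ P ε, i' = on0 h0 := by
    rintro ⟨s | s, hx⟩
    · by_cases hs : s = s₀
      · exact Subtype.ext (congrArg Sum.inl hs)
      · rw [mark_inl hs] at hx
        exact absurd hx.1 (hA s hs)
    · by_cases hs : s = s₀
      · subst hs
        rw [mark_inr_zero] at hx
        have h' := hx.2
        rw [zero_add] at h'
        exact absurd h' hl
      · rw [mark_inr hs] at hx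
        exact absurd hx.1 (hA s hs)
  have hj : ∀ j' : On1 s₀ P ε, j' = j := by
    rintro ⟨s | s, hx⟩
    · by_cases hs : s = s₀
      · subst hs
        rw [mark_inl_zero] at hx
        exact absurd (lf_zero (ε (Sum.inl 0))) hx.2
      · rw [mark_inl hs] at hx
        exact absurd hx.1 (hA s hs)
    · by_cases hs : s = s₀
      · exact Subtype.ext (congrArg Sum.inr hs)
      · rw [mark_inr hs] at hx
        exact absurd hx.1 (hA s hs)
  have hmain := tails_main K (by rfl) (split (ε := ε) h0 hz) (Equiv.refl _) (Equiv.refl _)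
    ((dbl (Away s₀ P)).trans (Equiv.sumCongr (allEquiv hA) (allEquiv hA))) c₁ c₂
    (Q.cur (nd va (fun p : {n // ¬ P n} => mT S p.1)) 1
      (fun r => sd2 (ε (Sum.inl 0) + vc) (ε (Sum.inl 0))
        (fun i : {n // ¬ P n} => ε i.1) zT
        (((dbl (Away s₀ P)).trans (Equiv.sumCongr (allEquiv hA) (allEquiv hA))).symm r)))
    (on0 h0) hi j hj (Equiv.refl _) rfl rfl (fun l => by rcases l with s | s <;> rfl)
  refine ⟨snd _ _ ≫ r, covers_comp ?_ hr, ?_⟩
  · refine ⟨_, ?_, push_snd_one _ _⟩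
    refine K.deg_pos _ ?_ ?_
    · exact adm_left (e := Equiv.sumCompl P) (good_T S s₀ hS).adm
        ⟨hTwo.1, hTwo.2, sum_one h0 h1 h2 h3⟩
    · rw [card_option'', only_two h0 h1 h2 h3 hz hA]
  · rw [hc]
    refine hmain.trans ?_
    rw [hr', K.ren_refl, Category.comp_id, Category.assoc]
    rfl

open Classical in
/-- The component where both markings are on the first tail. -/
theorem tor_zero (F : T.Facts) {Q : T.Klein} (K : Q.Facts) {S : Type} [Finite S] {s₀ : S}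
    (hS : 2 ≤ Nat.card S) {P : Fin 4 ⊕ S → Prop} (ε : Fin 4 ⊕ S → V4) (hTwo : Two P)
    (h0 : P (Sum.inl 0)) (h1 : ¬ P (Sum.inl 1)) (h2 : ¬ P (Sum.inl 2)) (h3 : ¬ P (Sum.inl 3))
    (hz : P (Sum.inr s₀)) (hA : ∀ s, s ≠ s₀ → ¬ P (Sum.inr s))
    (hl : lf (ε (Sum.inr s₀) + ε (Sum.inl 0)))
    (ih : T.Nice (.M 1 (Away s₀ P ⊕ Away s₀ P)) (T.tor (Away s₀ P))) :
    T.Nice (.M 1 (S ⊕ S)) (Q.gl (Equiv.sumCompl P) (mT S) ε va ≫ Q.cur (mT S) 1 (mark s₀)) := by
  obtain ⟨c₁, c₂, hc⟩ := tor_tails K hS ε hTwo h0 h1 h2 h3 hz (Equiv.refl _)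
  have hI : 2 ≤ Nat.card (On0 s₀ P ε) := by
    refine card_ge_two (on0 h0) ⟨Sum.inr s₀, ?_⟩ ?_
    · rw [mark_inr_zero]
      refine ⟨hz, ?_⟩
      rw [zero_add]
      exact hl
    · intro h
      have := congrArg Subtype.val h
      cases this
  have hJ : IsEmpty (On1 s₀ P ε) := by
    refine ⟨?_⟩
    rintro ⟨s | s, hx⟩
    · by_cases hs : s = s₀
      · subst hs
        rw [mark_inl_zero] at hx
        exact absurd (lf_zero (ε (Sum.inl 0))) hx.2
      · rw [mark_inl hs] at hx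
        exact absurd hx.1 (hA s hs)
    · by_cases hs : s = s₀
      · subst hs
        rw [mark_inr_zero] at hx
        have h' := hx.2
        rw [zero_add] at h'
        exact absurd hl h'
      · rw [mark_inr hs] at hx
        exact absurd hx.1 (hA s hs)
  have hne : Nonempty (Away s₀ P) := by
    have h5 : 1 < Nat.card S := by omega
    have := Finite.one_lt_card_iff_nontrivial.1 h5
    obtain ⟨s, hs⟩ := exists_ne s₀
    exact ⟨⟨s, hs, hA s hs⟩⟩
  rw [hc, tails_zero K]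
  have hst : Stable 1 (Option (Away s₀ P ⊕ Away s₀ P)) := by
    refine ⟨inferInstance, ?_⟩
    rw [card_option'', Nat.card_sum]; omega
  have hst' : Stable 1 (Away s₀ P ⊕ Away s₀ P) := by
    refine ⟨inferInstance, ?_⟩
    rw [Nat.card_sum]
    have := Nat.card_pos (α := Away s₀ P)
    omega
  refine glue_nice F _ _ _ _ _ _ (stable_zero hI) hst ?_
  have hgood : Good (nd va (fun p : {n // ¬ P n} => mT S p.1)) 1
      (fun r => sd2 (ε (Sum.inl 0) + vc) (ε (Sum.inl 0))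
        (fun i : {n // ¬ P n} => ε i.1) (zT (s₀ := s₀) (P := P))
          ((Equiv.refl (Option (Option (Away s₀ P ⊕ Away s₀ P)))).symm r)) := by
    have ht := trans_one' (P := P) (good_T S s₀ hS).adm hTwo h0 h1 h2 h3
    refine ⟨ht.1, ht.2.1.1, ht.2.1.2, ?_, ?_⟩
    · have a1 : ∀ v : V4, v + vc = v ∨ v + vc = v + va → False := by decide
      have a2 : ∀ v : V4, v = v + vc ∨ v = v + vc + va → False := by decide
      have a3 : ∀ v : V4, 0 + v = vc + v ∨ 0 + v = vc + v + 0 → False := by decide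
      have a4 : ∀ v : V4, vc + v = 0 + v ∨ vc + v = 0 + v + 0 → False := by decide
      rintro (_ | _ | s | s) (_ | _ | s' | s') h h'
      · rfl
      · exact (a1 _ h').elim
      · cases h
      · cases h
      · exact (a2 _ h').elim
      · rfl
      · cases h
      · cases h
      · cases h
      · cases h
      · have : s.1 = s'.1 := by simpa [sd2, zT] using h
        rw [show s = s' from Subtype.ext this]
      · have : s.1 = s'.1 := by simpa [sd2, zT] using h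
        obtain rfl : s = s' := Subtype.ext this
        exact (a3 _ h').elim
      · cases h
      · cases h
      · have : s.1 = s'.1 := by simpa [sd2, zT] using h
        obtain rfl : s = s' := Subtype.ext this
        exact (a4 _ h').elim
      · have : s.1 = s'.1 := by simpa [sd2, zT] using h
        rw [show s = s' from Subtype.ext this]
    · refine ⟨inferInstance, ?_⟩
      rw [card_option'']; omega
  have hf := K.cur_forget _ 1 _ (Equiv.refl (Option (Option (Away s₀ P ⊕ Away s₀ P)))) hgood hst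
  have hfun : (fun i : Option (Away s₀ P ⊕ Away s₀ P) =>
      sd2 (ε (Sum.inl 0) + vc) (ε (Sum.inl 0))
        (fun i : {n // ¬ P n} => ε i.1) (zT (s₀ := s₀) (P := P))
          ((Equiv.refl (Option (Option (Away s₀ P ⊕ Away s₀ P)))).symm
            ((Equiv.refl (Option (Option (Away s₀ P ⊕ Away s₀ P)))) (some i)))) =
      (fun i => Option.elim i ((none : Option {n // ¬ P n}), ε (Sum.inl 0))
        (both (fun s : Away s₀ P => ((some ⟨Sum.inr s.1, s.2.2⟩ : Option {n // ¬ P n}),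
            ε (Sum.inr s.1))) vc)) := by
    funext i
    rcases i with _ | s | s
    · rfl
    · simp [sd2, both, zT]
    · simp [sd2, both, zT, add_comm]
  rw [hfun] at hf
  obtain ⟨k, hk⟩ := K.univ_cover (nd va (fun p : {n // ¬ P n} => mT S p.1)) vc
    (fun s : Away s₀ P => ((some ⟨Sum.inr s.1, s.2.2⟩ : Option {n // ¬ P n}), ε (Sum.inr s.1)))
    (none, ε (Sum.inl 0)) (trans_one' (good_T S s₀ hS).adm hTwo h0 h1 h2 h3) hne
    (by change va ≠ 0; decide)
    ⟨by
      intro s s' h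
      have : s.1 = s'.1 := by simpa using h
      exact Subtype.ext this,
    fun n => ⟨fun hn => by
      obtain ⟨s, rfl⟩ := unbr hz n hn
      exact ⟨s, rfl⟩, by rintro ⟨s, rfl⟩; rfl⟩⟩
  have hn := nice_univ F hst' (Equiv.refl (Option (Away s₀ P ⊕ Away s₀ P))) _ k hk ih
  rw [← hf] at hn
  exact hn

open Classical in
/-- A component consisting of rational curves. -/
theorem rat_nice (F : T.Facts) {Q : T.Klein} (K : Q.Facts) {N S : Type} {m : N → V4} {g : ℕ}
    {s : S → N × V4} (hg : Good m g s) {P : N → Prop} (ε : N → V4) (hTwo : Two P) {γ : V4}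
    (hγ : ∑ᶠ p : {n // P n}, m p.1 = γ) (h1 : br (nd γ (fun p : {n // P n} => m p.1)) ≤ 3)
    (h2 : br (nd γ (fun p : {n // ¬ P n} => m p.1)) ≤ 3) :
    T.Nice (.M g S) (Q.gl (Equiv.sumCompl P) m ε γ ≫ Q.cur m g s) := by
  obtain ⟨X, a, b, hX, hb, h⟩ := K.rational (Equiv.sumCompl P) m ε γ s hg
    ⟨hTwo.1, hTwo.2, hγ⟩ h1 h2
  rw [h]
  exact nice_path hb (nice_small F (rat_small hX) a)

/-- The four points of the torsion pencil. -/
def tT {S : Type} (s₀ : S) : Fin 4 → (Fin 4 ⊕ S) × V4 :=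
  ![(Sum.inr s₀, 0), (Sum.inl 0, vc), (Sum.inl 0, 0), (Sum.inl 1, 0)]

/-- The pairs `{0, 1}`, `{2, 3}`. -/
def q₀ : Fin 2 ⊕ Fin 2 ≃ Fin 4 := finSumFinEquiv

/-- The pairs `{0, 2}`, `{1, 3}`. -/
def q₁ : Fin 2 ⊕ Fin 2 ≃ Fin 4 := finSumFinEquiv.trans (Equiv.swap 1 2)

theorem apart_zero {G : Fin 4 → Prop} (h : Apart q₀ G) :
    (G 0 ∧ G 1 ∧ ¬ G 2 ∧ ¬ G 3) ∨ (G 2 ∧ G 3 ∧ ¬ G 0 ∧ ¬ G 1) := by
  rcases h with ⟨h, h'⟩ | ⟨h, h'⟩
  · exact Or.inl ⟨h 0, h 1, h' 0, h' 1⟩
  · exact Or.inr ⟨h 0, h 1, h' 0, h' 1⟩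

theorem apart_one {G : Fin 4 → Prop} (h : Apart q₁ G) :
    (G 0 ∧ G 2 ∧ ¬ G 1 ∧ ¬ G 3) ∨ (G 1 ∧ G 3 ∧ ¬ G 0 ∧ ¬ G 2) := by
  rcases h with ⟨h, h'⟩ | ⟨h, h'⟩
  · exact Or.inl ⟨h 0, h 1, h' 0, h' 1⟩
  · exact Or.inr ⟨h 0, h 1, h' 0, h' 1⟩

theorem lf_sum (v w k : V4) (h : lf (0 + v + k)) (h' : lf (0 + w + k)) : lf (v + w) := by
  revert v w k; decide

theorem no_b {S : Type} {P : Fin 4 ⊕ S → Prop} (h : ∀ n, P n → mT S n = 0 ∨ mT S n = va) :
    ¬ P (Sum.inl 2) ∧ ¬ P (Sum.inl 3) := by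
  refine ⟨fun h2 => ?_, fun h3 => ?_⟩
  · have h4 : vb = 0 ∨ vb = va := h _ h2
    exact absurd h4 (by decide)
  · have h4 : vb = 0 ∨ vb = va := h _ h3
    exact absurd h4 (by decide)

theorem sep_zero {S : Type} {s₀ : S} {P : Fin 4 ⊕ S → Prop} {ε : Fin 4 ⊕ S → V4}
    (h : SepQ (mT S) va (tT s₀) q₀ P ε) : P (Sum.inl 0) ∧ ¬ P (Sum.inl 2) ∧ ¬ P (Sum.inl 3) ∧
      (¬ P (Sum.inl 1) → P (Sum.inr s₀)) := by
  rcases h with ⟨h, κ, hκ⟩ | ⟨-, h, h'⟩
  · obtain ⟨h2, h3⟩ := no_b h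
    rcases apart_zero hκ with ⟨⟨a0, a0'⟩, ⟨a1, a1'⟩, -, -⟩ | ⟨⟨a0, a0'⟩, ⟨a1, a1'⟩, -, -⟩
    · exact ⟨a1, h2, h3, fun _ => a0⟩
    · exact ⟨a0, h2, h3, fun h => absurd a1 h⟩
  · exact absurd (h 1) (h' 0)

theorem sep_one {S : Type} {s₀ : S} {P : Fin 4 ⊕ S → Prop} {ε : Fin 4 ⊕ S → V4}
    (h : SepQ (mT S) va (tT s₀) q₁ P ε) : P (Sum.inl 0) ∧ ¬ P (Sum.inl 2) ∧ ¬ P (Sum.inl 3) ∧
      (¬ P (Sum.inl 1) → P (Sum.inr s₀) ∧ lf (ε (Sum.inr s₀) + ε (Sum.inl 0))) := by
  rcases h with ⟨h, κ, hκ⟩ | ⟨-, h, h'⟩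
  · obtain ⟨h2, h3⟩ := no_b h
    rcases apart_one hκ with ⟨⟨a0, a0'⟩, ⟨a1, a1'⟩, -, -⟩ | ⟨⟨a0, a0'⟩, ⟨a1, a1'⟩, -, -⟩
    · exact ⟨a1, h2, h3, fun _ => ⟨a0, lf_sum _ _ _ a0' a1'⟩⟩
    · exact ⟨a0, h2, h3, fun h => absurd a1 h⟩
  · exact absurd (h 1) (h' 0)

theorem special_T (S : Type) : Nat.card {n // ¬ Sub va (mT S n)} = 2 := by
  refine card_two ⟨Sum.inl 2, by change ¬ Sub va vb; decide⟩
    ⟨Sum.inl 3, by change ¬ Sub va vb; decide⟩ (fun h => ?_) ?_
  · have := Sum.inl_injective (congrArg Subtype.val h)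
    exact absurd this (by decide)
  · rintro ⟨i | s, hi⟩
    · have h4 : ∀ i : Fin 4, ¬ Sub va (wT i) → i = 2 ∨ i = 3 := by decide
      rcases h4 i hi with rfl | rfl
      · exact Or.inl rfl
      · exact Or.inr rfl
    · exact absurd (Or.inl rfl) hi

theorem distinct_T {S : Type} (s₀ : S) (i j : Fin 4) (hij : i ≠ j)
    (h : (tT s₀ i).1 = (tT s₀ j).1) :
    Sub va (mT S (tT s₀ j).1) ∧ ¬ Sub va ((tT s₀ i).2 + (tT s₀ j).2) := by
  fin_cases i <;> fin_cases j
  · exact absurd rfl hij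
  · cases h
  · cases h
  · cases h
  · cases h
  · exact absurd rfl hij
  · exact ⟨Or.inr rfl, by change ¬ Sub va (vc + 0); decide⟩
  · cases h
  · cases h
  · exact ⟨Or.inr rfl, by change ¬ Sub va (0 + vc); decide⟩
  · exact absurd rfl hij
  · cases h
  · cases h
  · cases h
  · cases h
  · exact absurd rfl hij

section Conclusion

variable (F : T.Facts) {Q : T.Klein} (K : Q.Facts)

include F K

/-- A component of one of the two fibres that is not a main component. -/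
theorem tor_comp {S : Type} [Finite S] {s₀ : S} (hS : 2 ≤ Nat.card S)
    (ih : ∀ S' : Type, Finite S' → Nonempty S' → Nat.card S' < Nat.card S →
      T.Nice (.M 1 (S' ⊕ S')) (T.tor S'))
    {P : Fin 4 ⊕ S → Prop} (ε : Fin 4 ⊕ S → V4) (hTwo : Two P)
    (h0 : P (Sum.inl 0)) (h2 : ¬ P (Sum.inl 2)) (h3 : ¬ P (Sum.inl 3))
    (hz : ¬ P (Sum.inl 1) → P (Sum.inr s₀))
    (hn : ¬ P (Sum.inl 1) → (∀ s, s ≠ s₀ → ¬ P (Sum.inr s)) →
      lf (ε (Sum.inr s₀) + ε (Sum.inl 0))) :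
    T.Nice (.M 1 (S ⊕ S)) (Q.bd (mT S) P ε ≫ Q.cur (mT S) 1 (mark s₀)) := by
  classical
  by_cases h1 : P (Sum.inl 1)
  · have hb : ∀ i, P (Sum.inl i) ↔ (![true, true, false, false] : Fin 4 → Bool) i = true := by
      intro i; fin_cases i <;> simp [h0, h1, h2, h3]
    have hb' : ∀ i, ¬ P (Sum.inl i) ↔
        (![false, false, true, true] : Fin 4 → Bool) i = true := by
      intro i; fin_cases i <;> simp [h0, h1, h2, h3]
    have hγ : ∑ᶠ p : {n // P n}, mT S p.1 = 0 := by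
      unfold mT
      rw [sum_piece wT P _ hb, finsum_eq_sum_of_fintype]
      decide
    have hr := rat_nice F K (good_T S s₀ hS) ε hTwo hγ (by
      unfold mT
      rw [(ext_piece wT P _ hb 0).1, br_eq]
      decide) (by
      unfold mT
      rw [(ext_piece wT (fun n => ¬ P n) _ hb' 0).1, br_eq]
      decide)
    exact bd_elim Q (mT S) P ε hγ (fun f => T.Nice (.M 1 (S ⊕ S)) (f ≫ Q.cur (mT S) 1 (mark s₀))) hr
  · refine bd_elim Q (mT S) P ε (sum_one h0 h1 h2 h3)
      (fun f => T.Nice (.M 1 (S ⊕ S)) (f ≫ Q.cur (mT S) 1 (mark s₀))) ?_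
    by_cases hA : ∀ s, s ≠ s₀ → ¬ P (Sum.inr s)
    · refine tor_zero F K hS ε hTwo h0 h1 h2 h3 (hz h1) hA (hn h1 hA) (ih _ inferInstance ?_ ?_)
      · have h5 : 1 < Nat.card S := by omega
        have := Finite.one_lt_card_iff_nontrivial.1 h5
        obtain ⟨s, hs⟩ := exists_ne s₀
        exact ⟨⟨s, hs, hA s hs⟩⟩
      · have h5 : Nat.card (Option (Away s₀ P)) = Nat.card S := Nat.card_congr (allEquiv hA)
        rw [card_option''] at h5
        omega
    · push Not at hA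
      obtain ⟨s, hs, hP⟩ := hA
      exact tor_more F K hS ε hTwo h0 h1 h2 h3 (hz h1) hs hP
        (ih _ inferInstance inferInstance (away_card hs hP))

/-- The torsion loci are tautological. -/
theorem tor_nice (n : ℕ) : ∀ (S : Type), Finite S → Nonempty S → Nat.card S = n →
    T.Nice (.M 1 (S ⊕ S)) (T.tor S) := by
  induction n using Nat.strong_induction_on with
  | _ n ih =>
    intro S hf hn hc
    by_cases hsm : n ≤ 1
    · apply nice_small F
      have hpos : 0 < Nat.card S := Nat.card_pos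
      refine ⟨⟨inferInstance, ?_⟩, Or.inr ⟨rfl, ?_⟩⟩
      · rw [Nat.card_sum]; omega
      · rw [Nat.card_sum]; omega
    · have hS : 2 ≤ Nat.card S := by omega
      have hnt := Finite.one_lt_card_iff_nontrivial.1 (by omega : 1 < Nat.card S)
      obtain ⟨s₀⟩ := hn
      have ih' : ∀ S' : Type, Finite S' → Nonempty S' → Nat.card S' < Nat.card S →
          T.Nice (.M 1 (S' ⊕ S')) (T.tor S') := fun S' h1 h2 h3 => ih _ (by omega) S' h1 h2 rfl
      have hg := good_T S s₀ hS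
      refine pencil F Q (mT S) (Q.crossQ (mT S) va (tT s₀)) (X := .M 1 (S ⊕ S))
        (Q.cur (mT S) 1 (mark s₀)) q₀ q₁ _ _
        (K.crossQ _ va _ q₀ hg.adm hg.full (by decide) (special_T S) (distinct_T s₀))
        (K.crossQ _ va _ q₁ hg.adm hg.full (by decide) (special_T S) (distinct_T s₀))
        (T.tor S) ?_ ?_ ?_
      · intro P ε hTwo hB
        obtain ⟨h0, h2, h3, hz⟩ := sep_zero hB
        by_cases hm : ¬ P (Sum.inl 1) ∧ (∀ s, s ≠ s₀ → ¬ P (Sum.inr s)) ∧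
            ¬ lf (ε (Sum.inr s₀) + ε (Sum.inl 0))
        · left
          refine bd_elim Q (mT S) P ε (sum_one h0 hm.1 h2 h3) (fun {D} f =>
            ∃ r : D ⟶ T.Tor S, T.Covers r ∧ f ≫ Q.cur (mT S) 1 (mark s₀) = r ≫ T.tor S) ?_
          exact tor_main K hS ε hTwo h0 hm.1 h2 h3 (hz hm.1) hm.2.1 hm.2.2
        · right
          refine tor_comp F K hS ih' ε hTwo h0 h2 h3 hz (fun h1 hA => ?_)
          by_contra hl
          exact hm ⟨h1, hA, hl⟩
      · classical
        let P : Fin 4 ⊕ S → Prop := fun n => n = Sum.inl 0 ∨ n = Sum.inr s₀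
        let ε : Fin 4 ⊕ S → V4 := fun n => if n = Sum.inr s₀ then vc else 0
        have h0 : P (Sum.inl 0) := Or.inl rfl
        have h1 : ¬ P (Sum.inl 1) := by simp [P]
        have h2 : ¬ P (Sum.inl 2) := by simp [P]
        have h3 : ¬ P (Sum.inl 3) := by simp [P]
        have hz : P (Sum.inr s₀) := Or.inr rfl
        have hA : ∀ s, s ≠ s₀ → ¬ P (Sum.inr s) := by
          intro s hs h
          rcases h with h | h
          · cases h
          · exact hs (Sum.inr_injective h)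
        have e0 : ε (Sum.inl 0) = 0 := by simp [ε]
        have ez : ε (Sum.inr s₀) = vc := by simp [ε]
        have hTwo : Two P := by
          refine ⟨(only_two h0 h1 h2 h3 hz hA).ge, ?_⟩
          refine card_ge_two ⟨Sum.inl 2, h2⟩ ⟨Sum.inl 3, h3⟩ (fun h => ?_)
          have := Sum.inl_injective (congrArg Subtype.val h)
          exact absurd this (by decide)
        refine ⟨P, ε, hTwo, Or.inl ⟨?_, vc, Or.inl ⟨?_, ?_⟩⟩, ?_⟩
        · rintro n (rfl | rfl)
          · exact Or.inr rfl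
          · exact Or.inl rfl
        · intro j
          fin_cases j
          · refine ⟨hz, ?_⟩
            change 0 + ε (Sum.inr s₀) + vc = 0 ∨ 0 + ε (Sum.inr s₀) + vc = va
            rw [ez]
            decide
          · refine ⟨h0, ?_⟩
            change vc + ε (Sum.inl 0) + vc = 0 ∨ vc + ε (Sum.inl 0) + vc = va
            rw [e0]
            decide
        · intro j
          fin_cases j
          · rintro ⟨-, h⟩
            change 0 + ε (Sum.inl 0) + vc = 0 ∨ 0 + ε (Sum.inl 0) + vc = va at h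
            rw [e0] at h
            exact absurd h (by decide)
          · rintro ⟨h, -⟩
            exact h1 h
        · refine bd_elim Q (mT S) P ε (sum_one h0 h1 h2 h3) (fun {D} f =>
            ∃ r : D ⟶ T.Tor S, T.Covers r ∧ f ≫ Q.cur (mT S) 1 (mark s₀) = r ≫ T.tor S) ?_
          refine tor_main K hS ε hTwo h0 h1 h2 h3 hz hA ?_
          rw [ez, e0]
          decide
      · intro P ε hTwo hB
        obtain ⟨h0, h2, h3, hz⟩ := sep_one hB
        exact tor_comp F K hS ih' ε hTwo h0 h2 h3 (fun h => (hz h).1) (fun h _ => (hz h).2)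

end Conclusion

end Theory

end Pool.Agent.HL2
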