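import Pool.Agent.HL2.Torsion

/-!
# The torsion pencil: components with two tails
-/

open CategoryTheory MonoidalCategory CartesianMonoidalCategory

namespace Pool.Agent.HL2

universe u v w

namespace Theory

variable {C : Type u} [Category.{v} C] [CartesianMonoidalCategory C]
  {A : C → CommAlgCat.{w} ℚ} {T : Theory A}

section Side

variable {S : Type} {P : Fin 4 ⊕ S → Prop}

theorem hb_one (h0 : P (Sum.inl 0)) (h1 : ¬ P (Sum.inl 1)) (h2 : ¬ P (Sum.inl 2))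
    (h3 : ¬ P (Sum.inl 3)) (i : Fin 4) :
    P (Sum.inl i) ↔ (![true, false, false, false] : Fin 4 → Bool) i = true := by
  fin_cases i <;> simp [h0, h1, h2, h3]

theorem hb_one' (h0 : P (Sum.inl 0)) (h1 : ¬ P (Sum.inl 1)) (h2 : ¬ P (Sum.inl 2))
    (h3 : ¬ P (Sum.inl 3)) (i : Fin 4) :
    ¬ P (Sum.inl i) ↔ (![false, true, true, true] : Fin 4 → Bool) i = true := by
  fin_cases i <;> simp [h0, h1, h2, h3]

theorem sum_one [Finite S] (h0 : P (Sum.inl 0)) (h1 : ¬ P (Sum.inl 1)) (h2 : ¬ P (Sum.inl 2))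
    (h3 : ¬ P (Sum.inl 3)) : ∑ᶠ p : {n // P n}, mT S p.1 = va := by
  unfold mT
  rw [sum_piece wT P _ (hb_one h0 h1 h2 h3), finsum_eq_sum_of_fintype]
  decide

theorem cyc_one (h0 : P (Sum.inl 0)) (h1 : ¬ P (Sum.inl 1)) (h2 : ¬ P (Sum.inl 2))
    (h3 : ¬ P (Sum.inl 3)) : Cyc va (nd va (fun p : {n // P n} => mT S p.1)) := by
  unfold mT
  rw [(ext_piece wT P _ (hb_one h0 h1 h2 h3) va).2.2.1]
  decide

theorem br_one (h0 : P (Sum.inl 0)) (h1 : ¬ P (Sum.inl 1)) (h2 : ¬ P (Sum.inl 2))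
    (h3 : ¬ P (Sum.inl 3)) : br (nd va (fun p : {n // P n} => mT S p.1)) = 2 * 0 + 2 := by
  unfold mT
  rw [(ext_piece wT P _ (hb_one h0 h1 h2 h3) va).1, br_eq]
  decide

theorem full_one' (h0 : P (Sum.inl 0)) (h1 : ¬ P (Sum.inl 1)) (h2 : ¬ P (Sum.inl 2))
    (h3 : ¬ P (Sum.inl 3)) : Full (nd va (fun p : {n // ¬ P n} => mT S p.1)) := by
  unfold mT
  rw [(ext_piece wT (fun n => ¬ P n) _ (hb_one' h0 h1 h2 h3) va).2.1]
  decide

theorem br_one' (h0 : P (Sum.inl 0)) (h1 : ¬ P (Sum.inl 1)) (h2 : ¬ P (Sum.inl 2))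
    (h3 : ¬ P (Sum.inl 3)) : br (nd va (fun p : {n // ¬ P n} => mT S p.1)) = 1 + 3 := by
  unfold mT
  rw [(ext_piece wT (fun n => ¬ P n) _ (hb_one' h0 h1 h2 h3) va).1, br_eq]
  decide

theorem ne_one' (h0 : P (Sum.inl 0)) (h1 : ¬ P (Sum.inl 1)) (h2 : ¬ P (Sum.inl 2))
    (h3 : ¬ P (Sum.inl 3)) : ∀ n, nd va (fun p : {n // ¬ P n} => mT S p.1) n ≠ vc := by
  unfold mT
  rw [(ext_piece wT (fun n => ¬ P n) _ (hb_one' h0 h1 h2 h3) va).2.2.2.1 vc (by decide)]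
  decide

end Side

open Classical in
/-- The formula of `tails` for the torsion pencil. -/
theorem tor_tails {Q : T.Klein} (K : Q.Facts) {S : Type} [Finite S] {s₀ : S}
    (hS : 2 ≤ Nat.card S) {P : Fin 4 ⊕ S → Prop} (ε : Fin 4 ⊕ S → V4) (hTwo : Two P)
    (h0 : P (Sum.inl 0)) (h1 : ¬ P (Sum.inl 1)) (h2 : ¬ P (Sum.inl 2)) (h3 : ¬ P (Sum.inl 3))
    (hz : P (Sum.inr s₀)) {R₃ : Type} (e₃ : Option (Option (Away s₀ P ⊕ Away s₀ P)) ≃ R₃) :
    ∃ (c₁ : Q.H (Option {n // P n}) (nd va (fun p => mT S (Equiv.sumCompl P (Sum.inl p)))) ⟶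
        T.M 0 (Option (On0 s₀ P ε)))
      (c₂ : Q.H (Option {n // P n}) (nd va (fun p => mT S (Equiv.sumCompl P (Sum.inl p)))) ⟶
        T.M 0 (Option (On1 s₀ P ε))),
    Q.gl (Equiv.sumCompl P) (mT S) ε va ≫ Q.cur (mT S) 1 (mark s₀) =
      (lift c₁ c₂ ⊗ₘ Q.cur _ 1 (fun r => sd2 (ε (Sum.inl 0) + vc) (ε (Sum.inl 0))
        (fun i : {n // ¬ P n} => ε i.1) zT (e₃.symm r))) ≫
      (α_ _ _ _).hom ≫ (_ ◁ T.glue rfl (Equiv.refl _) e₃ (Equiv.refl _)) ≫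
      T.glue (by rfl) (Equiv.refl _) (mid _ _) (split (ε := ε) h0 hz) := by
  refine ⟨_, _, K.tails (Equiv.sumCompl P) (mT S) ε va vc (ε (Sum.inl 0)) (by rfl) (mark s₀)
    (split (ε := ε) h0 hz) (Equiv.refl _) (Equiv.refl _) e₃ xT yT zT (good_T S s₀ hS)
    ⟨hTwo.1, hTwo.2, sum_one h0 h1 h2 h3⟩ (by decide) ⟨cyc_one h0 h1 h2 h3,
    br_one h0 h1 h2 h3⟩ ⟨full_one' h0 h1 h2 h3, br_one' h0 h1 h2 h3⟩ ?_ ?_ ?_⟩
  · rintro ⟨x, hx⟩
    exact ⟨rfl, hx.2⟩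
  · rintro ⟨x, hx⟩
    exact ⟨rfl, hx.2⟩
  · rintro (⟨s, hs⟩ | ⟨s, hs⟩)
    · exact mark_inl hs.1
    · exact mark_inr hs.1

/-- The marking of the third curve, for a type `B` of pairs. -/
def zs {S : Type} {s₀ : S} {P : Fin 4 ⊕ S → Prop} (ε : Fin 4 ⊕ S → V4) {B : Type}
    (k : Option (Away s₀ P) ≃ B) (b : B) : Option {n // ¬ P n} × V4 :=
  match k.symm b with
  | none => (none, ε (Sum.inl 0))
  | some s => (some ⟨Sum.inr s.1, s.2.2⟩, ε (Sum.inr s.1))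

theorem zs_none {S : Type} {s₀ : S} {P : Fin 4 ⊕ S → Prop} (ε : Fin 4 ⊕ S → V4) {B : Type}
    (k : Option (Away s₀ P) ≃ B) : zs ε k (k none) = (none, ε (Sum.inl 0)) := by
  simp [zs]

theorem zs_some {S : Type} {s₀ : S} {P : Fin 4 ⊕ S → Prop} (ε : Fin 4 ⊕ S → V4) {B : Type}
    (k : Option (Away s₀ P) ≃ B) (s : Away s₀ P) :
    zs ε k (k (some s)) = (some ⟨Sum.inr s.1, s.2.2⟩, ε (Sum.inr s.1)) := by
  simp [zs]

/-- The points of the third curve, for a type `B` of pairs. -/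
theorem sd2_zs {S : Type} {s₀ : S} {P : Fin 4 ⊕ S → Prop} (ε : Fin 4 ⊕ S → V4) {B : Type}
    (k : Option (Away s₀ P) ≃ B) :
    (fun r => sd2 (ε (Sum.inl 0) + vc) (ε (Sum.inl 0))
      (fun i : {n // ¬ P n} => ε i.1) zT
      (((dbl (Away s₀ P)).trans (Equiv.sumCongr k k)).symm r)) =
    both (zs ε k) vc := by
  unfold both
  funext r
  obtain ⟨x, rfl⟩ := ((dbl (Away s₀ P)).trans (Equiv.sumCongr k k)).surjective r
  rw [Equiv.symm_apply_apply]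
  rcases x with _ | _ | s | s
  · simp only [dbl, Equiv.trans_apply, Equiv.coe_fn_mk, Equiv.sumCongr_apply, Sum.map_inr,
      Sum.elim_inr, zs_none, sd2]
  · simp only [dbl, Equiv.trans_apply, Equiv.coe_fn_mk, Equiv.sumCongr_apply, Sum.map_inl,
      Sum.elim_inl, zs_none, sd2]
  · simp only [dbl, Equiv.trans_apply, Equiv.coe_fn_mk, Equiv.sumCongr_apply, Sum.map_inl,
      Sum.elim_inl, zs_some, sd2, zT, zero_add]
  · simp only [dbl, Equiv.trans_apply, Equiv.coe_fn_mk, Equiv.sumCongr_apply, Sum.map_inr,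
      Sum.elim_inr, zs_some, sd2, zT, add_comm]

theorem trans_one' {S : Type} [Finite S] {P : Fin 4 ⊕ S → Prop} (hm : Adm (mT S))
    (hTwo : Two P) (h0 : P (Sum.inl 0)) (h1 : ¬ P (Sum.inl 1)) (h2 : ¬ P (Sum.inl 2))
    (h3 : ¬ P (Sum.inl 3)) : Trans (nd va (fun p : {n // ¬ P n} => mT S p.1)) vc := by
  classical
  refine ⟨?_, ⟨full_one' h0 h1 h2 h3, br_one' h0 h1 h2 h3⟩, by decide, ne_one' h0 h1 h2 h3⟩
  exact adm_right (e := Equiv.sumCompl P) hm ⟨hTwo.1, hTwo.2, sum_one h0 h1 h2 h3⟩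

/-- The unbranched markings on the third curve. -/
theorem unbr {S : Type} {s₀ : S} {P : Fin 4 ⊕ S → Prop} (hz : P (Sum.inr s₀))
    (n : Option {n // ¬ P n}) (hn : nd va (fun p : {n // ¬ P n} => mT S p.1) n = 0) :
    ∃ s : Away s₀ P, n = some ⟨Sum.inr s.1, s.2.2⟩ := by
  rcases n with _ | ⟨i | s, hi⟩
  · have h : va = 0 := hn
    exact absurd h (by decide)
  · have h4 : ∀ j, wT j ≠ 0 := by decide
    exact (h4 i hn).elim
  · exact ⟨⟨s, fun h => hi (h ▸ hz), hi⟩, rfl⟩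

/-- The third curve is the torsion locus. -/
theorem tor_centre {Q : T.Klein} (K : Q.Facts) {S : Type} [Finite S] {s₀ : S}
    {P : Fin 4 ⊕ S → Prop} (ε : Fin 4 ⊕ S → V4) (hm : Adm (mT S)) (hTwo : Two P)
    (h0 : P (Sum.inl 0)) (h1 : ¬ P (Sum.inl 1)) (h2 : ¬ P (Sum.inl 2)) (h3 : ¬ P (Sum.inl 3))
    (hz : P (Sum.inr s₀)) {B : Type} (k : Option (Away s₀ P) ≃ B) :
    ∃ r : Q.H (Option {n // ¬ P n}) (nd va (fun p : {n // ¬ P n} => mT S p.1)) ⟶ T.Tor B,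
      T.Covers r ∧ Q.cur (nd va (fun p : {n // ¬ P n} => mT S p.1)) 1
        (fun r => sd2 (ε (Sum.inl 0) + vc) (ε (Sum.inl 0))
          (fun i : {n // ¬ P n} => ε i.1) zT
          (((dbl (Away s₀ P)).trans (Equiv.sumCongr k k)).symm r)) = r ≫ T.tor B := by
  rw [sd2_zs]
  refine K.tor_cover _ vc (zs ε k) (k none) (trans_one' hm hTwo h0 h1 h2 h3) ⟨?_, ?_, ?_⟩
  · intro b b' h
    obtain ⟨x, rfl⟩ := k.surjective b
    obtain ⟨x', rfl⟩ := k.surjective b'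
    rcases x with _ | s <;> rcases x' with _ | s'
    · rfl
    · simp [zs_none, zs_some] at h
    · simp [zs_none, zs_some] at h
    · have h' : s.1 = s'.1 := by simpa [zs_some] using h
      rw [show s = s' from Subtype.ext h']
  · rw [zs_none]
    change va ≠ 0
    decide
  · intro n
    constructor
    · intro hn
      obtain ⟨s, rfl⟩ := unbr hz n hn
      exact ⟨k (some s), fun h => by simp at h, by rw [zs_some]⟩
    · rintro ⟨b, hb, rfl⟩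
      obtain ⟨x, rfl⟩ := k.surjective b
      rcases x with _ | s
      · exact absurd rfl hb
      · rw [zs_some]; rfl

end Theory

end Pool.Agent.HL2
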